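import Pool.Agent.Helper111.EN.Main

/-!
# Primes obstructing solvability of locally nilpotent Engel groups
-/

set_option autoImplicit false

universe u v

open scoped commutatorElement

namespace Pool.Agent.H402.ES

open Pool.Agent.Helper111.EN

/-- all finite `n`-Engel `p`-groups have derived length at most `d` -/
def DLE (n p d : ℕ) : Prop :=
  ∀ (Q : Type) [Group Q], Finite Q → IsPGroup p Q → IsEngel n Q → derivedSeries Q d = ⊥

/-- the set `S(n)`: the primes `p` for which some locally nilpotent `n`-Engel `p`-group (in the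
universe `u`) is not solvable -/
def S (n : ℕ) : Set ℕ :=
  {p | p.Prime ∧ ∃ (G : Type u) (_ : Group G),
    IsPGroup p G ∧ IsEngel n G ∧ LocNil G ∧ ¬ Group.IsSolvable G}

/-- `π` is sufficient for solvability: every locally nilpotent `n`-Engel group (in the universe
`u`) that has no element of order `p` for any `p ∈ π` is solvable. -/
def SolvSufficient (n : ℕ) (π : Set ℕ) : Prop :=
  ∀ (G : Type u) [Group G], IsEngel n G → LocNil G → NoOrder π G → Group.IsSolvable G

theorem der_map_mono {G : Type u} [Group G] {H K : Subgroup G} (h : H ≤ K) (m : ℕ) :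
    (derivedSeries H m).map H.subtype ≤ (derivedSeries K m).map K.subtype := by
  have h1 : H.subtype = K.subtype.comp (Subgroup.inclusion h) := by
    ext x; rfl
  rw [h1, ← Subgroup.map_map]
  exact Subgroup.map_mono (map_derivedSeries_le_derivedSeries (Subgroup.inclusion h) m)

theorem der_bot_of_inj {G : Type u} {K : Type v} [Group G] [Group K] (φ : G →* K)
    (hφ : Function.Injective φ) (d : ℕ) (h : derivedSeries K d = ⊥) : derivedSeries G d = ⊥ := by
  have h1 := map_derivedSeries_le_derivedSeries φ d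
  rw [h] at h1
  rw [eq_bot_iff]
  intro x hx
  have h2 : φ x ∈ (⊥ : Subgroup K) := h1 ⟨x, hx, rfl⟩
  rw [Subgroup.mem_bot] at h2 ⊢
  exact hφ (h2.trans (map_one φ).symm)

/-- elements of the derived series lie in the derived series of a finitely generated subgroup -/
theorem exists_fg {G : Type u} [Group G] (d : ℕ) : ∀ x ∈ derivedSeries G d,
    ∃ H : Subgroup G, H.FG ∧ x ∈ (derivedSeries H d).map H.subtype := by
  induction d with
  | zero =>
    intro x _
    refine ⟨Subgroup.closure {x}, ⟨{x}, by simp⟩, ⟨⟨x, Subgroup.subset_closure rfl⟩, ?_, rfl⟩⟩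
    simp
  | succ d ih =>
    intro x hx
    obtain ⟨K, hK⟩ : ∃ K : Subgroup G, ∀ y : G, y ∈ K ↔
        ∃ H : Subgroup G, H.FG ∧ y ∈ (derivedSeries H (d + 1)).map H.subtype := by
      refine ⟨{ carrier := {y | ∃ H : Subgroup G, H.FG ∧
                  y ∈ (derivedSeries H (d + 1)).map H.subtype}
                mul_mem' := ?_
                one_mem' := ?_
                inv_mem' := ?_ }, fun y => Iff.rfl⟩
      · rintro a b ⟨H, hH, ha⟩ ⟨L, hL, hb⟩
        exact ⟨H ⊔ L, hH.sup hL, Subgroup.mul_mem _ (der_map_mono le_sup_left _ ha)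
          (der_map_mono le_sup_right _ hb)⟩
      · exact ⟨⊥, ⟨∅, by simp⟩, Subgroup.one_mem _⟩
      · rintro a ⟨H, hH, ha⟩
        exact ⟨H, hH, Subgroup.inv_mem _ ha⟩
    have hle : derivedSeries G (d + 1) ≤ K := by
      rw [derivedSeries_succ, Subgroup.commutator_le]
      intro a ha b hb
      obtain ⟨H, hH, ha'⟩ := ih a ha
      obtain ⟨L, hL, hb'⟩ := ih b hb
      rw [hK]
      refine ⟨H ⊔ L, hH.sup hL, ?_⟩
      have h1 := der_map_mono (le_sup_left (a := H) (b := L)) d ha'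
      have h2 := der_map_mono (le_sup_right (a := H) (b := L)) d hb'
      rw [derivedSeries_succ, Subgroup.map_commutator]
      exact Subgroup.commutator_mem_commutator h1 h2
    exact (hK x).1 (hle hx)

/-- If all finite `n`-Engel `r`-groups with `r` outside `π` have derived length at most `d`, so
have all locally nilpotent `n`-Engel groups without elements of order in `π`. -/
theorem bounded_global_d {G : Type u} [Group G] (n d : ℕ) (π : Set ℕ)
    (hπ : ∀ p ∈ π, p.Prime) (q : ℕ) (hq : q.Prime) (hqπ : q ∉ π)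
    (hE : IsEngel n G) (hL : LocNil G) (htf : NoOrder π G)
    (hb : ∀ r : ℕ, r.Prime → r ∉ π → ∀ (Q : Type u) [Group Q], Finite Q → IsPGroup r Q →
      IsEngel n Q → derivedSeries Q d = ⊥) :
    derivedSeries G d = ⊥ := by
  rw [eq_bot_iff]
  intro x hx
  by_contra hx1
  obtain ⟨H, hH, y, hy, hyx⟩ := exists_fg d x hx
  have hy1 : y ≠ 1 := by
    rintro rfl
    apply hx1
    rw [← hyx]
    simp
  have hHn : Group.IsNilpotent H := hL H hH
  have hHF : Group.FG H := (Group.fg_iff_subgroup_fg _).2 hH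
  obtain ⟨r, hr, hrπ, N, hN, hyN, hfin, hpg⟩ :=
    resid π hπ q hq hqπ (tf_of_noOrder π hπ (htf.subgroup H)) y hy1
  have hEH : IsEngel n H := hE.of_injective H.subtype H.subtype_injective n
  have hEQ : IsEngel n (H ⧸ N) :=
    hEH.of_surjective (QuotientGroup.mk' N) (QuotientGroup.mk'_surjective N) n
  have h3 := hb r hr hrπ (H ⧸ N) hfin hpg hEQ
  have h4 := map_derivedSeries_le_derivedSeries (QuotientGroup.mk' N) d
  rw [h3] at h4
  have h5 : QuotientGroup.mk' N y ∈ (⊥ : Subgroup (H ⧸ N)) := h4 ⟨y, hy, rfl⟩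
  rw [Subgroup.mem_bot, mk_eq_one_iff] at h5
  exact hyN h5

theorem DLE_univ {n p d : ℕ} (h : DLE n p d) (Q : Type u) [Group Q] (hfin : Finite Q)
    (hpg : IsPGroup p Q) (hE : IsEngel n Q) : derivedSeries Q d = ⊥ := by
  obtain ⟨R, _, hRf, ⟨φ⟩⟩ := Finite.exists_type_univ_nonempty_mulEquiv.{u, 0} Q
  exact der_bot_of_inj φ.toMonoidHom φ.injective d
    (h R inferInstance (hpg.of_equiv φ) (hE.of_surjective φ.toMonoidHom φ.surjective n))

theorem DLE_mono {n p d e : ℕ} (hde : d ≤ e) (h : DLE n p d) : DLE n p e := by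
  intro Q _ h1 h2 h3
  rw [eq_bot_iff, ← h Q h1 h2 h3]
  exact derivedSeries_antitone Q hde

theorem der_le_of_DLE (n d : ℕ) (π : Set ℕ) (hπ : ∀ p ∈ π, p.Prime) (q : ℕ) (hq : q.Prime)
    (hqπ : q ∉ π) (h : ∀ r : ℕ, r.Prime → r ∉ π → DLE n r d) (G : Type u) [Group G]
    (hE : IsEngel n G) (hL : LocNil G) (htf : NoOrder π G) : derivedSeries G d = ⊥ :=
  bounded_global_d n d π hπ q hq hqπ hE hL htf
    (fun r hr hrπ Q _ h1 h2 h3 => DLE_univ (h r hr hrπ) Q h1 h2 h3)

/-- the derived length of a restricted sum -/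
theorem sum_not_solvable (Q : ℕ → Type) [∀ c, Group (Q c)]
    (h4 : ∀ c, derivedSeries (Q c) c ≠ ⊥) :
    ¬ Group.IsSolvable (RSa.restricted_sum_grp.{u} Q) := by
  intro hs
  obtain ⟨c, hc⟩ := (Group.isSolvable_def _).1 hs
  apply h4 c
  have hsurj : Function.Surjective (RSa.restricted_sum_ev.{u} Q c) := fun q =>
    RSa.restricted_sum_surj.{u} Q c q
  have h5 := derivedSeries_le_map_derivedSeries hsurj c
  rw [hc, Subgroup.map_bot] at h5
  exact le_bot_iff.1 h5

theorem sum_engel (n : ℕ) (Q : ℕ → Type) [∀ c, Group (Q c)] (h3 : ∀ c, IsEngel n (Q c)) :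
    IsEngel n (RSa.restricted_sum_grp.{u} Q) := by
  intro x y
  apply RSa.restricted_sum_ext
  intro c
  rw [RSa.restricted_sum_eng, map_one]
  exact h3 c _ _

theorem sum_pGroup (p : ℕ) (Q : ℕ → Type) [∀ c, Group (Q c)] (h2 : ∀ c, IsPGroup p (Q c)) :
    IsPGroup p (RSa.restricted_sum_grp.{u} Q) := by
  intro x
  choose k hk using fun c => h2 c (RSa.restricted_sum_ev.{u} Q c x)
  refine ⟨(RSa.restricted_sum_fin.{u} Q x).toFinset.sup k, ?_⟩
  apply RSa.restricted_sum_ext
  intro c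
  rw [map_pow, map_one]
  by_cases hc : RSa.restricted_sum_ev.{u} Q c x = 1
  · rw [hc, one_pow]
  · have hle : k c ≤ (RSa.restricted_sum_fin.{u} Q x).toFinset.sup k :=
      Finset.le_sup ((RSa.restricted_sum_fin.{u} Q x).mem_toFinset.2 hc)
    obtain ⟨m, hm⟩ := Nat.exists_eq_add_of_le hle
    rw [hm, pow_add, pow_mul, hk c, one_pow]

theorem sum_noOrder (π : Set ℕ) (hπ : ∀ p ∈ π, p.Prime) (r : ℕ → ℕ) (hr : ∀ c, (r c).Prime)
    (hrπ : ∀ c, r c ∉ π) (Q : ℕ → Type) [∀ c, Group (Q c)] (h2 : ∀ c, IsPGroup (r c) (Q c)) :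
    NoOrder π (RSa.restricted_sum_grp.{u} Q) := by
  intro p hp x hx
  have hpp := hπ p hp
  have hx1 : x = 1 := by
    apply RSa.restricted_sum_ext
    intro c
    rw [map_one]
    have hxp : x ^ p = 1 := by rw [← hx]; exact pow_orderOf_eq_one x
    have h5 : (RSa.restricted_sum_ev.{u} Q c x) ^ p = 1 := by rw [← map_pow, hxp, map_one]
    obtain ⟨k, hk⟩ := h2 c (RSa.restricted_sum_ev.{u} Q c x)
    have h6 := orderOf_dvd_of_pow_eq_one h5
    have h7 := orderOf_dvd_of_pow_eq_one hk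
    have hcop : Nat.Coprime p ((r c) ^ k) := by
      apply Nat.Coprime.pow_right
      rw [Nat.coprime_primes hpp (hr c)]
      rintro rfl
      exact hrπ c hp
    have h8 := Nat.dvd_gcd h6 h7
    rw [hcop.gcd_eq_one] at h8
    exact orderOf_eq_one_iff.1 (Nat.dvd_one.1 h8)
  rw [hx1, orderOf_one] at hx
  exact hpp.one_lt.ne hx

theorem sum_locNil (Q : ℕ → Type) [∀ c, Group (Q c)] (h1 : ∀ c, Group.IsNilpotent (Q c)) :
    LocNil (RSa.restricted_sum_grp.{u} Q) := by
  intro H hH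
  obtain ⟨T, hT⟩ := hH
  obtain ⟨I, hI⟩ : ∃ I : Set ℕ, I = ⋃ s ∈ T, {c | RSa.restricted_sum_ev.{u} Q c s ≠ 1} := ⟨_, rfl⟩
  have hIfin : I.Finite := by
    rw [hI]
    exact T.finite_toSet.biUnion fun s _ => RSa.restricted_sum_fin.{u} Q s
  have hsupp : ∀ x ∈ H, ∀ c, c ∉ I → RSa.restricted_sum_ev.{u} Q c x = 1 := by
    intro x hx c hc
    have hle : H ≤ (RSa.restricted_sum_ev.{u} Q c).ker := by
      rw [← hT, Subgroup.closure_le]
      intro s hs
      change RSa.restricted_sum_ev.{u} Q c s = 1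
      by_contra hne
      apply hc
      rw [hI]
      exact Set.mem_biUnion hs hne
    exact hle hx
  have hI' : Finite I := hIfin
  have hn : Group.IsNilpotent (∀ i : I, Q i) := inferInstance
  obtain ⟨φ, hφ⟩ : ∃ φ : H →* (∀ i : I, Q i), ∀ x i,
      φ x i = RSa.restricted_sum_ev.{u} Q (i : ℕ) (x : RSa.restricted_sum_grp.{u} Q) :=
    ⟨MonoidHom.pi fun i => (RSa.restricted_sum_ev.{u} Q (i : ℕ)).comp H.subtype,
      fun x i => rfl⟩
  have hinj : Function.Injective φ := by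
    intro x y hxy
    apply Subtype.ext
    apply RSa.restricted_sum_ext
    intro c
    by_cases hc : c ∈ I
    · have := congrFun hxy ⟨c, hc⟩
      rwa [hφ, hφ] at this
    · rw [hsupp x x.2 c hc, hsupp y y.2 c hc]
  exact Group.nilpotent_of_mulEquiv (MonoidHom.ofInjective hinj).symm

/-- (1): unbounded derived length gives a member of `S(n)` -/
theorem mem_S_iff (n p : ℕ) (hp : p.Prime) : p ∈ S.{u} n ↔ ∀ d : ℕ, ¬ DLE n p d := by
  constructor
  · rintro ⟨_, G, _, hG, hE, hL, hn⟩ d hd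
    apply hn
    rw [Group.isSolvable_def]
    exact ⟨d, der_le_of_DLE n d {r | r.Prime ∧ r ≠ p} (fun r hr => hr.1) p hp (fun h => h.2 rfl)
      (fun r hr hrp => by
        have : r = p := by
          by_contra hne
          exact hrp ⟨hr, hne⟩
        rw [this]; exact hd) G hE hL
      (noOrder_of_pGroup hp hG _ (fun r hr => hr.1) (fun h => h.2 rfl))⟩
  · intro h
    refine ⟨hp, ?_⟩
    have h' : ∀ d : ℕ, ∃ (Q : Type) (_ : Group Q), Finite Q ∧ IsPGroup p Q ∧ IsEngel n Q ∧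
        derivedSeries Q d ≠ ⊥ := by
      intro d
      by_contra hcon
      push Not at hcon
      exact h d fun Q _ h1 h2 h3 => hcon Q inferInstance h1 h2 h3
    choose Q hQ h1 h2 h3 h4 using h'
    have : Fact p.Prime := ⟨hp⟩
    exact ⟨RSa.restricted_sum_grp.{u} Q, inferInstance, sum_pGroup p Q h2, sum_engel n Q h3,
      sum_locNil Q (fun c => by have := h1 c; exact (h2 c).isNilpotent), sum_not_solvable Q h4⟩

/-- (2): sufficiency for solvability is a uniform bound on derived lengths -/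
theorem solvSufficient_iff (n : ℕ) (π : Set ℕ) (hπ : π ⊆ {p | p.Prime})
    (hq : ∃ q : ℕ, q.Prime ∧ q ∉ π) :
    SolvSufficient.{u} n π ↔ ∃ d : ℕ, ∀ r : ℕ, r.Prime → r ∉ π → DLE n r d := by
  constructor
  · intro hS
    by_contra hcon
    push Not at hcon
    have h' : ∀ d : ℕ, ∃ r : ℕ, r.Prime ∧ r ∉ π ∧ ∃ (Q : Type) (_ : Group Q), Finite Q ∧
        IsPGroup r Q ∧ IsEngel n Q ∧ derivedSeries Q d ≠ ⊥ := by
      intro d
      obtain ⟨r, hr, hrπ, hd⟩ := hcon d
      refine ⟨r, hr, hrπ, ?_⟩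
      by_contra hcon'
      push Not at hcon'
      exact hd fun Q _ h1 h2 h3 => hcon' Q inferInstance h1 h2 h3
    choose r hr hrπ Q hQ h1 h2 h3 h4 using h'
    refine sum_not_solvable.{u} Q h4 (hS _ (sum_engel n Q h3) (sum_locNil Q ?_)
      (sum_noOrder π (fun p hp => hπ hp) r hr hrπ Q h2))
    intro c
    have : Fact (r c).Prime := ⟨hr c⟩
    have := h1 c
    exact (h2 c).isNilpotent
  · rintro ⟨d, hd⟩ G _ hE hL hN
    obtain ⟨q, hq, hqπ⟩ := hq
    rw [Group.isSolvable_def]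
    exact ⟨d, der_le_of_DLE n d π (fun p hp => hπ hp) q hq hqπ hd G hE hL hN⟩

theorem exists_DLE {n p : ℕ} (hp : p.Prime) (h : p ∉ S.{u} n) : ∃ d, DLE n p d := by
  by_contra hcon
  push Not at hcon
  exact h ((mem_S_iff n p hp).2 hcon)

/-- (3): finitely many primes outside `S(n)` -/
theorem finite_bound (n : ℕ) (F : Set ℕ) (hF : F.Finite) (hne : F.Nonempty)
    (hFp : F ⊆ {p | p.Prime}) (hFS : ∀ p ∈ F, p ∉ S.{u} n) :
    ∃ d : ℕ, ∀ (G : Type u) [Group G], IsEngel n G → LocNil G →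
      NoOrder {p | p.Prime ∧ p ∉ F} G → derivedSeries G d = ⊥ := by
  classical
  have hb : ∀ p : ℕ, ∃ d : ℕ, p ∈ F → DLE n p d := by
    intro p
    by_cases hp : p ∈ F
    · obtain ⟨d, hd⟩ := exists_DLE (hFp hp) (hFS p hp)
      exact ⟨d, fun _ => hd⟩
    · exact ⟨0, fun h => absurd h hp⟩
  choose b hb using hb
  obtain ⟨q, hqF⟩ := hne
  refine ⟨hF.toFinset.sup b, fun G _ hE hL hN => ?_⟩
  refine der_le_of_DLE n _ {p | p.Prime ∧ p ∉ F} (fun p hp => hp.1) q (hFp hqF)
    (fun h => h.2 hqF) ?_ G hE hL hN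
  intro r hr hrF
  have hrF' : r ∈ F := by
    by_contra hne
    exact hrF ⟨hr, hne⟩
  exact DLE_mono (Finset.le_sup (hF.mem_toFinset.2 hrF')) (hb r hrF')

theorem DLE_of_ClassLE {n p c : ℕ} (hp : p.Prime) (h : ClassLE n p c) : DLE n p c := by
  have hfact : Fact p.Prime := ⟨hp⟩
  intro Q _ h1 h2 h3
  have hnil : Group.IsNilpotent Q := h2.isNilpotent
  have h4 := (law_iff c).1 ((class_le_iff c).1 (h Q h1 h2 h3))
  rw [eq_bot_iff, ← h4]
  exact Subgroup.derived_le_lower_central c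

/-- (4): if the class is bounded for one prime, then exactly the primes of `S(n)` have to be
excluded -/
theorem uniform (n : ℕ) (q : ℕ) (hq : q.Prime) (hU : ¬ Unbounded n q) :
    (S.{u} n).Finite ∧ (∀ π : Set ℕ, π ⊆ {p | p.Prime} → S.{u} n ⊆ π →
      ∃ d : ℕ, ∀ (G : Type u) [Group G], IsEngel n G → LocNil G → NoOrder π G →
        derivedSeries G d = ⊥) := by
  classical
  obtain ⟨c₀, hc₀⟩ := bound_of_not_unbounded hq hU
  have hfin := almost_all n c₀ q hq hc₀
  obtain ⟨E, hEdef⟩ : ∃ E : Set ℕ, E = {p : ℕ | p.Prime ∧ ∃ (Q : Type) (_ : Group Q), Finite Q ∧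
    IsPGroup p Q ∧ IsEngel n Q ∧ ∃ f : ℕ → Q, IC c₀ f ≠ 1} := ⟨_, rfl⟩
  rw [← hEdef] at hfin
  have hout : ∀ r : ℕ, r.Prime → r ∉ E → DLE n r c₀ := by
    intro r hr hrE
    apply DLE_of_ClassLE hr
    by_contra hcon
    apply hrE
    rw [hEdef]
    exact ⟨hr, exists_of_not_classLE hr hcon⟩
  have hSE : S.{u} n ⊆ E := by
    intro p hp
    by_contra hpE
    exact (mem_S_iff n p hp.1).1 hp c₀ (hout p hp.1 hpE)
  have hSfin : (S.{u} n).Finite := hfin.subset hSE
  refine ⟨hSfin, ?_⟩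
  have hb : ∀ r : ℕ, ∃ d : ℕ, r.Prime → r ∉ S.{u} n → DLE n r d := by
    intro r
    by_cases hr : r.Prime ∧ r ∉ S.{u} n
    · obtain ⟨d, hd⟩ := exists_DLE hr.1 hr.2
      exact ⟨d, fun _ _ => hd⟩
    · exact ⟨0, fun h1 h2 => absurd ⟨h1, h2⟩ hr⟩
  choose b hb using hb
  have hall : ∀ r : ℕ, r.Prime → r ∉ S.{u} n → DLE n r (max c₀ (hfin.toFinset.sup b)) := by
    intro r hr hrS
    by_cases hrE : r ∈ E
    · exact DLE_mono ((Finset.le_sup (hfin.mem_toFinset.2 hrE)).trans (le_max_right _ _))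
        (hb r hr hrS)
    · exact DLE_mono (le_max_left _ _) (hout r hr hrE)
  intro π hπ hSπ
  refine ⟨max c₀ (hfin.toFinset.sup b), fun G _ hE hL hN => ?_⟩
  obtain ⟨q', hq', hq'S⟩ := (Nat.infinite_setOfPred_prime.sdiff hSfin).nonempty
  refine der_le_of_DLE n _ (S.{u} n) (fun p hp => hp.1) q' hq' hq'S hall G hE hL ?_
  intro p hp
  exact hN p (hSπ hp)

theorem S_mono (n : ℕ) : S.{u} n ⊆ S.{u} (n + 1) := by
  rintro p ⟨hp, G, _, hG, hE, hL, hn⟩
  refine ⟨hp, G, inferInstance, hG, ?_, hL, hn⟩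
  intro x y
  change cm (eng n x y) y = 1
  rw [hE x y]
  simp [cm]

end Pool.Agent.H402.ES
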