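import Mathlib

set_option autoImplicit false

namespace Pool.Agent.H402.Plank

open Finset

/-- Bang's sign lemma for a symmetric matrix. -/
theorem bang_lemma {n : ℕ} (A : Fin n → Fin n → ℝ) (hA : ∀ i j, A i j = A j i)
    (g : Fin n → ℝ) :
    ∃ s : Fin n → ℝ, (∀ j, s j = 1 ∨ s j = -1) ∧
      ∀ j, A j j ≤ s j * (g j + ∑ i, s i * A i j) := by
  classical
  let sg : (Fin n → Bool) → Fin n → ℝ := fun β j => if β j then 1 else -1
  let Φ : (Fin n → ℝ) → ℝ := fun s => ∑ i, ∑ j, s i * s j * A i j + 2 * ∑ j, s j * g j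
  obtain ⟨β, -, hβ⟩ := Finset.exists_max_image (Finset.univ : Finset (Fin n → Bool))
    (fun β => Φ (sg β)) ⟨fun _ => true, Finset.mem_univ _⟩
  have hs : ∀ j, sg β j = 1 ∨ sg β j = -1 := by
    intro j
    by_cases h : β j
    · left; simp [sg, h]
    · right; simp [sg, h]
  refine ⟨sg β, hs, ?_⟩
  intro j
  set s := sg β with hsdef
  have hmax := hβ (Function.update β j (!β j)) (Finset.mem_univ _)
  have hflip : sg (Function.update β j (!β j)) = fun i => s i + (if i = j then (-2 * s j) else 0) := by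
    funext i
    by_cases hij : i = j
    · subst hij
      by_cases h : β i
      · simp [sg, hsdef, h]; norm_num
      · simp [sg, hsdef, h]; norm_num
    · simp [sg, hsdef, hij]
  rw [hflip] at hmax
  have hsq : s j * s j = 1 := by
    rcases hs j with h | h <;> rw [h] <;> norm_num
  have e1 : Φ (fun i => s i + (if i = j then (-2 * s j) else 0)) =
      Φ s + (-4 * s j * (∑ i, s i * A i j) + 4 * A j j - 4 * s j * g j) := by
    simp only [Φ]
    have h1 : ∑ i, ∑ k, (s i + (if i = j then (-2 * s j) else 0)) *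
        (s k + (if k = j then (-2 * s j) else 0)) * A i k =
        ∑ i, ∑ k, s i * s k * A i k + (-2 * s j) * (∑ i, s i * A i j)
        + (-2 * s j) * (∑ k, s k * A j k) + (-2 * s j) * (-2 * s j) * A j j := by
      have : ∀ i k, (s i + (if i = j then (-2 * s j) else 0)) *
        (s k + (if k = j then (-2 * s j) else 0)) * A i k =
        s i * s k * A i k + (if k = j then s i * (-2 * s j) * A i k else 0)
        + (if i = j then (-2 * s j) * s k * A i k else 0)
        + (if i = j then (if k = j then (-2 * s j) * (-2 * s j) * A i k else 0) else 0) := by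
        intro i k
        split_ifs <;> ring
      simp only [this, Finset.sum_add_distrib, Finset.sum_ite_eq', Finset.mem_univ, if_true]
      simp only [Finset.mul_sum]
      have h2 : ∑ x, ∑ x_1, (if x = j then (-2 * s j) * s x_1 * A x x_1 else 0)
          = ∑ k, -2 * s j * (s k * A j k) := by
        rw [Finset.sum_comm]
        refine Finset.sum_congr rfl ?_
        intro k _
        rw [Finset.sum_ite_eq' Finset.univ j (fun x => -2 * s j * s k * A x k)]
        simp; ring
      have h3 : ∑ x, ∑ x_1, (if x = j then (if x_1 = j then (-2 * s j) * (-2 * s j) * A x x_1 else 0) else 0)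
          = (-2 * s j) * (-2 * s j) * A j j := by
        rw [Finset.sum_comm]
        have : ∀ k, ∑ x, (if x = j then (if k = j then (-2 * s j) * (-2 * s j) * A x k else 0) else 0)
            = (if k = j then (-2 * s j) * (-2 * s j) * A j k else 0) := by
          intro k
          rw [Finset.sum_ite_eq' Finset.univ j (fun x => if k = j then (-2 * s j) * (-2 * s j) * A x k else 0)]
          simp
        simp only [this]
        rw [Finset.sum_ite_eq' Finset.univ j (fun k => (-2 * s j) * (-2 * s j) * A j k)]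
        simp
      rw [h2, h3]
      congr 1
      congr 1
      congr 1
      refine Finset.sum_congr rfl ?_
      intro i _; ring
    have h4 : ∑ k, s k * A j k = ∑ i, s i * A i j := by
      refine Finset.sum_congr rfl ?_
      intro i _; rw [hA j i]
    have h5 : ∑ k, (s k + (if k = j then (-2 * s j) else 0)) * g k
        = ∑ k, s k * g k + (-2 * s j) * g j := by
      have : ∀ k, (s k + (if k = j then (-2 * s j) else 0)) * g k
          = s k * g k + (if k = j then (-2 * s j) * g k else 0) := by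
        intro k; split_ifs <;> ring
      simp only [this, Finset.sum_add_distrib, Finset.sum_ite_eq', Finset.mem_univ, if_true]
    rw [h1, h4, h5]
    linear_combination (4 * A j j) * hsq
  rw [e1] at hmax
  nlinarith [hmax]


/-- The uncovered point: weights on `V` with every functional two-valued (or equal to its mean). -/
theorem exists_point {E : Type*} [AddCommGroup E] [Module ℝ E] {n : ℕ}
    (V : Finset E) (w : E → ℝ) (hw : ∀ v ∈ V, 0 < w v) (hsum : ∑ v ∈ V, w v = 1)
    (φ : Fin n → E →ₗ[ℝ] ℝ) (m M : Fin n → ℝ)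
    (hrange : ∀ i, ∀ v ∈ V, m i ≤ φ i v ∧ φ i v ≤ M i)
    (hlev : ∀ i, ∀ v ∈ V, φ i v = M i ∨ φ i v = m i ∨ φ i v = ∑ x ∈ V, w x * φ i x)
    (hne : ∀ i, ∃ v ∈ V, φ i v ≠ ∑ x ∈ V, w x * φ i x)
    (c h : Fin n → ℝ) (hh : ∀ i, 0 < h i) (hhs : ∑ i, h i = 1) :
    ∃ x ∈ convexHull ℝ (V : Set E), ∀ j, h j * (M j - m j) / 2 ≤ |φ j x - c j| := by
  classical
  let μ : Fin n → ℝ := fun i => ∑ x ∈ V, w x * φ i x
  let f : Fin n → E → ℝ := fun i v => φ i v - μ i
  let Ab : Fin n → ℝ := fun i => ∑ v ∈ V, w v * |f i v|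
  let C : Fin n → Fin n → ℝ := fun i j => ∑ v ∈ V, w v * (f i v * f j v)
  have hf0 : ∀ i, ∑ v ∈ V, w v * f i v = 0 := by
    intro i
    have : ∀ v ∈ V, w v * f i v = w v * φ i v - μ i * w v := by
      intro v _; simp only [f]; ring
    rw [Finset.sum_congr rfl this, Finset.sum_sub_distrib, ← Finset.mul_sum, hsum]
    simp [μ]
  have hAb : ∀ i, 0 < Ab i := by
    intro i
    obtain ⟨v, hv, hvne⟩ := hne i
    refine Finset.sum_pos' (fun x hx => mul_nonneg (hw x hx).le (abs_nonneg _)) ⟨v, hv, ?_⟩
    exact mul_pos (hw v hv) (abs_pos.mpr (sub_ne_zero.mpr hvne))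
  -- key identity: 2 Var = W * Ab
  have hkey : ∀ i, 2 * C i i = (M i - m i) * Ab i := by
    intro i
    have hμ1 : m i ≤ μ i := by
      have : ∑ v ∈ V, w v * m i ≤ ∑ v ∈ V, w v * φ i v :=
        Finset.sum_le_sum (fun v hv => mul_le_mul_of_nonneg_left (hrange i v hv).1 (hw v hv).le)
      rw [← Finset.sum_mul, hsum, one_mul] at this
      exact this
    have hμ2 : μ i ≤ M i := by
      have : ∑ v ∈ V, w v * φ i v ≤ ∑ v ∈ V, w v * M i :=
        Finset.sum_le_sum (fun v hv => mul_le_mul_of_nonneg_left (hrange i v hv).2 (hw v hv).le)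
      rw [← Finset.sum_mul, hsum, one_mul] at this
      exact this
    have hpt : ∀ v ∈ V, w v * (2 * (f i v * f i v)) =
        w v * ((M i - m i) * |f i v|) + (M i + m i - 2 * μ i) * (w v * f i v) := by
      intro v hv
      rcases hlev i v hv with h1 | h1 | h1
      · have : f i v = M i - μ i := by simp only [f]; rw [h1]
        rw [this, abs_of_nonneg (by linarith)]
        ring
      · have : f i v = m i - μ i := by simp only [f]; rw [h1]
        rw [this, abs_of_nonpos (by linarith)]
        ring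
      · have : f i v = 0 := by simp only [f]; rw [h1]; simp [μ]
        rw [this]; simp
    have e1 : 2 * C i i = ∑ v ∈ V, w v * (2 * (f i v * f i v)) := by
      simp only [C, Finset.mul_sum]
      refine Finset.sum_congr rfl ?_
      intro v _; ring
    have e2 : (M i - m i) * Ab i = ∑ v ∈ V, w v * ((M i - m i) * |f i v|) := by
      simp only [Ab, Finset.mul_sum]
      refine Finset.sum_congr rfl ?_
      intro v _; ring
    rw [e1, e2, Finset.sum_congr rfl hpt, Finset.sum_add_distrib, ← Finset.mul_sum, hf0 i]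
    ring
  let ρ : Fin n → ℝ := fun i => h i / Ab i
  have hρ : ∀ i, 0 < ρ i := fun i => div_pos (hh i) (hAb i)
  have hρA : ∀ i, ρ i * Ab i = h i := fun i => div_mul_cancel₀ _ (hAb i).ne'
  -- constant part of the value of the j-th functional
  let K : Fin n → ℝ := fun j => ∑ v ∈ V, w v * (∑ i, ρ i * |f i v|) * φ j v
  obtain ⟨s, hs, hbang⟩ := bang_lemma (fun i j => ρ i * ρ j * C i j)
    (by intro i j; simp only [C]; rw [mul_comm (ρ i) (ρ j)]; congr 1
        exact Finset.sum_congr rfl (fun v _ => by ring))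
    (fun j => ρ j * (K j - c j))
  let ζ : E → ℝ := fun v => ∑ i, ρ i * (|f i v| + s i * f i v)
  have hζ : ∀ v, 0 ≤ ζ v := by
    intro v
    refine Finset.sum_nonneg (fun i _ => mul_nonneg (hρ i).le ?_)
    rcases hs i with h1 | h1
    · rw [h1]; nlinarith [neg_abs_le (f i v)]
    · rw [h1]; nlinarith [le_abs_self (f i v)]
  have hζs : ∑ v ∈ V, w v * ζ v = 1 := by
    have : ∑ v ∈ V, w v * ζ v = ∑ i, (ρ i * Ab i + ρ i * s i * ∑ v ∈ V, w v * f i v) := by
      simp only [ζ, Ab, Finset.mul_sum]
      rw [Finset.sum_comm]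
      refine Finset.sum_congr rfl ?_
      intro i _
      rw [← Finset.sum_add_distrib]
      refine Finset.sum_congr rfl ?_
      intro v _; ring
    rw [this]
    simp only [hf0, mul_zero, add_zero, hρA]
    exact hhs
  refine ⟨∑ v ∈ V, (w v * ζ v) • v, ?_, ?_⟩
  · have hmem : ∀ v ∈ V, v ∈ convexHull ℝ (V : Set E) :=
      fun v hv => subset_convexHull ℝ _ (by exact_mod_cast hv)
    exact (convex_convexHull ℝ (V : Set E)).sum_mem
      (fun v hv => mul_nonneg (hw v hv).le (hζ v)) hζs hmem
  · intro j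
    have hval : φ j (∑ v ∈ V, (w v * ζ v) • v) = K j + ∑ i, s i * (ρ i * C i j) := by
      rw [map_sum]
      have e1 : ∀ v ∈ V, φ j ((w v * ζ v) • v) =
          w v * (∑ i, ρ i * |f i v|) * φ j v + ∑ i, s i * (ρ i * (w v * (f i v * φ j v))) := by
        intro v _
        rw [map_smul, smul_eq_mul]
        have : ζ v = ∑ i, ρ i * |f i v| + ∑ i, ρ i * (s i * f i v) := by
          simp only [ζ, mul_add, Finset.sum_add_distrib]
        rw [this, mul_add, add_mul]
        congr 1
        rw [Finset.mul_sum, Finset.sum_mul]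
        refine Finset.sum_congr rfl ?_
        intro i _; ring
      rw [Finset.sum_congr rfl e1, Finset.sum_add_distrib]
      congr 1
      rw [Finset.sum_comm]
      refine Finset.sum_congr rfl ?_
      intro i _
      rw [← Finset.mul_sum, ← Finset.mul_sum]
      congr 2
      -- sum w f_i φ_j = C i j since f_i has mean zero
      have : ∀ v ∈ V, w v * (f i v * φ j v) = w v * (f i v * f j v) + μ j * (w v * f i v) := by
        intro v _; simp only [f]; ring
      rw [Finset.sum_congr rfl this, Finset.sum_add_distrib, ← Finset.mul_sum, hf0 i]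
      simp [C]
    have hb := hbang j
    have hb2 : ρ j * C j j ≤ s j * (K j - c j + ∑ i, s i * (ρ i * C i j)) := by
      have e : s j * (ρ j * (K j - c j) + ∑ i, s i * (ρ i * ρ j * C i j)) =
          ρ j * (s j * (K j - c j + ∑ i, s i * (ρ i * C i j))) := by
        have : ∑ i, s i * (ρ i * ρ j * C i j) = ρ j * ∑ i, s i * (ρ i * C i j) := by
          rw [Finset.mul_sum]
          exact Finset.sum_congr rfl (fun i _ => by ring)
        rw [this]; ring
      rw [e] at hb
      have hb' : ρ j * (ρ j * C j j) ≤ ρ j * (s j * (K j - c j + ∑ i, s i * (ρ i * C i j))) := by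
        calc ρ j * (ρ j * C j j) = ρ j * ρ j * C j j := by ring
          _ ≤ _ := hb
      exact le_of_mul_le_mul_left hb' (hρ j)
    have e3 : ρ j * C j j = h j * (M j - m j) / 2 := by
      have : ρ j * (2 * C j j) = h j * (M j - m j) := by
        rw [hkey j]
        calc ρ j * ((M j - m j) * Ab j) = (M j - m j) * (ρ j * Ab j) := by ring
          _ = _ := by rw [hρA j]; ring
      linarith
    rw [hval, ← e3]
    have hx : K j + ∑ i, s i * (ρ i * C i j) - c j = K j - c j + ∑ i, s i * (ρ i * C i j) := by ring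
    rw [hx]
    refine hb2.trans ?_
    rcases hs j with h1 | h1
    · rw [h1, one_mul]; exact le_abs_self _
    · rw [h1]
      have := neg_abs_le (K j - c j + ∑ i, s i * (ρ i * C i j))
      linarith


/-- Affine plank inequality for two-level families of directions. -/
theorem two_level :
    ∀ (d n : ℕ) (C : Set (EuclideanSpace ℝ (Fin d))),
      IsCompact C → Convex ℝ C → (interior C).Nonempty →
      ∀ (V : Finset (EuclideanSpace ℝ (Fin d))) (w : EuclideanSpace ℝ (Fin d) → ℝ),
        (V : Set (EuclideanSpace ℝ (Fin d))) ⊆ C → (∀ v ∈ V, 0 < w v) → ∑ v ∈ V, w v = 1 →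
      ∀ (u : Fin n → EuclideanSpace ℝ (Fin d)) (a b : Fin n → ℝ),
        (∀ i, u i ≠ 0) → (∀ i, a i < b i) →
        (∀ i, ∀ v ∈ V,
          inner ℝ (u i) v = sSup ((fun x => inner ℝ (u i) x) '' C) ∨
          inner ℝ (u i) v = sInf ((fun x => inner ℝ (u i) x) '' C) ∨
          inner ℝ (u i) v = ∑ x ∈ V, w x * inner ℝ (u i) x) →
        (∀ i, ∃ v ∈ V, inner ℝ (u i) v ≠ ∑ x ∈ V, w x * inner ℝ (u i) x) →
        C ⊆ ⋃ i, {x | a i ≤ inner ℝ (u i) x ∧ inner ℝ (u i) x ≤ b i} →
        1 ≤ ∑ i, (b i - a i) /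
          (sSup ((fun x => inner ℝ (u i) x) '' C) - sInf ((fun x => inner ℝ (u i) x) '' C)) := by
  intro d n C hcomp hconv hint V w hVC hw hsum u a b hu hab hlev hne hcov
  classical
  by_contra hlt
  push Not at hlt
  set M : Fin n → ℝ := fun i => sSup ((fun x => inner ℝ (u i) x) '' C) with hM
  set m : Fin n → ℝ := fun i => sInf ((fun x => inner ℝ (u i) x) '' C) with hm
  have hcont : ∀ i, Continuous (fun x : EuclideanSpace ℝ (Fin d) => (inner ℝ (u i) x : ℝ)) :=
    fun i => continuous_const.inner continuous_id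
  have hcompi : ∀ i, IsCompact ((fun x : EuclideanSpace ℝ (Fin d) => (inner ℝ (u i) x : ℝ)) '' C) :=
    fun i => hcomp.image (hcont i)
  have hrange : ∀ i, ∀ x ∈ C, m i ≤ inner ℝ (u i) x ∧ inner ℝ (u i) x ≤ M i := by
    intro i x hx
    exact ⟨csInf_le (hcompi i).bddBelow ⟨x, hx, rfl⟩, le_csSup (hcompi i).bddAbove ⟨x, hx, rfl⟩⟩
  have hne0 : V.Nonempty := by
    rcases V.eq_empty_or_nonempty with h | h
    · rw [h] at hsum; simp at hsum
    · exact h
  obtain ⟨v0, hv0⟩ := hne0
  have hn : 0 < n := by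
    rcases Nat.eq_zero_or_pos n with h | h
    · exfalso
      subst h
      have := hcov (hVC (by exact_mod_cast hv0))
      simp at this
    · exact h
  have hW : ∀ i, 0 < M i - m i := by
    intro i
    obtain ⟨v, hv, hvne⟩ := hne i
    by_contra hle
    have hMm : M i ≤ m i := by linarith [not_lt.mp hle]
    have hall : ∀ x ∈ V, (inner ℝ (u i) x : ℝ) = M i := by
      intro x hx
      have := hrange i x (hVC (by exact_mod_cast hx))
      linarith [this.1, this.2]
    apply hvne
    rw [hall v hv, Finset.sum_congr rfl (fun x hx => by rw [hall x hx]), ← Finset.sum_mul, hsum,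
      one_mul]
  set h0 : Fin n → ℝ := fun i => (b i - a i) / (M i - m i) with hh0
  have hh0pos : ∀ i, 0 < h0 i := fun i => div_pos (by linarith [hab i]) (hW i)
  have hnR : (0 : ℝ) < n := by exact_mod_cast hn
  set ε : ℝ := (1 - ∑ i, h0 i) / n with hε
  have hεpos : 0 < ε := div_pos (by linarith) hnR
  let φ : Fin n → EuclideanSpace ℝ (Fin d) →ₗ[ℝ] ℝ := fun i => (innerₛₗ ℝ (u i))
  have hφ : ∀ i x, φ i x = inner ℝ (u i) x := fun i x => rfl
  obtain ⟨x, hx, hxj⟩ := exists_point V w hw hsum φ m M
    (fun i v hv => hrange i v (hVC (by exact_mod_cast hv)))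
    (fun i v hv => hlev i v hv) (fun i => hne i)
    (fun i => (a i + b i) / 2) (fun i => h0 i + ε) (fun i => by linarith [hh0pos i])
    (by
      rw [Finset.sum_add_distrib, Finset.sum_const, Finset.card_univ, Fintype.card_fin,
        nsmul_eq_mul, hε]
      field_simp
      ring)
  have hxC : x ∈ C := (convexHull_min hVC hconv) hx
  obtain ⟨i, hi⟩ := Set.mem_iUnion.mp (hcov hxC)
  have h1 := hxj i
  have h2 : h0 i * (M i - m i) = b i - a i := div_mul_cancel₀ _ (hW i).ne'
  have h3 : |φ i x - (a i + b i) / 2| ≤ (b i - a i) / 2 := by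
    rw [abs_le, hφ]
    constructor <;> linarith [hi.1, hi.2]
  have h4 : 0 < ε * (M i - m i) := mul_pos hεpos (hW i)
  nlinarith [h1, h3, h2, h4]

/-- Sanity check: polytopes all of whose points of `V` lie on the two supporting hyperplanes. -/
theorem two_level_polytope (d n : ℕ) (V : Finset (EuclideanSpace ℝ (Fin d)))
    (hint : (interior (convexHull ℝ (V : Set (EuclideanSpace ℝ (Fin d))))).Nonempty)
    (u : Fin n → EuclideanSpace ℝ (Fin d)) (a b : Fin n → ℝ)
    (hu : ∀ i, u i ≠ 0) (hab : ∀ i, a i < b i)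
    (hlev : ∀ i, ∀ v ∈ V,
      inner ℝ (u i) v = sSup ((fun x => inner ℝ (u i) x) ''
        (convexHull ℝ (V : Set (EuclideanSpace ℝ (Fin d))))) ∨
      inner ℝ (u i) v = sInf ((fun x => inner ℝ (u i) x) ''
        (convexHull ℝ (V : Set (EuclideanSpace ℝ (Fin d))))))
    (hcov : convexHull ℝ (V : Set (EuclideanSpace ℝ (Fin d))) ⊆
      ⋃ i, {x | a i ≤ inner ℝ (u i) x ∧ inner ℝ (u i) x ≤ b i}) :
    1 ≤ ∑ i, (b i - a i) /
      (sSup ((fun x => inner ℝ (u i) x) '' (convexHull ℝ (V : Set (EuclideanSpace ℝ (Fin d)))))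
        - sInf ((fun x => inner ℝ (u i) x) ''
          (convexHull ℝ (V : Set (EuclideanSpace ℝ (Fin d)))))) := by
  classical
  have hVne : V.Nonempty := by
    rcases V.eq_empty_or_nonempty with h | h
    · rw [h] at hint; simp at hint
    · exact h
  have hcard : (0 : ℝ) < V.card := by exact_mod_cast hVne.card_pos
  refine two_level d n (convexHull ℝ (V : Set (EuclideanSpace ℝ (Fin d)))) ?_ (convex_convexHull ℝ _) hint V
    (fun _ => 1 / V.card) (subset_convexHull ℝ _) (fun _ _ => by positivity)
    (by rw [Finset.sum_const, nsmul_eq_mul]; field_simp) u a b hu hab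
    (fun i v hv => ?_) (fun i => ?_) hcov
  · exact V.finite_toSet.isCompact_convexHull (𝕜 := ℝ)
  · rcases hlev i v hv with h | h
    · exact Or.inl h
    · exact Or.inr (Or.inl h)
  · by_contra hall
    push Not at hall
    set μ : ℝ := ∑ x ∈ V, 1 / (V.card : ℝ) * inner ℝ (u i) x with hμ
    -- then the whole hull lies in a hyperplane
    have hsub : convexHull ℝ (V : Set (EuclideanSpace ℝ (Fin d))) ⊆
        {x | (inner ℝ (u i) x : ℝ) = μ} := by
      refine convexHull_min (fun v hv => hall v (by exact_mod_cast hv)) ?_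
      exact convex_hyperplane (innerₛₗ ℝ (u i) : EuclideanSpace ℝ (Fin d) →ₗ[ℝ] ℝ).isLinear μ
    obtain ⟨x, hx⟩ := hint
    rw [mem_interior_iff_mem_nhds, Metric.mem_nhds_iff] at hx
    obtain ⟨r, hr, hball⟩ := hx
    have hxm : (inner ℝ (u i) x : ℝ) = μ := hsub (hball (Metric.mem_ball_self hr))
    have hun : 0 < ‖u i‖ := norm_pos_iff.mpr (hu i)
    have hy : x + (r / (2 * ‖u i‖)) • u i ∈ Metric.ball x r := by
      rw [Metric.mem_ball, dist_eq_norm, add_sub_cancel_left, norm_smul, Real.norm_eq_abs,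
        abs_of_pos (by positivity)]
      have : r / (2 * ‖u i‖) * ‖u i‖ = r / 2 := by field_simp
      rw [this]; linarith
    have hym : (inner ℝ (u i) (x + (r / (2 * ‖u i‖)) • u i) : ℝ) = μ := hsub (hball hy)
    rw [inner_add_right, inner_smul_right, hxm, real_inner_self_eq_norm_sq (u i)] at hym
    have : 0 < r / (2 * ‖u i‖) * ‖u i‖ ^ 2 := by positivity
    linarith

end Pool.Agent.H402.Plank
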