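import Mathlib

set_option autoImplicit false

namespace Pool.Agent.H402.TreeTour

/-- A graph described by a parent function with decreasing rank is a tree. -/
theorem isTree_of_parent {V : Type} [Fintype V] (G : SimpleGraph V) (r : V)
    (par : V → V) (rk : V → ℕ) (h1 : ∀ v, v ≠ r → rk (par v) < rk v)
    (hadj : ∀ u v, G.Adj u v ↔ (u ≠ r ∧ v = par u) ∨ (v ≠ r ∧ u = par v)) : G.IsTree := by
  classical
  rw [SimpleGraph.isTree_iff_connected_and_card]
  constructor
  · rw [SimpleGraph.connected_iff_exists_forall_reachable]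
    refine ⟨r, ?_⟩
    have key : ∀ n : ℕ, ∀ w, rk w ≤ n → G.Reachable r w := by
      intro n
      induction n with
      | zero =>
        intro w hw
        by_cases hwr : w = r
        · subst hwr; exact SimpleGraph.Reachable.refl _
        · have := h1 w hwr; omega
      | succ n ih =>
        intro w hw
        by_cases hwr : w = r
        · subst hwr; exact SimpleGraph.Reachable.refl _
        · have h2 := h1 w hwr
          have h3 := ih (par w) (by omega)
          refine h3.trans (SimpleGraph.Adj.reachable ?_)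
          rw [hadj]; exact Or.inr ⟨hwr, rfl⟩
    exact fun w => key _ w le_rfl
  · let e : {v : V // v ≠ r} → G.edgeSet := fun v =>
      ⟨s(v.1, par v.1), by
        rw [SimpleGraph.mem_edgeSet, hadj]; exact Or.inl ⟨v.2, rfl⟩⟩
    have hinj : Function.Injective e := by
      intro v w hvw
      have h2 : s(v.1, par v.1) = s(w.1, par w.1) := congrArg Subtype.val hvw
      rw [Sym2.eq_iff] at h2
      rcases h2 with ⟨h, _⟩ | ⟨h, h'⟩
      · exact Subtype.ext h
      · exfalso
        have a1 := h1 v.1 v.2
        have a2 := h1 w.1 w.2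
        rw [h'] at a1; rw [← h] at a2; omega
    have hsurj : Function.Surjective e := by
      rintro ⟨x, hx⟩
      induction x using Sym2.ind with
      | _ u v =>
        rw [SimpleGraph.mem_edgeSet, hadj] at hx
        rcases hx with ⟨h, h'⟩ | ⟨h, h'⟩
        · refine ⟨⟨u, h⟩, ?_⟩
          apply Subtype.ext; simp only [e]; rw [h']
        · refine ⟨⟨v, h⟩, ?_⟩
          apply Subtype.ext; simp only [e]; rw [h', Sym2.eq_swap]
    have hc : Nat.card G.edgeSet = Nat.card {v : V // v ≠ r} :=
      (Nat.card_congr (Equiv.ofBijective e ⟨hinj, hsurj⟩)).symm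
    rw [hc, Nat.card_eq_fintype_card, Nat.card_eq_fintype_card, Fintype.card_subtype_compl,
      Fintype.card_subtype_eq]
    have : 0 < Fintype.card V := Fintype.card_pos_iff.mpr ⟨r⟩
    omega

/-- Arcs of the tournament: two circular tournaments on `2h-1` vertices with a transitive
tournament on `q` vertices between them. -/
def TR (h q a b : ℕ) : Prop :=
  (a < 2 * h - 1 ∧ 2 * h - 1 ≤ b) ∨ (a < 2 * h - 1 + q ∧ 2 * h - 1 + q ≤ b) ∨
  (a < 2 * h - 1 ∧ b < 2 * h - 1 ∧ ((a < b ∧ b < a + h) ∨ b + h ≤ a)) ∨
  (2 * h - 1 ≤ a ∧ a < 2 * h - 1 + q ∧ 2 * h - 1 ≤ b ∧ b < 2 * h - 1 + q ∧ a < b) ∨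
  (2 * h - 1 + q ≤ a ∧ 2 * h - 1 + q ≤ b ∧ ((a < b ∧ b < a + h) ∨ b + h ≤ a))

/-- Arcs of the tree: `h` in-leaves, a directed path with `q` arcs, `h` out-leaves. -/
def TT (h q a b : ℕ) : Prop :=
  (a < h ∧ b = h) ∨ (h ≤ a ∧ b = a + 1 ∧ b ≤ h + q) ∨ (a = h + q ∧ h + q < b)

theorem TR_total (h q a b : ℕ) (hh : 2 ≤ h)
    (hab : a ≠ b) : TR h q a b ∨ TR h q b a := by
  unfold TR; omega

theorem TR_asymm (h q a b : ℕ) (hh : 2 ≤ h)
    (hab : TR h q a b) : ¬ TR h q b a := by
  unfold TR at *; omega

theorem TT_asymm (h q a b : ℕ) (hab : TT h q a b) : ¬ TT h q b a := by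
  unfold TT at *; omega

/-- vertices of the first block have at most `h-1` in-neighbours -/
theorem in_block0 (h q b : ℕ) (hh : 2 ≤ h) (hb : b < 2 * h - 1) (S : Finset ℕ)
    (hS : ∀ a ∈ S, TR h q a b) : S.card ≤ h - 1 := by
  have hsub : S ⊆ Finset.Ico (b + 1 - h) b ∪ Finset.Ico (b + h) (2 * h - 1) := by
    intro a ha
    have := hS a ha
    rw [Finset.mem_union, Finset.mem_Ico, Finset.mem_Ico]
    unfold TR at this; omega
  refine (Finset.card_le_card hsub).trans ((Finset.card_union_le _ _).trans ?_)
  rw [Nat.card_Ico, Nat.card_Ico]; omega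

/-- vertices of the last block have at most `h-1` out-neighbours -/
theorem out_block2 (h q b : ℕ) (hh : 2 ≤ h) (hb : 2 * h - 1 + q ≤ b) (hb' : b < 4 * h - 2 + q)
    (S : Finset ℕ) (hS' : ∀ a ∈ S, a < 4 * h - 2 + q)
    (hS : ∀ a ∈ S, TR h q b a) : S.card ≤ h - 1 := by
  have hsub : S ⊆ Finset.Ico (b + 1) (min (b + h) (4 * h - 2 + q)) ∪
      Finset.Ico (2 * h - 1 + q) (b + 1 - h) := by
    intro a ha
    have h1 := hS a ha
    have h2 := hS' a ha
    rw [Finset.mem_union, Finset.mem_Ico, Finset.mem_Ico]
    unfold TR at h1; omega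
  refine (Finset.card_le_card hsub).trans ((Finset.card_union_le _ _).trans ?_)
  rw [Nat.card_Ico, Nat.card_Ico]; omega

theorem not_contained (h q N : ℕ) (hh : 2 ≤ h) (hN : N = 4 * h - 2 + q)
    (f : ℕ → ℕ) (hf : ∀ i, i ≤ 2 * h + q → f i < N)
    (hinj : ∀ i j, i ≤ 2 * h + q → j ≤ 2 * h + q → f i = f j → i = j)
    (harc : ∀ i j, i ≤ 2 * h + q → j ≤ 2 * h + q → TT h q i j → TR h q (f i) (f j)) : False := by
  subst hN
  have hx : 2 * h - 1 ≤ f h := by
    by_contra hcon
    have hcard := in_block0 h q (f h) hh (by omega) ((Finset.range h).image f) (by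
      intro a ha
      rw [Finset.mem_image] at ha
      obtain ⟨i, hi, rfl⟩ := ha
      rw [Finset.mem_range] at hi
      exact harc i h (by omega) (by omega) (Or.inl ⟨hi, rfl⟩))
    rw [Finset.card_image_of_injOn] at hcard
    · rw [Finset.card_range] at hcard; omega
    · intro i hi j hj hij
      have hi' := Finset.mem_range.mp (Finset.mem_coe.mp hi)
      have hj' := Finset.mem_range.mp (Finset.mem_coe.mp hj)
      exact hinj i j (by omega) (by omega) hij
  have hy : f (h + q) < 2 * h - 1 + q := by
    by_contra hcon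
    have hcard := out_block2 h q (f (h + q)) hh (by omega) (hf _ (by omega))
      ((Finset.Ico (h + q + 1) (2 * h + q + 1)).image f) (by
        intro a ha
        rw [Finset.mem_image] at ha
        obtain ⟨i, hi, rfl⟩ := ha
        rw [Finset.mem_Ico] at hi
        exact hf i (by omega)) (by
      intro a ha
      rw [Finset.mem_image] at ha
      obtain ⟨i, hi, rfl⟩ := ha
      rw [Finset.mem_Ico] at hi
      exact harc (h + q) i (by omega) (by omega) (Or.inr (Or.inr ⟨rfl, by omega⟩)))
    rw [Finset.card_image_of_injOn] at hcard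
    · rw [Nat.card_Ico] at hcard; omega
    · intro i hi j hj hij
      have hi' := Finset.mem_Ico.mp (Finset.mem_coe.mp hi)
      have hj' := Finset.mem_Ico.mp (Finset.mem_coe.mp hj)
      exact hinj i j (by omega) (by omega) hij
  have hlow : ∀ j, j ≤ q → 2 * h - 1 ≤ f (h + j) := by
    intro j
    induction j with
    | zero => intro _; exact hx
    | succ j ih =>
      intro hj
      have h1 := ih (by omega)
      have h2 := harc (h + j) (h + (j + 1)) (by omega) (by omega)
        (Or.inr (Or.inl ⟨by omega, by omega, by omega⟩))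
      unfold TR at h2; omega
  have hhigh : ∀ j, j ≤ q → f (h + (q - j)) < 2 * h - 1 + q := by
    intro j
    induction j with
    | zero => intro _; exact hy
    | succ j ih =>
      intro hj
      have h1 := ih (by omega)
      have h2 := harc (h + (q - (j + 1))) (h + (q - j)) (by omega) (by omega)
        (Or.inr (Or.inl ⟨by omega, by omega, by omega⟩))
      unfold TR at h2; omega
  have hcard : (Finset.range (q + 1)).card ≤ (Finset.Ico (2 * h - 1) (2 * h - 1 + q)).card := by
    apply Finset.card_le_card_of_injOn (fun j => f (h + j))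
    · intro j hj
      have hj' := Finset.mem_range.mp (Finset.mem_coe.mp hj)
      have h1 := hlow j (by omega)
      have h2 := hhigh (q - j) (by omega)
      rw [show q - (q - j) = j by omega] at h2
      exact Finset.mem_coe.mpr (Finset.mem_Ico.mpr ⟨h1, h2⟩)
    · intro i hi j hj hij
      have hi' := Finset.mem_range.mp (Finset.mem_coe.mp hi)
      have hj' := Finset.mem_range.mp (Finset.mem_coe.mp hj)
      have := hinj (h + i) (h + j) (by omega) (by omega) hij
      omega
  rw [Finset.card_range, Nat.card_Ico] at hcard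
  omega

theorem tree_isTree (h q k : ℕ) (hh : 2 ≤ h) (hk : k = 2 * h + q) :
    (SimpleGraph.fromRel (fun a b : Fin (k + 1) => TT h q a.1 b.1)).IsTree := by
  refine isTree_of_parent _ (⟨h, by omega⟩ : Fin (k + 1))
    (fun v => if v.1 < h then ⟨h, by omega⟩ else if v.1 ≤ h + q then ⟨v.1 - 1, by omega⟩
      else ⟨h + q, by omega⟩)
    (fun v => if v.1 < h then 3 * h + q + 1 else v.1) ?_ ?_
  · intro v hv
    have hv' : v.1 ≠ h := fun hc => hv (Fin.ext hc)
    have hvlt := v.2
    by_cases h1 : v.1 < h
    · simp only [if_pos h1, lt_irrefl, if_false]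
      omega
    · by_cases h2 : v.1 ≤ h + q
      · simp only [if_neg h1, if_pos h2]
        rw [if_neg (by omega)]
        omega
      · simp only [if_neg h1, if_neg h2]
        rw [if_neg (by omega)]
        omega
  · intro u v
    rw [SimpleGraph.fromRel_adj]
    have hu := u.2
    have hv := v.2
    simp only [ne_eq, Fin.ext_iff, TT]
    split_ifs <;> simp <;> omega

theorem tree_degree (h q k : ℕ) (hh : 2 ≤ h) (hq : 1 ≤ q) (hk : k = 2 * h + q) (v : Fin (k + 1)) :
    ((SimpleGraph.fromRel (fun a b : Fin (k + 1) => TT h q a.1 b.1)).neighborSet v).ncard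
      ≤ h + 1 := by
  rw [← Set.ncard_image_of_injective _ Fin.val_injective]
  have hsub : ∃ S : Finset ℕ, S.card ≤ h + 1 ∧
      (Fin.val '' ((SimpleGraph.fromRel (fun a b : Fin (k + 1) => TT h q a.1 b.1)).neighborSet v))
        ⊆ (S : Set ℕ) := by
    by_cases h1 : v.1 = h
    · refine ⟨Finset.range h ∪ {h + 1}, ?_, ?_⟩
      · refine (Finset.card_union_le _ _).trans ?_
        simp
      · rintro _ ⟨w, hw, rfl⟩
        rw [SimpleGraph.mem_neighborSet, SimpleGraph.fromRel_adj] at hw
        have hw' := hw.2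
        have hwlt := w.2
        rw [Finset.mem_coe, Finset.mem_union, Finset.mem_range, Finset.mem_singleton]
        simp only [TT] at hw'
        omega
    · by_cases h2 : v.1 = h + q
      · refine ⟨Finset.Ico (h + q + 1) (2 * h + q + 1) ∪ {h + q - 1}, ?_, ?_⟩
        · refine (Finset.card_union_le _ _).trans ?_
          rw [Nat.card_Ico, Finset.card_singleton]; omega
        · rintro _ ⟨w, hw, rfl⟩
          rw [SimpleGraph.mem_neighborSet, SimpleGraph.fromRel_adj] at hw
          have hw' := hw.2
          have hwlt := w.2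
          rw [Finset.mem_coe, Finset.mem_union, Finset.mem_Ico, Finset.mem_singleton]
          simp only [TT] at hw'
          omega
      · by_cases h3 : h < v.1 ∧ v.1 < h + q
        · refine ⟨{v.1 - 1, v.1 + 1}, ?_, ?_⟩
          · refine (Finset.card_le_two).trans (by omega)
          · rintro _ ⟨w, hw, rfl⟩
            rw [SimpleGraph.mem_neighborSet, SimpleGraph.fromRel_adj] at hw
            have hw' := hw.2
            have hwlt := w.2
            rw [Finset.mem_coe, Finset.mem_insert, Finset.mem_singleton]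
            simp only [TT] at hw'
            omega
        · refine ⟨{h, h + q}, ?_, ?_⟩
          · refine (Finset.card_le_two).trans (by omega)
          · rintro _ ⟨w, hw, rfl⟩
            rw [SimpleGraph.mem_neighborSet, SimpleGraph.fromRel_adj] at hw
            have hw' := hw.2
            have hwlt := w.2
            rw [Finset.mem_coe, Finset.mem_insert, Finset.mem_singleton]
            simp only [TT] at hw'
            omega
  obtain ⟨S, hS, hsub⟩ := hsub
  refine (Set.ncard_le_ncard hsub (Finset.finite_toSet S)).trans ?_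
  rw [Set.ncard_coe_finset]
  exact hS

/-- For every `Δ ≥ 3` and every `k ≥ 2Δ - 1` there are a tournament on `k + 2Δ - 4` vertices and
an oriented tree with `k` edges and maximum degree at most `Δ` which it does not contain. -/
theorem disproof : ∀ Δ : ℕ, 3 ≤ Δ → ∀ k : ℕ, 2 * Δ - 1 ≤ k →
    ∃ R : Fin (k + 2 * Δ - 4) → Fin (k + 2 * Δ - 4) → Prop,
      (∀ a b, a ≠ b → R a b ∨ R b a) ∧ (∀ a b, R a b → ¬ R b a) ∧
      ∃ T : Fin (k + 1) → Fin (k + 1) → Prop,
        (∀ a b, T a b → ¬ T b a) ∧
        (SimpleGraph.fromRel T).IsTree ∧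
        (∀ v, ((SimpleGraph.fromRel T).neighborSet v).ncard ≤ Δ) ∧
        ¬ ∃ f : Fin (k + 1) → Fin (k + 2 * Δ - 4), Function.Injective f ∧
          ∀ a b, T a b → R (f a) (f b) := by
  intro Δ hΔ k hk
  obtain ⟨h, rfl⟩ : ∃ h, Δ = h + 1 := ⟨Δ - 1, by omega⟩
  obtain ⟨q, rfl⟩ : ∃ q, k = 2 * h + q := ⟨k - 2 * h, by omega⟩
  have hN : 2 * h + q + 2 * (h + 1) - 4 = 4 * h - 2 + q := by omega
  refine ⟨fun a b => TR h q a.1 b.1, ?_, ?_, fun a b => TT h q a.1 b.1, ?_, ?_, ?_, ?_⟩
  · intro a b hab
    exact TR_total h q a.1 b.1 (by omega) (fun hc => hab (Fin.ext hc))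
  · intro a b hab
    exact TR_asymm h q a.1 b.1 (by omega) hab
  · intro a b hab
    exact TT_asymm h q a.1 b.1 hab
  · exact tree_isTree h q _ (by omega) rfl
  · exact tree_degree h q _ (by omega) (by omega) rfl
  · rintro ⟨f, hf, harc⟩
    refine not_contained h q (2 * h + q + 2 * (h + 1) - 4) (by omega) hN
      (fun i => if hi : i < 2 * h + q + 1 then (f ⟨i, hi⟩).1 else 0) ?_ ?_ ?_
    · intro i hi
      rw [dif_pos (by omega)]
      exact (f _).2
    · intro i j hi hj hij
      simp only [dif_pos (show i < 2 * h + q + 1 by omega),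
        dif_pos (show j < 2 * h + q + 1 by omega)] at hij
      have := hf (Fin.ext hij)
      simpa using this
    · intro i j hi hj hij
      simp only [dif_pos (show i < 2 * h + q + 1 by omega),
        dif_pos (show j < 2 * h + q + 1 by omega)]
      exact harc _ _ hij

end Pool.Agent.H402.TreeTour
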