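import Mathlib

set_option autoImplicit false
open Finset

namespace Pool.Agent.H402.VMTL

theorem deg_sub {V : Type} [Fintype V] [DecidableEq V] (G : SimpleGraph V) [DecidableRel G.Adj]
    (v : V) :
    (univ.filter (fun e : G.edgeSet => v ∈ (e : Sym2 V))).card = G.degree v := by
  rw [← G.card_incidenceFinset_eq_degree]
  refine Finset.card_bij (fun e _ => (e : Sym2 V)) ?_ ?_ ?_
  · intro e he
    rw [SimpleGraph.mem_incidenceFinset]
    exact ⟨e.2, (Finset.mem_filter.1 he).2⟩
  · intro a _ b _ h
    exact Subtype.ext h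
  · intro b hb
    rw [SimpleGraph.mem_incidenceFinset] at hb
    exact ⟨⟨b, hb.1⟩, by simpa using hb.2, rfl⟩

theorem two_sub {V : Type} [Fintype V] [DecidableEq V] (G : SimpleGraph V)
    (e : G.edgeSet) : (univ.filter (fun v => v ∈ (e : Sym2 V))).card = 2 := by
  have h := Sym2.card_toFinset_of_not_isDiag (e : Sym2 V) (G.not_isDiag_of_mem_edgeSet e.2)
  rw [← h]
  congr 1
  ext v
  simp

/-- double counting of incidences. -/
theorem dbl {V : Type} [Fintype V] [DecidableEq V] (G : SimpleGraph V) [DecidableRel G.Adj]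
    (s : Finset G.edgeSet) :
    ∑ v : V, (s.filter (fun e : G.edgeSet => v ∈ (e : Sym2 V))).card = 2 * s.card := by
  have h1 : ∀ v : V, (s.filter (fun e : G.edgeSet => v ∈ (e : Sym2 V))).card =
      ∑ e ∈ s, if v ∈ (e : Sym2 V) then 1 else 0 := fun v => Finset.card_filter _ _
  simp_rw [h1]
  rw [Finset.sum_comm]
  have h2 : ∀ e ∈ s, (∑ v : V, if v ∈ (e : Sym2 V) then 1 else 0) = 2 := by
    intro e _
    rw [← Finset.card_filter]
    exact two_sub G e
  rw [Finset.sum_congr rfl h2, Finset.sum_const, smul_eq_mul, mul_comm]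

/-- An Eulerian orientation of a `2r`-regular graph, as a choice of tails. -/
theorem exists_tail {V : Type} [Fintype V] [DecidableEq V] (G : SimpleGraph V)
    [DecidableRel G.Adj] (r : ℕ) (hG : ∀ v, G.degree v = 2 * r) :
    ∃ f : G.edgeSet → V × Fin r, Function.Bijective f ∧
      ∀ e : G.edgeSet, (f e).1 ∈ (e : Sym2 V) := by
  classical
  let t : G.edgeSet → Finset (V × Fin r) :=
    fun e => (univ.filter (fun v => v ∈ (e : Sym2 V))) ×ˢ univ
  have hall : ∀ s : Finset G.edgeSet, s.card ≤ (s.biUnion t).card := by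
    intro s
    let VS : Finset V := univ.filter (fun v => ∃ e ∈ s, v ∈ (e : Sym2 V))
    have h1 : s.biUnion t = VS ×ˢ univ := by
      ext ⟨v, i⟩
      simp [t, VS]
    have h2 : ∑ v : V, (s.filter (fun e : G.edgeSet => v ∈ (e : Sym2 V))).card ≤
        ∑ v : V, if v ∈ VS then 2 * r else 0 := by
      apply Finset.sum_le_sum
      intro v _
      split_ifs with hv
      · rw [← hG v, ← deg_sub]
        exact Finset.card_le_card (Finset.filter_subset_filter _ (Finset.subset_univ _))
      · rw [Nat.le_zero, Finset.card_eq_zero, Finset.filter_eq_empty_iff]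
        intro e he hve
        exact hv (Finset.mem_filter.2 ⟨Finset.mem_univ _, e, he, hve⟩)
    rw [dbl, ← Finset.sum_filter, Finset.sum_const, smul_eq_mul] at h2
    have h3 : (univ.filter (fun v => v ∈ VS)) = VS := by simp
    rw [h3] at h2
    rw [h1, Finset.card_product, Finset.card_univ, Fintype.card_fin]
    have : 2 * s.card ≤ 2 * (VS.card * r) := by
      calc 2 * s.card ≤ VS.card * (2 * r) := h2
        _ = 2 * (VS.card * r) := by ring
    omega
  obtain ⟨f, hf, hft⟩ := (Finset.all_card_le_biUnion_card_iff_exists_injective t).1 hall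
  refine ⟨f, ?_, ?_⟩
  · rw [Fintype.bijective_iff_injective_and_card]
    refine ⟨hf, ?_⟩
    have h := dbl G univ
    have h4 : ∑ v : V, ((univ : Finset G.edgeSet).filter
        (fun e : G.edgeSet => v ∈ (e : Sym2 V))).card = ∑ _v : V, 2 * r := by
      apply Finset.sum_congr rfl
      intro v _
      rw [deg_sub, hG]
    rw [h4, Finset.sum_const, smul_eq_mul, Finset.card_univ, Finset.card_univ] at h
    rw [Fintype.card_prod, Fintype.card_fin]
    have h5 : Fintype.card V * (2 * r) = 2 * (Fintype.card V * r) := by ring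
    omega
  · intro e
    have := hft e
    simp only [t, Finset.mem_product, Finset.mem_filter, Finset.mem_univ, true_and,
      and_true] at this
    exact this

/-- **Petersen's 2-factor theorem**: a `2r`-regular graph with `r ≥ 1` has a 2-factor. -/
theorem petersen {V : Type} [Fintype V] [DecidableEq V] (G : SimpleGraph V)
    [DecidableRel G.Adj] (r : ℕ) (hr : 0 < r) (hG : ∀ v, G.degree v = 2 * r) :
    ∃ σ : Equiv.Perm V, (∀ v, G.Adj v (σ v)) ∧ ∀ v, σ (σ v) ≠ v := by
  classical
  obtain ⟨f, hf, hfm⟩ := exists_tail G r hG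
  let T : V → Finset V :=
    fun v => univ.filter (fun w => ∃ e : G.edgeSet, (f e).1 = v ∧ (e : Sym2 V) = s(v, w))
  have htail : ∀ w : V, (univ.filter (fun e : G.edgeSet => (f e).1 = w)).card = r := by
    intro w
    have h1 : (univ.filter (fun e : G.edgeSet => (f e).1 = w)).image f =
        ({w} : Finset V) ×ˢ (univ : Finset (Fin r)) := by
      ext ⟨v, i⟩
      simp only [Finset.mem_image, Finset.mem_filter, Finset.mem_univ, true_and,
        Finset.mem_product, Finset.mem_singleton, and_true]
      constructor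
      · rintro ⟨e, he, h⟩
        rw [h] at he
        exact he
      · intro h
        obtain ⟨e, he⟩ := hf.2 (v, i)
        exact ⟨e, by rw [he]; exact h, he⟩
    rw [← Finset.card_image_of_injective _ hf.1, h1, Finset.card_product, Finset.card_singleton,
      Finset.card_univ, Fintype.card_fin, one_mul]
  have hhead : ∀ w : V,
      (univ.filter (fun e : G.edgeSet => w ∈ (e : Sym2 V) ∧ (f e).1 ≠ w)).card = r := by
    intro w
    have h1 := Finset.card_filter_add_card_filter_not (s := univ.filter
      (fun e : G.edgeSet => w ∈ (e : Sym2 V))) (fun e => (f e).1 = w)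
    rw [Finset.filter_filter, Finset.filter_filter, deg_sub, hG] at h1
    have h2 : univ.filter (fun e : G.edgeSet => w ∈ (e : Sym2 V) ∧ (f e).1 = w) =
        univ.filter (fun e : G.edgeSet => (f e).1 = w) := by
      apply Finset.filter_congr
      intro e _
      constructor
      · exact fun h => h.2
      · intro h
        refine ⟨?_, h⟩
        rw [← h]
        exact hfm e
    rw [h2, htail] at h1
    change r + (univ.filter (fun e : G.edgeSet => w ∈ (e : Sym2 V) ∧ (f e).1 ≠ w)).card
      = 2 * r at h1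
    omega
  have hall : ∀ S : Finset V, S.card ≤ (S.biUnion T).card := by
    intro S
    have h1 : (univ.filter (fun e : G.edgeSet => (f e).1 ∈ S)).card = S.card * r := by
      have h2 : (univ.filter (fun e : G.edgeSet => (f e).1 ∈ S)).image f =
          S ×ˢ (univ : Finset (Fin r)) := by
        ext ⟨v, i⟩
        simp only [Finset.mem_image, Finset.mem_filter, Finset.mem_univ, true_and,
          Finset.mem_product, and_true]
        constructor
        · rintro ⟨e, he, h⟩
          rw [h] at he
          exact he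
        · intro h
          obtain ⟨e, he⟩ := hf.2 (v, i)
          exact ⟨e, by rw [he]; exact h, he⟩
      rw [← Finset.card_image_of_injective _ hf.1, h2, Finset.card_product,
        Finset.card_univ, Fintype.card_fin]
    have h3 : univ.filter (fun e : G.edgeSet => (f e).1 ∈ S) ⊆
        (S.biUnion T).biUnion (fun w =>
          univ.filter (fun e : G.edgeSet => w ∈ (e : Sym2 V) ∧ (f e).1 ≠ w)) := by
      intro e he
      have he1 : (f e).1 ∈ S := (Finset.mem_filter.1 he).2
      obtain ⟨w, hw⟩ := Sym2.mem_iff_exists.1 (hfm e)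
      have hadj : G.Adj (f e).1 w := by
        have := e.2
        rw [hw, SimpleGraph.mem_edgeSet] at this
        exact this
      rw [Finset.mem_biUnion]
      refine ⟨w, ?_, ?_⟩
      · rw [Finset.mem_biUnion]
        exact ⟨_, he1, Finset.mem_filter.2 ⟨Finset.mem_univ _, e, rfl, hw⟩⟩
      · refine Finset.mem_filter.2 ⟨Finset.mem_univ _, ?_, hadj.ne⟩
        rw [hw]
        exact Sym2.mem_mk_right _ _
    have h4 := (Finset.card_le_card h3).trans
      (Finset.card_biUnion_le_card_mul _ _ r (fun w _ => (hhead w).le))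
    rw [h1] at h4
    exact Nat.le_of_mul_le_mul_right h4 hr
  obtain ⟨σ, hσ, hσt⟩ := (Finset.all_card_le_biUnion_card_iff_exists_injective T).1 hall
  have hT : ∀ v, ∃ e : G.edgeSet, (f e).1 = v ∧ (e : Sym2 V) = s(v, σ v) := by
    intro v
    exact (Finset.mem_filter.1 (hσt v)).2
  have hadj : ∀ v, G.Adj v (σ v) := by
    intro v
    obtain ⟨e, _, he⟩ := hT v
    have := e.2
    rw [he, SimpleGraph.mem_edgeSet] at this
    exact this
  refine ⟨Equiv.ofBijective σ (Finite.injective_iff_bijective.1 hσ), hadj, ?_⟩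
  intro v h
  change σ (σ v) = v at h
  obtain ⟨e1, h1, h1'⟩ := hT v
  obtain ⟨e2, h2, h2'⟩ := hT (σ v)
  rw [h, Sym2.eq_swap] at h2'
  have h3 : e1 = e2 := Subtype.ext (h1'.trans h2'.symm)
  rw [h3, h2] at h1
  exact (hadj v).ne h1.symm

/-- a strong vertex magic total labelling, `E` the number of edges. -/
def SL {V : Type} [Fintype V] (G : SimpleGraph V) (E : ℕ) : Prop :=
  open Classical in
  ∃ (h : V → ℕ) (g : Sym2 V → ℕ) (k : ℕ),
    Function.Injective h ∧ Set.InjOn g G.edgeSet ∧
    (∀ v, E + 1 ≤ h v ∧ h v ≤ E + Fintype.card V) ∧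
    (∀ e ∈ G.edgeSet, 1 ≤ g e ∧ g e ≤ E) ∧
    ∀ v, h v + ∑ w ∈ univ.filter (G.Adj v), g s(v, w) = k

open Classical in
theorem glue {V : Type} [Fintype V] (G G' : SimpleGraph V) (E : ℕ) (g : Sym2 V → ℕ)
    (hg : Set.InjOn g G.edgeSet) (hgr : ∀ e ∈ G.edgeSet, 1 ≤ g e ∧ g e ≤ E)
    (σ : Equiv.Perm V) (h0 : ∀ v, σ v ≠ v) (h1 : ∀ v, ¬ G.Adj v (σ v)) (h2 : ∀ v, σ (σ v) ≠ v)
    (hG' : ∀ u v, G'.Adj u v ↔ G.Adj u v ∨ v = σ u ∨ u = σ v)
    (φ : V → ℕ) (hφ : Function.Injective φ)
    (hφr : ∀ v, E + 1 ≤ φ v ∧ φ v ≤ E + Fintype.card V)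
    (ψ : V → ℕ) (hψ : Function.Injective ψ)
    (hψr : ∀ v, E + Fintype.card V + 1 ≤ ψ v ∧ ψ v ≤ E + Fintype.card V + Fintype.card V)
    (k : ℕ) (hk : ∀ v, ψ v + ∑ w ∈ univ.filter (G.Adj v), g s(v, w) + φ v + φ (σ.symm v) = k) :
    SL G' (E + Fintype.card V) := by
  let g' : Sym2 V → ℕ := fun x => if x ∈ G.edgeSet then g x else
    if hx : ∃ v, x = s(v, σ v) then φ hx.choose else 0
  have hga : ∀ x ∈ G.edgeSet, g' x = g x := fun x hx => if_pos hx
  have hinj : ∀ u v, s(u, σ u) = s(v, σ v) → u = v := by
    intro u v h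
    rw [Sym2.eq_iff] at h
    rcases h with ⟨h, _⟩ | ⟨h3, h4⟩
    · exact h
    · exfalso
      rw [h3] at h4
      exact h2 v h4
  have hgb : ∀ v, g' s(v, σ v) = φ v := by
    intro v
    have e1 : s(v, σ v) ∉ G.edgeSet := by
      rw [SimpleGraph.mem_edgeSet]
      exact h1 v
    have e2 : ∃ u, s(v, σ v) = s(u, σ u) := ⟨v, rfl⟩
    change (if s(v, σ v) ∈ G.edgeSet then g s(v, σ v) else
      if hx : ∃ u, s(v, σ v) = s(u, σ u) then φ hx.choose else 0) = φ v
    rw [if_neg e1, dif_pos e2]
    congr 1
    exact (hinj _ _ e2.choose_spec).symm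
  have hcase : ∀ x ∈ G'.edgeSet, x ∈ G.edgeSet ∨ ∃ v, x = s(v, σ v) := by
    intro x
    induction x using Sym2.ind with
    | _ u w =>
      intro hx
      rw [SimpleGraph.mem_edgeSet, hG'] at hx
      rcases hx with hx | rfl | rfl
      · exact Or.inl hx
      · exact Or.inr ⟨u, rfl⟩
      · exact Or.inr ⟨w, Sym2.eq_swap⟩
  refine ⟨ψ, g', k, hψ, ?_, hψr, ?_, ?_⟩
  · intro x hx y hy hxy
    rcases hcase x hx with hx | ⟨u, rfl⟩
    · rcases hcase y hy with hy | ⟨v, rfl⟩
      · rw [hga x hx, hga y hy] at hxy
        exact hg hx hy hxy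
      · rw [hga x hx, hgb] at hxy
        have := hgr x hx
        have := hφr v
        omega
    · rcases hcase y hy with hy | ⟨v, rfl⟩
      · rw [hga y hy, hgb] at hxy
        have := hgr y hy
        have := hφr u
        omega
      · rw [hgb, hgb] at hxy
        rw [hφ hxy]
  · intro x hx
    rcases hcase x hx with hx | ⟨u, rfl⟩
    · rw [hga x hx]
      have := hgr x hx
      omega
    · rw [hgb]
      have := hφr u
      omega
  · intro v
    have hs : univ.filter (G'.Adj v) = univ.filter (G.Adj v) ∪ {σ v, σ.symm v} := by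
      ext w
      simp only [Finset.mem_filter, Finset.mem_univ, true_and, Finset.mem_union,
        Finset.mem_insert, Finset.mem_singleton, hG']
      constructor
      · rintro (h | h | h)
        · exact Or.inl h
        · exact Or.inr (Or.inl h)
        · right; right
          rw [h, Equiv.symm_apply_apply]
      · rintro (h | h | h)
        · exact Or.inl h
        · exact Or.inr (Or.inl h)
        · right; right
          rw [h, Equiv.apply_symm_apply]
    have hne : σ v ≠ σ.symm v := by
      intro h
      apply h2 v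
      rw [h, Equiv.apply_symm_apply]
    have hsymm : s(v, σ.symm v) = s(σ.symm v, σ (σ.symm v)) := by
      rw [Equiv.apply_symm_apply, Sym2.eq_swap]
    have hdisj : Disjoint (univ.filter (G.Adj v)) ({σ v, σ.symm v} : Finset V) := by
      rw [Finset.disjoint_right]
      intro w hw hw2
      rw [Finset.mem_insert, Finset.mem_singleton] at hw
      have hw3 : G.Adj v w := (Finset.mem_filter.1 hw2).2
      rcases hw with rfl | rfl
      · exact h1 v hw3
      · apply h1 (σ.symm v)
        rw [Equiv.apply_symm_apply]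
        exact hw3.symm
    rw [hs, Finset.sum_union hdisj, Finset.sum_pair hne, hsymm, hgb, hgb]
    have h3 : ∑ w ∈ univ.filter (G.Adj v), g' s(v, w) =
        ∑ w ∈ univ.filter (G.Adj v), g s(v, w) := by
      apply Finset.sum_congr rfl
      intro w hw
      exact hga _ (by rw [SimpleGraph.mem_edgeSet]; exact (Finset.mem_filter.1 hw).2)
    rw [h3]
    have := hk v
    omega

open Classical in
/-- adding a 2-factor to a graph with a strong labelling. -/
theorem step {V : Type} [Fintype V] (G G' : SimpleGraph V) (E : ℕ) (hG : SL G E)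
    (σ : Equiv.Perm V) (h0 : ∀ v, σ v ≠ v) (h1 : ∀ v, ¬ G.Adj v (σ v)) (h2 : ∀ v, σ (σ v) ≠ v)
    (hG' : ∀ u v, G'.Adj u v ↔ G.Adj u v ∨ v = σ u ∨ u = σ v) :
    SL G' (E + Fintype.card V) := by
  obtain ⟨h, g, k, hh, hg, hhr, hgr, hk⟩ := hG
  refine glue G G' E g hg hgr σ h0 h1 h2 hG' h hh hhr
    (fun v => 2 * E + 2 * Fintype.card V + 1 - h (σ.symm v)) ?_ ?_
    (2 * E + 2 * Fintype.card V + 1 + k) ?_
  · intro u v huv
    have hu := hhr (σ.symm u)
    have hv := hhr (σ.symm v)
    have huv' : 2 * E + 2 * Fintype.card V + 1 - h (σ.symm u)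
      = 2 * E + 2 * Fintype.card V + 1 - h (σ.symm v) := huv
    have : h (σ.symm u) = h (σ.symm v) := by omega
    exact σ.symm.injective (hh this)
  · intro v
    have hv := hhr (σ.symm v)
    constructor
    · change E + Fintype.card V + 1 ≤ 2 * E + 2 * Fintype.card V + 1 - h (σ.symm v)
      omega
    · change 2 * E + 2 * Fintype.card V + 1 - h (σ.symm v) ≤ E + Fintype.card V + Fintype.card V
      omega
  · intro v
    have hv := hhr (σ.symm v)
    have hk1 := hk v
    change 2 * E + 2 * Fintype.card V + 1 - h (σ.symm v)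
      + ∑ w ∈ univ.filter (G.Adj v), g s(v, w) + h v + h (σ.symm v) = _
    omega

open Classical in
/-- adding `r` 2-factors. -/
theorem build {V : Type} [Fintype V] (G : SimpleGraph V) (r : ℕ) :
    ∀ (H : SimpleGraph V) (E : ℕ), H ≤ G → SL H E →
      (∀ v, (univ.filter (fun w => G.Adj v w ∧ ¬ H.Adj v w)).card = 2 * r) →
      SL G (E + r * Fintype.card V) := by
  induction r with
  | zero =>
    intro H E hH hE hc
    have : H = G := by
      apply le_antisymm hH
      intro u w huw
      by_contra hn
      have h1 := hc u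
      rw [mul_zero, Finset.card_eq_zero, Finset.filter_eq_empty_iff] at h1
      exact h1 (Finset.mem_univ w) ⟨huw, hn⟩
    rw [zero_mul, add_zero, ← this]
    exact hE
  | succ r ih =>
    intro H E hH hE hc
    have hdeg : ∀ v, (G \ H).degree v = 2 * (r + 1) := by
      intro v
      rw [← hc v, ← SimpleGraph.card_neighborFinset_eq_degree]
      congr 1
      ext w
      simp
    obtain ⟨σ, hσ1, hσ2⟩ := petersen (G \ H) (r + 1) (Nat.succ_pos r) hdeg
    have hσ3 : ∀ v, G.Adj v (σ v) ∧ ¬ H.Adj v (σ v) := by
      intro v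
      have := hσ1 v
      rwa [SimpleGraph.sdiff_adj] at this
    let H' : SimpleGraph V :=
      { Adj := fun u v => H.Adj u v ∨ v = σ u ∨ u = σ v
        symm := ⟨by
          intro u v h
          rcases h with h | h | h
          · exact Or.inl h.symm
          · exact Or.inr (Or.inr h)
          · exact Or.inr (Or.inl h)⟩
        loopless := ⟨by
          intro v h
          rcases h with h | h | h
          · exact H.loopless.irrefl v h
          · exact (hσ3 v).1.ne h
          · exact (hσ3 v).1.ne h⟩ }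
    have hH'a : ∀ u v, H'.Adj u v ↔ H.Adj u v ∨ v = σ u ∨ u = σ v := fun _ _ => Iff.rfl
    have hH' : H' ≤ G := by
      intro u v h
      rcases (hH'a u v).1 h with h | h | h
      · exact hH h
      · rw [h]
        exact (hσ3 u).1
      · rw [h]
        exact (hσ3 v).1.symm
    have hE' := step H H' E hE σ (fun v h => (hσ3 v).1.ne h.symm) (fun v => (hσ3 v).2) hσ2 hH'a
    have hc' : ∀ v, (univ.filter (fun w => G.Adj v w ∧ ¬ H'.Adj v w)).card = 2 * r := by
      intro v
      have hne : σ v ≠ σ.symm v := by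
        intro h
        apply hσ2 v
        rw [h, Equiv.apply_symm_apply]
      have e1 : univ.filter (fun w => G.Adj v w ∧ ¬ H'.Adj v w) =
          (univ.filter (fun w => G.Adj v w ∧ ¬ H.Adj v w)) \ {σ v, σ.symm v} := by
        ext w
        simp only [Finset.mem_filter, Finset.mem_univ, true_and, Finset.mem_sdiff,
          Finset.mem_insert, Finset.mem_singleton, hH'a]
        have hw : v = σ w ↔ w = σ.symm v := by
          rw [Equiv.eq_symm_apply]
          exact eq_comm
        rw [hw]
        tauto
      have e2 : ({σ v, σ.symm v} : Finset V) ⊆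
          univ.filter (fun w => G.Adj v w ∧ ¬ H.Adj v w) := by
        intro w hw
        rw [Finset.mem_insert, Finset.mem_singleton] at hw
        rw [Finset.mem_filter]
        refine ⟨Finset.mem_univ _, ?_⟩
        rcases hw with rfl | rfl
        · exact hσ3 v
        · have h5 := hσ3 (σ.symm v)
          rw [Equiv.apply_symm_apply] at h5
          exact ⟨h5.1.symm, fun h => h5.2 h.symm⟩
      rw [e1, Finset.card_sdiff_of_subset e2, hc v, Finset.card_pair hne]
      omega
    have := ih H' (E + Fintype.card V) hH' hE' (by intro v; convert hc' v)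
    have e : E + (r + 1) * Fintype.card V = E + Fintype.card V + r * Fintype.card V := by ring
    rw [e]
    exact this

end Pool.Agent.H402.VMTL
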