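import Mathlib
import Pool.Agent.Helper1.Multi5
import Pool.Agent.H402.VMTL

set_option autoImplicit false
open SimpleGraph Finset

namespace Pool.Agent.H402.VMTL

/-- the two-cycle 2-factor, as a permutation with a strong labelling. -/
theorem two_cycles (m n : ℕ) (hm : 3 ≤ m) (hn : 3 ≤ n) (hodd : Odd (m + n))
    (hex : ¬ ((m = 3 ∧ n = 4) ∨ (m = 4 ∧ n = 3))) (V : Type) [Fintype V]
    (H : SimpleGraph V) (e : H ≃g (cycleGraph m ⊕g cycleGraph n)) :
    ∃ σ : Equiv.Perm V, (∀ v, σ v ≠ v) ∧ (∀ v, σ (σ v) ≠ v) ∧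
      (∀ u v, H.Adj u v ↔ v = σ u ∨ u = σ v) ∧ SL H (Fintype.card V) := by
  classical
  obtain ⟨f, g, k, hf, hg, hfr, hgr, hk1, hk2⟩ :=
    Pool.Agent.Helper1.CycleMagic.Multi.has_all m n hm hn hex hodd
  have hm0 : NeZero m := ⟨by omega⟩
  have hn0 : NeZero n := ⟨by omega⟩
  let τ : Equiv.Perm (Fin m ⊕ Fin n) := Equiv.sumCongr (Equiv.addRight 1) (Equiv.addRight 1)
  have hτ1 : ∀ i : Fin m, τ (Sum.inl i) = Sum.inl (i + 1) := fun _ => rfl
  have hτ2 : ∀ i : Fin n, τ (Sum.inr i) = Sum.inr (i + 1) := fun _ => rfl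
  have one : ∀ (a : ℕ) [NeZero a], 3 ≤ a → (1 : Fin a) ≠ 0 := by
    intro a _ ha h
    have := congrArg Fin.val h
    rw [Fin.val_one', Nat.mod_eq_of_lt (by omega)] at this
    simp at this
  have two : ∀ (a : ℕ) [NeZero a], 3 ≤ a → (1 : Fin a) + 1 ≠ 0 := by
    intro a _ ha h
    have := congrArg Fin.val h
    rw [Fin.val_add, Fin.val_one', Nat.mod_eq_of_lt (show 1 < a by omega),
      Nat.mod_eq_of_lt (by omega)] at this
    simp at this
  have hne1 : ∀ v, τ v ≠ v := by
    rintro (i | i) h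
    · rw [hτ1] at h
      exact one m hm (by simpa using Sum.inl.inj h)
    · rw [hτ2] at h
      exact one n hn (by simpa using Sum.inr.inj h)
  have hne2 : ∀ v, τ (τ v) ≠ v := by
    rintro (i | i) h
    · rw [hτ1, hτ1, add_assoc] at h
      exact two m hm (by simpa using Sum.inl.inj h)
    · rw [hτ2, hτ2, add_assoc] at h
      exact two n hn (by simpa using Sum.inr.inj h)
  have cyc : ∀ (a : ℕ) [NeZero a], 3 ≤ a → ∀ u v : Fin a,
      (cycleGraph a).Adj u v ↔ v = u + 1 ∨ u = v + 1 := by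
    intro a _ ha u v
    obtain ⟨b, rfl⟩ : ∃ b, a = b + 2 := ⟨a - 2, by omega⟩
    rw [cycleGraph_adj]
    constructor
    · rintro (h | h)
      · right
        rw [← h]
        abel
      · left
        rw [← h]
        abel
    · rintro (h | h)
      · right
        rw [h]
        abel
      · left
        rw [h]
        abel
  have hadj : ∀ u v, (cycleGraph m ⊕g cycleGraph n).Adj u v ↔ v = τ u ∨ u = τ v := by
    rintro (u | u) (v | v)
    · rw [hτ1, hτ1]
      simp only [SimpleGraph.sum_adj, Sum.inl.injEq]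
      exact cyc m hm u v
    · simp [hτ1, hτ2]
    · simp [hτ1, hτ2]
    · rw [hτ2, hτ2]
      simp only [SimpleGraph.sum_adj, Sum.inr.injEq]
      exact cyc n hn u v
  have hcard : Fintype.card V = m + n := by
    rw [Fintype.card_congr e.toEquiv, Fintype.card_sum, Fintype.card_fin, Fintype.card_fin]
  have hkk : ∀ v, f v + f (τ v) + g v = k := by
    rintro (i | i)
    · rw [hτ1]
      apply hk1
      rw [Fin.val_add, Fin.val_one', Nat.mod_eq_of_lt (show 1 < m by omega)]
    · rw [hτ2]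
      apply hk2
      rw [Fin.val_add, Fin.val_one', Nat.mod_eq_of_lt (show 1 < n by omega)]
  let σ : Equiv.Perm V := (e.toEquiv.trans τ).trans e.toEquiv.symm
  have hσ : ∀ v, e (σ v) = τ (e v) := fun v => e.toEquiv.apply_symm_apply _
  have h1 : ∀ v, σ v ≠ v := by
    intro v h
    apply hne1 (e v)
    rw [← hσ, h]
  have h2 : ∀ v, σ (σ v) ≠ v := by
    intro v h
    apply hne2 (e v)
    rw [← hσ, ← hσ, h]
  have h3 : ∀ u v, H.Adj u v ↔ v = σ u ∨ u = σ v := by
    intro u v
    rw [← e.map_adj_iff, hadj, ← hσ, ← hσ, e.injective.eq_iff, e.injective.eq_iff]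
  refine ⟨σ, h1, h2, h3, ?_⟩
  have hSL := glue (⊥ : SimpleGraph V) H 0 (fun _ => 0) (by simp) (by simp) σ h1
    (fun v => by simp) h2 (by intro u v; rw [h3]; simp)
    (fun v => f (e v)) (hf.comp e.injective)
    (by
      intro v
      have := hfr (e v)
      omega)
    (fun v => g (e (σ.symm v))) ((hg.comp e.injective).comp σ.symm.injective)
    (by
      intro v
      have := hgr (e (σ.symm v))
      omega) k
    (by
      intro v
      have h4 := hkk (e (σ.symm v))
      rw [← hσ, Equiv.apply_symm_apply] at h4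
      simp only [Finset.sum_const_zero]
      omega)
  rw [zero_add] at hSL
  exact hSL

/-- the main theorem in the form of the frozen statement. -/
theorem main (V : Type) [Fintype V] [DecidableEq V] (G : SimpleGraph V) [DecidableRel G.Adj]
    (r : ℕ) (hG : G.IsRegularOfDegree (2 * r)) (H : SimpleGraph V) (hH : H ≤ G) (m n : ℕ)
    (hm : 3 ≤ m) (hn : 3 ≤ n) (hodd : Odd (m + n))
    (hex : ¬ ((m = 3 ∧ n = 4) ∨ (m = 4 ∧ n = 3)))
    (e : H ≃g (cycleGraph m ⊕g cycleGraph n)) :
    ∃ (h : V → ℕ) (g : Sym2 V → ℕ) (k : ℕ),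
      Function.Injective h ∧ Set.InjOn g G.edgeSet ∧
      (∀ v, Fintype.card G.edgeSet + 1 ≤ h v ∧
        h v ≤ Fintype.card V + Fintype.card G.edgeSet) ∧
      (∀ e ∈ G.edgeSet, 1 ≤ g e ∧ g e ≤ Fintype.card G.edgeSet) ∧
      ∀ v, h v + ∑ w ∈ G.neighborFinset v, g s(v, w) = k := by
  classical
  obtain ⟨σ, h1, h2, h3, hSL⟩ := two_cycles m n hm hn hodd hex V H e
  have hcard : Fintype.card V = m + n := by
    rw [Fintype.card_congr e.toEquiv, Fintype.card_sum, Fintype.card_fin, Fintype.card_fin]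
  have hne : ∀ v, σ v ≠ σ.symm v := by
    intro v h
    apply h2 v
    rw [h, Equiv.apply_symm_apply]
  have hHdeg : ∀ v, (univ.filter (H.Adj v)) = {σ v, σ.symm v} := by
    intro v
    ext w
    simp only [Finset.mem_filter, Finset.mem_univ, true_and, Finset.mem_insert,
      Finset.mem_singleton, h3]
    have hw : v = σ w ↔ w = σ.symm v := by
      rw [Equiv.eq_symm_apply]
      exact eq_comm
    rw [hw]
  have hGdeg : ∀ v, (univ.filter (G.Adj v)).card = 2 * r := by
    intro v
    rw [← hG v, ← SimpleGraph.card_neighborFinset_eq_degree]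
    congr 1
    ext w
    simp
  have hsub : ∀ v, univ.filter (H.Adj v) ⊆ univ.filter (G.Adj v) := by
    intro v w hw
    simp only [Finset.mem_filter, Finset.mem_univ, true_and] at hw ⊢
    exact hH hw
  have hV : Nonempty V := by
    rw [← Fintype.card_pos_iff]
    omega
  have hr : 1 ≤ r := by
    obtain ⟨v⟩ := hV
    have := Finset.card_le_card (hsub v)
    rw [hHdeg, Finset.card_pair (hne v), hGdeg] at this
    omega
  obtain ⟨h, g, k, hh, hg, hhr, hgr, hk⟩ := build G (r - 1) H (Fintype.card V) hH hSL (by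
    intro v
    have e1 : univ.filter (fun w => G.Adj v w ∧ ¬ H.Adj v w) =
        univ.filter (G.Adj v) \ univ.filter (H.Adj v) := by
      ext w
      simp
    have e2 : (univ.filter (fun w => G.Adj v w ∧ ¬ H.Adj v w)).card = 2 * (r - 1) := by
      rw [e1, Finset.card_sdiff_of_subset (hsub v), hGdeg, hHdeg, Finset.card_pair (hne v)]
      omega
    convert e2)
  have hE : Fintype.card G.edgeSet = Fintype.card V + (r - 1) * Fintype.card V := by
    have h5 := dbl G univ
    have h6 : ∑ v : V, ((univ : Finset G.edgeSet).filter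
        (fun e : G.edgeSet => v ∈ (e : Sym2 V))).card = ∑ _v : V, 2 * r := by
      apply Finset.sum_congr rfl
      intro v _
      rw [deg_sub]
      exact hG v
    rw [h6, Finset.sum_const, smul_eq_mul, Finset.card_univ, Finset.card_univ] at h5
    obtain ⟨s, rfl⟩ : ∃ s, r = s + 1 := ⟨r - 1, by omega⟩
    rw [Nat.add_sub_cancel]
    have h7 : Fintype.card V * (2 * (s + 1)) = 2 * (Fintype.card V + s * Fintype.card V) := by
      ring
    omega
  refine ⟨h, g, k, hh, hg, ?_, ?_, ?_⟩
  · intro v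
    have := hhr v
    omega
  · intro e he
    have := hgr e he
    omega
  · intro v
    have h8 : G.neighborFinset v = univ.filter (G.Adj v) := by
      ext w
      simp
    rw [h8]
    convert hk v


instance decK : DecidableRel (cycleGraph 3 ⊕g cycleGraph 4).Adj := fun u v =>
  match u, v with
  | Sum.inl i, Sum.inl j => inferInstanceAs (Decidable ((cycleGraph 3).Adj i j))
  | Sum.inr i, Sum.inr j => inferInstanceAs (Decidable ((cycleGraph 4).Adj i j))
  | Sum.inl _, Sum.inr _ => isFalse (by simp)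
  | Sum.inr _, Sum.inl _ => isFalse (by simp)

/-- A vertex-magic total labelling of `C_3 ∪ C_4`. -/
theorem c3c4 :
    ∃ (h : Fin 3 ⊕ Fin 4 → ℕ) (g : Fin 3 ⊕ Fin 4 → Fin 3 ⊕ Fin 4 → ℕ),
      (∀ u v, g u v = g v u) ∧ Function.Injective h ∧
      (∀ a b c d, (cycleGraph 3 ⊕g cycleGraph 4).Adj a b →
        (cycleGraph 3 ⊕g cycleGraph 4).Adj c d → g a b = g c d → s(a, b) = s(c, d)) ∧
      (∀ v a b, (cycleGraph 3 ⊕g cycleGraph 4).Adj a b → h v ≠ g a b) ∧
      (∀ v, 1 ≤ h v ∧ h v ≤ 14) ∧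
      (∀ a b, (cycleGraph 3 ⊕g cycleGraph 4).Adj a b → 1 ≤ g a b ∧ g a b ≤ 14) ∧
      ∀ v, h v + ∑ w ∈ univ.filter ((cycleGraph 3 ⊕g cycleGraph 4).Adj v), g v w = 21 := by
  refine ⟨Sum.elim ![9, 12, 2] ![13, 14, 7, 6],
    fun u v => match u, v with
      | Sum.inl i, Sum.inl j => (![![0, 1, 11], ![1, 0, 8], ![11, 8, 0]] : Fin 3 → Fin 3 → ℕ) i j
      | Sum.inr i, Sum.inr j => (![![0, 3, 0, 5], ![3, 0, 4, 0], ![0, 4, 0, 10], ![5, 0, 10, 0]] :
          Fin 4 → Fin 4 → ℕ) i j
      | _, _ => 0, by decide, by decide, by decide, by decide, by decide, by decide, by decide⟩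

/-- the same for every graph isomorphic to `C_3 ∪ C_4`. -/
theorem c3c4' (V : Type) [Fintype V] [DecidableEq V] (G : SimpleGraph V) [DecidableRel G.Adj]
    (e : G ≃g (cycleGraph 3 ⊕g cycleGraph 4)) :
    ∃ (h : V → ℕ) (g : Sym2 V → ℕ) (k : ℕ),
      Function.Injective h ∧ Set.InjOn g G.edgeSet ∧
      (∀ v, ∀ e ∈ G.edgeSet, h v ≠ g e) ∧
      (∀ v, 1 ≤ h v ∧ h v ≤ Fintype.card V + Fintype.card G.edgeSet) ∧
      (∀ e ∈ G.edgeSet, 1 ≤ g e ∧ g e ≤ Fintype.card V + Fintype.card G.edgeSet) ∧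
      ∀ v, h v + ∑ w ∈ G.neighborFinset v, g s(v, w) = k := by
  classical
  obtain ⟨h, g, hsym, hh, hg, hgh, hhr, hgr, hk⟩ := c3c4
  have hcard : Fintype.card V = 7 := by
    rw [Fintype.card_congr e.toEquiv, Fintype.card_sum, Fintype.card_fin, Fintype.card_fin]
  have hadj : ∀ u v, (cycleGraph 3 ⊕g cycleGraph 4).Adj (e u) (e v) ↔ G.Adj u v :=
    fun u v => e.map_adj_iff
  have hnb : ∀ v, (univ.filter ((cycleGraph 3 ⊕g cycleGraph 4).Adj (e v))) =
      (G.neighborFinset v).map e.toEquiv.toEmbedding := by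
    intro v
    ext w
    simp only [Finset.mem_filter, Finset.mem_univ, true_and, Finset.mem_map,
      SimpleGraph.mem_neighborFinset]
    constructor
    · intro h
      refine ⟨e.symm w, ?_, e.apply_symm_apply w⟩
      rw [← hadj, e.apply_symm_apply]
      exact h
    · rintro ⟨u, hu, rfl⟩
      exact (hadj v u).2 hu
  have hdeg : ∀ v, G.degree v = 2 := by
    intro v
    rw [← SimpleGraph.card_neighborFinset_eq_degree,
      ← Finset.card_map e.toEquiv.toEmbedding, ← hnb]
    have : ∀ v : Fin 3 ⊕ Fin 4,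
      ((univ.filter ((cycleGraph 3 ⊕g cycleGraph 4).Adj v)).card = 2) := by decide
    exact this (e v)
  have hE : Fintype.card G.edgeSet = 7 := by
    have h5 := dbl G univ
    have h6 : ∑ v : V, ((univ : Finset G.edgeSet).filter
        (fun e : G.edgeSet => v ∈ (e : Sym2 V))).card = ∑ _v : V, 2 := by
      apply Finset.sum_congr rfl
      intro v _
      rw [deg_sub]
      exact hdeg v
    rw [h6, Finset.sum_const, smul_eq_mul, Finset.card_univ, Finset.card_univ, hcard] at h5
    omega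
  rw [hcard, hE]
  let g' : Sym2 V → ℕ := Sym2.lift ⟨fun u v => g (e u) (e v), fun u v => hsym _ _⟩
  have hg' : ∀ u v, g' s(u, v) = g (e u) (e v) := fun _ _ => rfl
  refine ⟨fun v => h (e v), g', 21, hh.comp e.injective, ?_, ?_, fun v => hhr _, ?_, ?_⟩
  · intro x hx y hy hxy
    induction x using Sym2.ind with
    | _ a b =>
      induction y using Sym2.ind with
      | _ c d =>
        rw [SimpleGraph.mem_edgeSet] at hx hy
        rw [hg', hg'] at hxy
        have := hg _ _ _ _ ((hadj a b).2 hx) ((hadj c d).2 hy) hxy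
        rw [Sym2.eq_iff] at this ⊢
        simpa [e.injective.eq_iff] using this
  · intro v x hx
    induction x using Sym2.ind with
    | _ a b =>
      rw [SimpleGraph.mem_edgeSet] at hx
      rw [hg']
      exact hgh _ _ _ ((hadj a b).2 hx)
  · intro x hx
    induction x using Sym2.ind with
    | _ a b =>
      rw [SimpleGraph.mem_edgeSet] at hx
      rw [hg']
      exact hgr _ _ ((hadj a b).2 hx)
  · intro v
    have h7 := hk (e v)
    rw [hnb, Finset.sum_map] at h7
    exact h7

end Pool.Agent.H402.VMTL
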