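import Pool.Agent.H402.WlBell

set_option autoImplicit false

namespace Pool.Agent.H402.Wl

lemma key_id (ρ u q : ℝ) : (1-ρ^2)*(q-u)^2 + (ρ*u+(1-ρ)*q)^2 = u^2 + 2*(1-ρ)*(q*(q-u)) := by ring

lemma bell1_ge (ρ u q : ℝ) (h0 : 0 ≤ ρ) (h1 : ρ < 1) (hq : 1 ≤ q) :
    bb ρ u ≤ (1-ρ^2)*(q-u)^2 + bb ρ (ρ*u+(1-ρ)*q) := by
  have hr : 0 < 1 - ρ := by linarith
  have hs : 0 ≤ 1 - ρ^2 := by nlinarith
  have hk := key_id ρ u q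
  have hsq := mul_nonneg hs (sq_nonneg (q-u))
  have hrq := mul_nonneg hr.le (sub_nonneg.2 hq)
  rcases bb_cases ρ u with ⟨a1, e1⟩ | ⟨a1, b1, e1⟩ | ⟨a1, b1, e1⟩ | ⟨a1, e1⟩
  · have := mul_nonneg h0 (sub_nonneg.2 a1)
    rcases bb_cases ρ (ρ*u+(1-ρ)*q) with ⟨a2, e2⟩ | ⟨a2, b2, e2⟩ | ⟨a2, b2, e2⟩ | ⟨a2, e2⟩ <;>
    rw [e1, e2] <;> nlinarith
  · have h2 : 0 ≤ (1-ρ) * (q*(q-u)) := mul_nonneg hr.le (mul_nonneg (by linarith) (by linarith))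
    have h3 := mul_nonneg h0 a1
    rcases bb_cases ρ (ρ*u+(1-ρ)*q) with ⟨a2, e2⟩ | ⟨a2, b2, e2⟩ | ⟨a2, b2, e2⟩ | ⟨a2, e2⟩ <;>
    rw [e1, e2]
    · nlinarith
    · linarith
    · nlinarith
    · nlinarith
  · have h2 : 0 ≤ (1-ρ) * (q*(q-u)) := mul_nonneg hr.le (mul_nonneg (by linarith) (by linarith))
    have h3 : 0 ≤ ρ * (u + 1) := mul_nonneg h0 (by linarith)
    have h4 : 0 ≤ (1-ρ^2) * (-u) := mul_nonneg hs (by linarith)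
    have h5 : 0 ≤ (1-ρ^2) * ((1-ρ)*(q-u)) := mul_nonneg hs (mul_nonneg hr.le (by linarith))
    rcases bb_cases ρ (ρ*u+(1-ρ)*q) with ⟨a2, e2⟩ | ⟨a2, b2, e2⟩ | ⟨a2, b2, e2⟩ | ⟨a2, e2⟩ <;>
    rw [e1, e2]
    · nlinarith
    · nlinarith
    · nlinarith
    · nlinarith
  · have h2 : 0 ≤ (1-ρ) * (q*(q-u)) := mul_nonneg hr.le (mul_nonneg (by linarith) (by linarith))
    rcases bb_cases ρ (ρ*u+(1-ρ)*q) with ⟨a2, e2⟩ | ⟨a2, b2, e2⟩ | ⟨a2, b2, e2⟩ | ⟨a2, e2⟩ <;>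
    rw [e1, e2]
    · nlinarith
    · nlinarith
    · have := mul_nonneg hs (by linarith : 0 ≤ ρ*u+(1-ρ)*q + 1)
      nlinarith
    · linarith

lemma bell1_zero (ρ u : ℝ) (h0 : 0 ≤ ρ) (h1 : ρ < 1) :
    bb ρ u ≤ (1-ρ^2)*(0-u)^2 + bb ρ (ρ*u) := by
  have hr : 0 < 1 - ρ := by linarith
  have hs : 0 ≤ 1 - ρ^2 := by nlinarith
  have hsq := mul_nonneg hs (sq_nonneg u)
  rcases bb_cases ρ u with ⟨a1, e1⟩ | ⟨a1, b1, e1⟩ | ⟨a1, b1, e1⟩ | ⟨a1, e1⟩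
  · have := mul_nonneg h0 (by linarith : 0 ≤ u)
    have := mul_nonneg hs this
    rcases bb_cases ρ (ρ*u) with ⟨a2, e2⟩ | ⟨a2, b2, e2⟩ | ⟨a2, b2, e2⟩ | ⟨a2, e2⟩ <;>
    rw [e1, e2] <;> nlinarith
  · have := mul_nonneg h0 a1
    have := mul_nonneg hs this
    rcases bb_cases ρ (ρ*u) with ⟨a2, e2⟩ | ⟨a2, b2, e2⟩ | ⟨a2, b2, e2⟩ | ⟨a2, e2⟩ <;>
    rw [e1, e2] <;> nlinarith
  · have h3 : 0 ≤ ρ * (u + 1) := mul_nonneg h0 (by linarith)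
    have h4 : 0 ≤ (1-ρ^2) * (-u) := mul_nonneg hs (by linarith)
    have h5 : 0 ≤ (1-ρ^2) * ((1-ρ)*(-u)) := mul_nonneg hs (mul_nonneg hr.le (by linarith))
    rcases bb_cases ρ (ρ*u) with ⟨a2, e2⟩ | ⟨a2, b2, e2⟩ | ⟨a2, b2, e2⟩ | ⟨a2, e2⟩ <;>
    rw [e1, e2] <;> nlinarith
  · rcases bb_cases ρ (ρ*u) with ⟨a2, e2⟩ | ⟨a2, b2, e2⟩ | ⟨a2, b2, e2⟩ | ⟨a2, e2⟩ <;>
    rw [e1, e2]
    · nlinarith
    · nlinarith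
    · have := mul_nonneg hs (by linarith : 0 ≤ ρ*u + 1)
      nlinarith
    · linarith

lemma bell1_le (ρ u q : ℝ) (h0 : 0 ≤ ρ) (h1 : ρ < 1) (hq : q ≤ -1) :
    bb ρ u ≤ (1-ρ^2)*(q-u)^2 + bb ρ (ρ*u+(1-ρ)*q) := by
  have hr : 0 < 1 - ρ := by linarith
  have hs : 0 ≤ 1 - ρ^2 := by nlinarith
  have hs1 : 1 - ρ^2 ≤ 1 := by nlinarith
  have hk := key_id ρ u q
  have hsq := mul_nonneg hs (sq_nonneg (q-u))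
  have hrq := mul_nonneg hr.le (by linarith : 0 ≤ -1 - q)
  rcases bb_cases ρ u with ⟨a1, e1⟩ | ⟨a1, b1, e1⟩ | ⟨a1, b1, e1⟩ | ⟨a1, e1⟩
  · have h2 : 0 ≤ (1-ρ) * ((-q)*(u-q)) := mul_nonneg hr.le (mul_nonneg (by linarith) (by linarith))
    have h3 : 0 ≤ (1-ρ) * ((-q)*(-(q+(1-ρ^2)))) := mul_nonneg hr.le (mul_nonneg (by linarith) (by linarith))
    have h4 : 0 ≤ (1-ρ) * (u*(-q+ρ+ρ^2)) := mul_nonneg hr.le (mul_nonneg (by linarith) (by nlinarith))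
    have h5 : 0 ≤ (1-ρ^2) * ((q-u)^2 - 4) := mul_nonneg hs (by nlinarith)
    rcases bb_cases ρ (ρ*u+(1-ρ)*q) with ⟨a2, e2⟩ | ⟨a2, b2, e2⟩ | ⟨a2, b2, e2⟩ | ⟨a2, e2⟩ <;>
    rw [e1, e2] <;> nlinarith
  · have h2 : 0 ≤ (1-ρ) * ((-q)*(u-q)) := mul_nonneg hr.le (mul_nonneg (by linarith) (by linarith))
    have h3 : 0 ≤ (1-ρ) * ((-q)*(-(q+(1-ρ^2)))) := mul_nonneg hr.le (mul_nonneg (by linarith) (by linarith))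
    have h4 : 0 ≤ (1-ρ) * (u*(-q+ρ+ρ^2)) := mul_nonneg hr.le (mul_nonneg (by linarith) (by nlinarith))
    have h5 : 0 ≤ (1-ρ^2) * ((q-u)^2 - (1+u)^2) := mul_nonneg hs (by
      have := mul_nonneg (by linarith : 0 ≤ -(q+1)) (by linarith : 0 ≤ 2*u+1-q)
      linarith)
    have h6 : 0 ≤ (1-ρ^2) * u := mul_nonneg hs a1
    have h7 : 0 ≤ (1 - (1-ρ^2)) * (1 - u^2) := mul_nonneg (by linarith) (by nlinarith)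
    rcases bb_cases ρ (ρ*u+(1-ρ)*q) with ⟨a2, e2⟩ | ⟨a2, b2, e2⟩ | ⟨a2, b2, e2⟩ | ⟨a2, e2⟩ <;>
    rw [e1, e2] <;> nlinarith
  · have h2 : 0 ≤ (1-ρ) * ((-q)*(u-q)) := mul_nonneg hr.le (mul_nonneg (by linarith) (by linarith))
    have h3 : 0 ≤ (1-ρ) * ((u-q)*(-(q+(1-ρ^2)))) := mul_nonneg hr.le (mul_nonneg (by linarith) (by linarith))
    have h5 : 0 ≤ (1-ρ^2) * ((q-u)^2 - (1+u)^2) := mul_nonneg hs (by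
      have := mul_nonneg (by linarith : 0 ≤ -(q+1)) (by linarith : 0 ≤ 2*u+1-q)
      linarith)
    have h6 : 0 ≤ (1-ρ^2) * (-u) := mul_nonneg hs (by linarith)
    have hu2 : u^2 ≤ 1 := by nlinarith
    have h7 : 0 ≤ (1 - (1-ρ^2)) * (1 - u^2) := mul_nonneg (by linarith) (by linarith)
    rcases bb_cases ρ (ρ*u+(1-ρ)*q) with ⟨a2, e2⟩ | ⟨a2, b2, e2⟩ | ⟨a2, b2, e2⟩ | ⟨a2, e2⟩ <;>
    rw [e1, e2] <;> linarith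
  · have h2 : 0 ≤ ρ * (-1-u) := mul_nonneg h0 (by linarith)
    rcases bb_cases ρ (ρ*u+(1-ρ)*q) with ⟨a2, e2⟩ | ⟨a2, b2, e2⟩ | ⟨a2, b2, e2⟩ | ⟨a2, e2⟩ <;>
    rw [e1, e2]
    · nlinarith
    · nlinarith
    · have h3 : ρ*u+(1-ρ)*q = -1 := by linarith
      rw [h3]; nlinarith
    · linarith

lemma bell1 (ρ u : ℝ) (q : ℤ) (h0 : 0 ≤ ρ) (h1 : ρ < 1) :
    bb ρ u ≤ (1-ρ^2)*(q-u)^2 + bb ρ (ρ*u+(1-ρ)*q) := by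
  rcases lt_trichotomy q 0 with h | h | h
  · exact bell1_le ρ u q h0 h1 (by exact_mod_cast (by omega : q ≤ -1))
  · subst h; simpa using bell1_zero ρ u h0 h1
  · exact bell1_ge ρ u q h0 h1 (by exact_mod_cast (by omega : 1 ≤ q))

end Pool.Agent.H402.Wl
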