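import Pool.Agent.H402.WlBell

set_option autoImplicit false

namespace Pool.Agent.H402.Wl

lemma key_id' (ρ u q : ℝ) : (1-ρ^2)*(q-u)^2 + (ρ*u+(1-ρ)*q)^2 = u^2 + 2*(1-ρ)*(q*(q-u)) := by ring

/-- step (2): from positive to zero -/
lemma bell2 (ρ u q : ℝ) (h0 : 0 ≤ ρ) (h1 : ρ < 1) (hq : q ≤ -1) :
    2*(1-ρ) + bb ρ u ≤ (1-ρ^2)*(q-u)^2 + aa ρ (ρ*u+(1-ρ)*q) := by
  have hr : 0 < 1 - ρ := by linarith
  have hs : 0 ≤ 1 - ρ^2 := by nlinarith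
  have hs1 : 1 - ρ^2 ≤ 1 := by nlinarith
  have hk := key_id' ρ u q
  have hrq := mul_nonneg hr.le (by linarith : 0 ≤ -1 - q)
  rcases bb_cases ρ u with ⟨a1, e1⟩ | ⟨a1, b1, e1⟩ | ⟨a1, b1, e1⟩ | ⟨a1, e1⟩
  · have hu2 : 1 ≤ u^2 := by nlinarith
    have h2 : 0 ≤ (1-ρ) * (q^2 - (1-ρ)*q - 1 + u*(-q-ρ)) := mul_nonneg hr.le (by
      have : 0 ≤ u*(-q-ρ) := mul_nonneg (by linarith) (by linarith)
      nlinarith)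
    have h3 : 0 ≤ (1-ρ) * (q^2 - 1) := mul_nonneg hr.le (by nlinarith)
    have h3' : 0 ≤ (1-ρ) * (u*(-q)) := mul_nonneg hr.le (mul_nonneg (by linarith) (by linarith))
    have h4 : 0 ≤ (1-ρ) * ((-(q+1))*(-(q-ρ)) + u*(ρ-q)) := mul_nonneg hr.le (by
      have : 0 ≤ u*(ρ-q) := mul_nonneg (by linarith) (by linarith)
      have : 0 ≤ (-(q+1))*(-(q-ρ)) := mul_nonneg (by linarith) (by linarith)
      linarith)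
    have h5 : 0 ≤ (1-ρ) * ((1+ρ) * ((q-u)^2 - 4)) := mul_nonneg hr.le (mul_nonneg (by linarith) (by nlinarith))
    rcases aa_cases ρ h0 h1 (ρ*u+(1-ρ)*q) with ⟨a2, e2⟩ | ⟨a2, b2, e2⟩ | ⟨a2, b2, e2⟩ | ⟨a2, b2, e2⟩ | ⟨a2, e2⟩ <;>
    rw [e1, e2] <;> nlinarith
  · have h2 : 0 ≤ (1-ρ) * (q^2 - (1-ρ)*q - 1 + u*(-q-ρ)) := mul_nonneg hr.le (by
      have : 0 ≤ u*(-q-ρ) := mul_nonneg (by linarith) (by linarith)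
      nlinarith)
    have h3 : 0 ≤ (1-ρ) * (q^2 - 1) := mul_nonneg hr.le (by nlinarith)
    have h3' : 0 ≤ (1-ρ) * (u*(-q)) := mul_nonneg hr.le (mul_nonneg (by linarith) (by linarith))
    have h4 : 0 ≤ (1-ρ) * ((-(q+1))*(-(q-ρ)) + u*(ρ-q)) := mul_nonneg hr.le (by
      have : 0 ≤ u*(ρ-q) := mul_nonneg (by linarith) (by linarith)
      have : 0 ≤ (-(q+1))*(-(q-ρ)) := mul_nonneg (by linarith) (by linarith)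
      linarith)
    have h5 : 0 ≤ (1-ρ^2) * ((q-u)^2 - (1+u)^2) := mul_nonneg hs (by
      have := mul_nonneg (by linarith : 0 ≤ -(q+1)) (by linarith : 0 ≤ 2*u+1-q)
      linarith)
    have hu2 : u^2 ≤ 1 := by nlinarith
    have h6 : 0 ≤ (1 - (1-ρ^2)) * (1 - u^2) := mul_nonneg (by linarith) (by linarith)
    have h7 : 0 ≤ (1-ρ^2) * u := mul_nonneg hs a1
    have h8 : ρ * (1 - u) ≥ 0 := mul_nonneg h0 (by linarith)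
    rcases aa_cases ρ h0 h1 (ρ*u+(1-ρ)*q) with ⟨a2, e2⟩ | ⟨a2, b2, e2⟩ | ⟨a2, b2, e2⟩ | ⟨a2, b2, e2⟩ | ⟨a2, e2⟩ <;>
    rw [e1, e2] <;> linarith
  · have h3 : 0 ≤ (1-ρ) * ((q^2-1) - u*(q+1+ρ)) := mul_nonneg hr.le (by
      rcases le_total 0 (q+1+ρ) with h | h
      · nlinarith
      · nlinarith)
    have h4 : 0 ≤ (1-ρ) * ((-(q+1))*(-(q-ρ-u))) := mul_nonneg hr.le (mul_nonneg (by linarith) (by linarith))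
    have h5 : 0 ≤ (1-ρ^2) * ((q-u)^2 - (1+u)^2) := mul_nonneg hs (by
      have := mul_nonneg (by linarith : 0 ≤ -(q+1)) (by linarith : 0 ≤ 2*u+1-q)
      linarith)
    have hu2 : u^2 ≤ 1 := by nlinarith
    have h6 : 0 ≤ (1 - (1-ρ^2)) * (1 - u^2) := mul_nonneg (by linarith) (by linarith)
    have h8 : ρ * (-u) ≥ 0 := mul_nonneg h0 (by linarith)
    rcases aa_cases ρ h0 h1 (ρ*u+(1-ρ)*q) with ⟨a2, e2⟩ | ⟨a2, b2, e2⟩ | ⟨a2, b2, e2⟩ | ⟨a2, b2, e2⟩ | ⟨a2, e2⟩ <;>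
    rw [e1, e2]
    · linarith
    · linarith
    · linarith
    · linarith
    · linarith
  · have h2 : 0 ≤ ρ * (-1-u) := mul_nonneg h0 (by linarith)
    have hsq := mul_nonneg hs (sq_nonneg (q-u))
    rcases aa_cases ρ h0 h1 (ρ*u+(1-ρ)*q) with ⟨a2, e2⟩ | ⟨a2, b2, e2⟩ | ⟨a2, b2, e2⟩ | ⟨a2, b2, e2⟩ | ⟨a2, e2⟩ <;>
    rw [e1, e2]
    · linarith
    · linarith
    · have hρ : ρ = 0 := by linarith
      subst hρ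
      have h4 : 0*u+(1-0)*q ≤ -1 := by linarith
      nlinarith
    · have h3 : ρ*u+(1-ρ)*q = -1 := by linarith
      rw [h3]; linarith
    · linarith

/-- step (3): from positive to negative -/
lemma bell3 (ρ u q : ℝ) (h0 : 0 ≤ ρ) (h1 : ρ < 1) (hq : q ≤ -2) :
    bb ρ u + 2*(1-ρ^2) ≤ (1-ρ^2)*(q-u)^2 + bb ρ (-(ρ*u+(1-ρ)*q)) := by
  have hr : 0 < 1 - ρ := by linarith
  have hs : 0 ≤ 1 - ρ^2 := by nlinarith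
  have hs1 : 1 - ρ^2 ≤ 1 := by nlinarith
  have hk := key_id' ρ u q
  have hrq := mul_nonneg hr.le (by linarith : 0 ≤ -2 - q)
  rcases bb_cases ρ u with ⟨a1, e1⟩ | ⟨a1, b1, e1⟩ | ⟨a1, b1, e1⟩ | ⟨a1, e1⟩
  · have hu2 : 1 ≤ u^2 := by nlinarith
    have h2 : 0 ≤ (1-ρ) * (q*(q-u) - (1+ρ)) := mul_nonneg hr.le (by nlinarith)
    have h3 : 0 ≤ (1-ρ) * (q^2 - (1-ρ^2)*q - (1+ρ) + u*(-q-ρ*(1+ρ))) := mul_nonneg hr.le (by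
      have : 0 ≤ u*(-q-ρ*(1+ρ)) := mul_nonneg (by linarith) (by nlinarith)
      nlinarith)
    have h5 : 0 ≤ (1-ρ^2) * ((q-u)^2 - 4) := mul_nonneg hs (by nlinarith)
    rcases bb_cases ρ (-(ρ*u+(1-ρ)*q)) with ⟨a2, e2⟩ | ⟨a2, b2, e2⟩ | ⟨a2, b2, e2⟩ | ⟨a2, e2⟩ <;>
    rw [e1, e2] <;> linarith
  · have h2 : 0 ≤ (1-ρ) * (q*(q-u) - (1+ρ)) := mul_nonneg hr.le (by nlinarith)
    have h3 : 0 ≤ (1-ρ) * (q^2 - (1-ρ^2)*q - (1+ρ) + u*(-q-ρ*(1+ρ))) := mul_nonneg hr.le (by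
      have : 0 ≤ u*(-q-ρ*(1+ρ)) := mul_nonneg (by linarith) (by nlinarith)
      nlinarith)
    have h5 : 0 ≤ (1-ρ^2) * ((q-u)^2 - 4) := mul_nonneg hs (by nlinarith)
    have hu2 : u^2 ≤ 1 := by nlinarith
    have h8 : ρ * (1 - u) ≥ 0 := mul_nonneg h0 (by linarith)
    rcases bb_cases ρ (-(ρ*u+(1-ρ)*q)) with ⟨a2, e2⟩ | ⟨a2, b2, e2⟩ | ⟨a2, b2, e2⟩ | ⟨a2, e2⟩ <;>
    rw [e1, e2] <;> linarith
  · have h2 : 0 ≤ (1-ρ) * (q*(q-u) - (1+ρ)*(1+u)) := mul_nonneg hr.le (by nlinarith)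
    have h5 : 0 ≤ (1-ρ^2) * ((q-u)^2 - (2+u)^2) := mul_nonneg hs (by nlinarith)
    have h5' : 0 ≤ (1-ρ^2) * ((2+u)^2-2-2*u) := mul_nonneg hs (by nlinarith)
    have hu2 : u^2 ≤ 1 := by nlinarith
    have h8 : ρ * (-u) ≥ 0 := mul_nonneg h0 (by linarith)
    rcases bb_cases ρ (-(ρ*u+(1-ρ)*q)) with ⟨a2, e2⟩ | ⟨a2, b2, e2⟩ | ⟨a2, b2, e2⟩ | ⟨a2, e2⟩ <;>
    rw [e1, e2] <;> linarith
  · have h2 : 0 ≤ ρ * (-1-u) := mul_nonneg h0 (by linarith)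
    have hsq := mul_nonneg hs (sq_nonneg (q-u))
    rcases bb_cases ρ (-(ρ*u+(1-ρ)*q)) with ⟨a2, e2⟩ | ⟨a2, b2, e2⟩ | ⟨a2, b2, e2⟩ | ⟨a2, e2⟩ <;>
    rw [e1, e2] <;> linarith

end Pool.Agent.H402.Wl
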