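import Pool.Agent.H402.WlB2

set_option autoImplicit false

namespace Pool.Agent.H402.Wl

/-- step (4): from zero (last sign +) to positive -/
lemma bell4 (ρ u q : ℝ) (h0 : 0 ≤ ρ) (h1 : ρ < 1) (hq : 1 ≤ q) :
    aa ρ u ≤ (1-ρ^2)*(q-u)^2 + bb ρ (ρ*u+(1-ρ)*q) + 2*(1-ρ) := by
  have hr : 0 < 1 - ρ := by linarith
  have hs : 0 ≤ 1 - ρ^2 := by nlinarith
  have hk := key_id' ρ u q
  have hrq := mul_nonneg hr.le (by linarith : 0 ≤ q - 1)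
  have hsq := mul_nonneg hs (sq_nonneg (q-u))
  rcases aa_cases ρ h0 h1 u with ⟨a1, e1⟩ | ⟨a1, b1, e1⟩ | ⟨a1, b1, e1⟩ | ⟨a1, b1, e1⟩ | ⟨a1, e1⟩
  · have := mul_nonneg h0 (sub_nonneg.2 a1)
    rcases bb_cases ρ (ρ*u+(1-ρ)*q) with ⟨a2, e2⟩ | ⟨a2, b2, e2⟩ | ⟨a2, b2, e2⟩ | ⟨a2, e2⟩ <;>
    rw [e1, e2]
    · linarith
    · nlinarith
    · nlinarith
    · nlinarith
  · have h2 : 0 ≤ (1-ρ) * (q*(q-u)) := mul_nonneg hr.le (mul_nonneg (by linarith) (by linarith))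
    have h2' : 0 ≤ (1-ρ) * u := mul_nonneg hr.le a1
    have h3 := mul_nonneg h0 a1
    have hu2 : u^2 ≤ 1 := by nlinarith
    rcases bb_cases ρ (ρ*u+(1-ρ)*q) with ⟨a2, e2⟩ | ⟨a2, b2, e2⟩ | ⟨a2, b2, e2⟩ | ⟨a2, e2⟩ <;>
    rw [e1, e2] <;> linarith
  · have h2 : 0 ≤ (1-ρ) * (q*(q-u)) := mul_nonneg hr.le (mul_nonneg (by linarith) (by linarith))
    have h3 : 0 ≤ ρ * (u + (1-ρ)) := mul_nonneg h0 (by linarith)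
    have hu2 : u^2 ≤ 1 := by nlinarith
    have h4 : 0 < (1-ρ)*(1-ρ) := mul_pos hr hr
    rcases bb_cases ρ (ρ*u+(1-ρ)*q) with ⟨a2, e2⟩ | ⟨a2, b2, e2⟩ | ⟨a2, b2, e2⟩ | ⟨a2, e2⟩ <;>
    rw [e1, e2] <;> linarith
  · have h2 : 0 ≤ (1-ρ) * (q*(q-u)) := mul_nonneg hr.le (mul_nonneg (by linarith) (by linarith))
    have h2' : 0 ≤ (1-ρ) * (-(u + (1-ρ))) := mul_nonneg hr.le (by linarith)
    have h3 : 0 ≤ (1-ρ) * (q^2 + (1-ρ^2)*q + ρ + (-u)*(q+1-ρ-ρ^2)) := mul_nonneg hr.le (by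
      have : 0 ≤ (-u)*(q+1-ρ-ρ^2) := mul_nonneg (by linarith) (by nlinarith)
      have : 0 ≤ (1-ρ^2)*q := mul_nonneg hs (by linarith)
      nlinarith)
    have h5 : 0 ≤ ρ * (u + 1) := mul_nonneg h0 (by linarith)
    have hu2 : u^2 ≤ 1 := by nlinarith
    rcases bb_cases ρ (ρ*u+(1-ρ)*q) with ⟨a2, e2⟩ | ⟨a2, b2, e2⟩ | ⟨a2, b2, e2⟩ | ⟨a2, e2⟩ <;>
    rw [e1, e2] <;> linarith
  · have h2 : 0 ≤ (1-ρ) * (q*(q-u)) := mul_nonneg hr.le (mul_nonneg (by linarith) (by linarith))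
    have h2' : 0 ≤ (1-ρ) * ρ := mul_nonneg hr.le h0
    have hu2 : 1 ≤ u^2 := by nlinarith
    rcases bb_cases ρ (ρ*u+(1-ρ)*q) with ⟨a2, e2⟩ | ⟨a2, b2, e2⟩ | ⟨a2, b2, e2⟩ | ⟨a2, e2⟩ <;>
    rw [e1, e2]
    · linarith
    · linarith
    · have := mul_nonneg hs (by linarith : 0 ≤ ρ*u+(1-ρ)*q + 1)
      linarith
    · linarith

set_option maxHeartbeats 2000000 in
/-- step (5): from zero (last sign +) to negative -/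
lemma bell5 (ρ u q : ℝ) (h0 : 0 ≤ ρ) (h1 : ρ < 1) (hq : q ≤ -1) :
    aa ρ u + 2*(1-ρ^2) ≤ (1-ρ^2)*(q-u)^2 + bb ρ (-(ρ*u+(1-ρ)*q)) + 2*(1-ρ) := by
  have hr : 0 < 1 - ρ := by linarith
  have hs : 0 ≤ 1 - ρ^2 := by nlinarith
  have hs1 : 1 - ρ^2 ≤ 1 := by nlinarith
  have hk := key_id' ρ u q
  have hrq := mul_nonneg hr.le (by linarith : 0 ≤ -1 - q)
  have hsq := mul_nonneg hs (sq_nonneg (q-u))
  have hrr := mul_nonneg hr.le hr.le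
  have hrρ := mul_nonneg hr.le h0
  rcases aa_cases ρ h0 h1 u with ⟨a1, e1⟩ | ⟨a1, b1, e1⟩ | ⟨a1, b1, e1⟩ | ⟨a1, b1, e1⟩ | ⟨a1, e1⟩
  · have hu2 : 1 ≤ u^2 := by nlinarith
    have h2 : 0 ≤ (1-ρ) * ((-q)*(u-q)) := mul_nonneg hr.le (mul_nonneg (by linarith) (by linarith))
    have h3 : 0 ≤ 2*((1-ρ) * (q^2 - (1-ρ^2)*q + u*(-q-ρ-ρ^2) + (1-ρ))) + (u^2 - 1) := by
      have g1 : 2*(1-ρ)*(u-1) ≤ u^2 - 1 := by nlinarith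
      have g2 : 0 ≤ (1-ρ) * (q^2 - (1-ρ^2)*q + u*(-q-ρ-ρ^2) + (1-ρ) + (u - 1)) := mul_nonneg hr.le (by
        have g3 : 0 ≤ (u-1)*(-q-ρ-ρ^2+1) := mul_nonneg (by linarith) (by nlinarith)
        have g4 : 0 ≤ (-1-q)*(1-ρ^2) := mul_nonneg (by linarith) hs
        nlinarith)
      linarith
    have h5 : 0 ≤ (1-ρ^2) * ((q-u)^2 - 4) := mul_nonneg hs (by nlinarith)
    rcases bb_cases ρ (-(ρ*u+(1-ρ)*q)) with ⟨a2, e2⟩ | ⟨a2, b2, e2⟩ | ⟨a2, b2, e2⟩ | ⟨a2, e2⟩ <;>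
    rw [e1, e2] <;> linarith
  · have h2 : 0 ≤ (1-ρ) * (q*(q-u) - ρ) := mul_nonneg hr.le (by
        have := mul_nonneg (by linarith : 0 ≤ -1 - q) (by linarith : 0 ≤ u - q)
        linarith)
    have h2' : 0 ≤ (1-ρ) * u := mul_nonneg hr.le a1
    have h3 : 0 ≤ (1-ρ) * (q^2 - (1-ρ^2)*q - ρ + u*(-q-ρ-ρ^2+1)) := mul_nonneg hr.le (by
        have g3 : 0 ≤ u*(-q-ρ-ρ^2+1) := mul_nonneg (by linarith) (by nlinarith)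
        have g4 : 0 ≤ (-1-q)*(1-ρ^2) := mul_nonneg (by linarith) hs
        nlinarith)
    have h5 : 0 ≤ (1-ρ^2) * ((q-u)^2 - (1+u)^2) := mul_nonneg hs (by
      have := mul_nonneg (by linarith : 0 ≤ -(q+1)) (by linarith : 0 ≤ 2*u+1-q)
      linarith)
    have h5' : 0 ≤ (1-ρ^2) * ((1+u)^2 - 1) := mul_nonneg hs (by nlinarith)
    have hu2 : u^2 ≤ 1 := by nlinarith
    have h8 : ρ * (1 - u) ≥ 0 := mul_nonneg h0 (by linarith)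
    rcases bb_cases ρ (-(ρ*u+(1-ρ)*q)) with ⟨a2, e2⟩ | ⟨a2, b2, e2⟩ | ⟨a2, b2, e2⟩ | ⟨a2, e2⟩ <;>
    rw [e1, e2] <;> linarith
  · have h2 : 0 ≤ (1-ρ) * (q*(q-u) - ρ) := mul_nonneg hr.le (by
        have := mul_nonneg (by linarith : 0 ≤ -1 - q) (by linarith : 0 ≤ u - q)
        linarith)
    have h8 : ρ * (-u) ≥ 0 := mul_nonneg h0 (by linarith)
    have hu2 : u^2 ≤ (1-ρ)*(1-ρ) := by nlinarith
    rcases bb_cases ρ (-(ρ*u+(1-ρ)*q)) with ⟨a2, e2⟩ | ⟨a2, b2, e2⟩ | ⟨a2, b2, e2⟩ | ⟨a2, e2⟩ <;>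
    rw [e1, e2] <;> linarith
  · have h2 : 0 ≤ (1-ρ) * (q*(q-u) - (1+u)) := mul_nonneg hr.le (by
        have := mul_nonneg (by linarith : 0 ≤ -1 - q) (by linarith : 0 ≤ u - q)
        linarith)
    have h8 : ρ * (-u) ≥ 0 := mul_nonneg h0 (by linarith)
    have h9 : 0 ≤ (u+1)*(-(u-1+2*(1-ρ))) := mul_nonneg (by linarith) (by linarith)
    rcases bb_cases ρ (-(ρ*u+(1-ρ)*q)) with ⟨a2, e2⟩ | ⟨a2, b2, e2⟩ | ⟨a2, b2, e2⟩ | ⟨a2, e2⟩ <;>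
    rw [e1, e2] <;> linarith
  · have h2 : 0 ≤ ρ * (-1-u) := mul_nonneg h0 (by linarith)
    rcases bb_cases ρ (-(ρ*u+(1-ρ)*q)) with ⟨a2, e2⟩ | ⟨a2, b2, e2⟩ | ⟨a2, b2, e2⟩ | ⟨a2, e2⟩ <;>
    rw [e1, e2]
    · linarith
    · have h3 : -(ρ*u+(1-ρ)*q) = 1 := by linarith
      rw [h3]; linarith
    · linarith
    · linarith

/-- step (6): stay at zero -/
lemma bell6 (ρ u : ℝ) (h0 : 0 ≤ ρ) (h1 : ρ < 1) :
    aa ρ u ≤ (1-ρ^2)*u^2 + aa ρ (ρ*u) := by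
  have hr : 0 < 1 - ρ := by linarith
  have hs : 0 ≤ 1 - ρ^2 := by nlinarith
  have hsq := mul_nonneg hs (sq_nonneg u)
  have hrr := mul_nonneg hr.le hr.le
  have hrρ := mul_nonneg hr.le h0
  rcases aa_cases ρ h0 h1 u with ⟨a1, e1⟩ | ⟨a1, b1, e1⟩ | ⟨a1, b1, e1⟩ | ⟨a1, b1, e1⟩ | ⟨a1, e1⟩
  · have hu2 : 1 ≤ u^2 := by nlinarith
    have h3 := mul_nonneg h0 (by linarith : 0 ≤ u)
    rcases aa_cases ρ h0 h1 (ρ*u) with ⟨a2, e2⟩ | ⟨a2, b2, e2⟩ | ⟨a2, b2, e2⟩ | ⟨a2, b2, e2⟩ | ⟨a2, e2⟩ <;>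
    rw [e1, e2]
    · linarith
    · have := mul_nonneg hr.le (by linarith : 0 ≤ 1 - ρ*u); nlinarith
    · nlinarith
    · nlinarith
    · nlinarith
  · have h3 := mul_nonneg h0 a1
    have h4 := mul_nonneg hr.le a1
    have h5 := mul_nonneg hr.le h4
    have hu2 : u^2 ≤ 1 := by nlinarith
    rcases aa_cases ρ h0 h1 (ρ*u) with ⟨a2, e2⟩ | ⟨a2, b2, e2⟩ | ⟨a2, b2, e2⟩ | ⟨a2, b2, e2⟩ | ⟨a2, e2⟩ <;>
    rw [e1, e2]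
    · nlinarith
    · nlinarith
    · nlinarith
    · nlinarith
    · nlinarith
  · have h3 := mul_nonneg h0 (by linarith : 0 ≤ -u)
    have h3' := mul_nonneg h0 (by linarith : 0 ≤ u + (1-ρ))
    rcases aa_cases ρ h0 h1 (ρ*u) with ⟨a2, e2⟩ | ⟨a2, b2, e2⟩ | ⟨a2, b2, e2⟩ | ⟨a2, b2, e2⟩ | ⟨a2, e2⟩ <;>
    rw [e1, e2]
    · nlinarith
    · have : ρ * u = 0 := by linarith
      nlinarith
    · nlinarith
    · have := mul_nonneg hr.le (by nlinarith : 0 ≤ ρ*u + (1-ρ)); nlinarith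
    · nlinarith
  · have h3 := mul_nonneg h0 (by linarith : 0 ≤ -u)
    have h3' := mul_nonneg h0 (by linarith : 0 ≤ u + 1)
    rcases aa_cases ρ h0 h1 (ρ*u) with ⟨a2, e2⟩ | ⟨a2, b2, e2⟩ | ⟨a2, b2, e2⟩ | ⟨a2, b2, e2⟩ | ⟨a2, e2⟩ <;>
    rw [e1, e2]
    · nlinarith
    · have : ρ * u = 0 := by linarith
      nlinarith
    · nlinarith
    · have := mul_nonneg hr.le (by nlinarith : 0 ≤ ρ*u - u); nlinarith
    · nlinarith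
  · have hu2 : 1 ≤ u^2 := by nlinarith
    have h3 := mul_nonneg h0 (by linarith : 0 ≤ -u)
    rcases aa_cases ρ h0 h1 (ρ*u) with ⟨a2, e2⟩ | ⟨a2, b2, e2⟩ | ⟨a2, b2, e2⟩ | ⟨a2, b2, e2⟩ | ⟨a2, e2⟩ <;>
    rw [e1, e2]
    · nlinarith
    · have : ρ * u = 0 := by linarith
      nlinarith
    · nlinarith
    · have := mul_nonneg hr.le (by linarith : 0 ≤ ρ*u + 1); nlinarith
    · linarith

/-- step (7): start -/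
lemma bell7 (ρ q : ℝ) (h0 : 0 ≤ ρ) (h1 : ρ < 1) (hq : 1 ≤ q) :
    2*(1-ρ) ≤ (1-ρ^2)*q^2 + bb ρ ((1-ρ)*q) := by
  have hr : 0 < 1 - ρ := by linarith
  have hs : 0 ≤ 1 - ρ^2 := by nlinarith
  have hrq := mul_nonneg hr.le (by linarith : 0 ≤ q - 1)
  rcases bb_cases ρ ((1-ρ)*q) with ⟨a2, e2⟩ | ⟨a2, b2, e2⟩ | ⟨a2, b2, e2⟩ | ⟨a2, e2⟩ <;>
  rw [e2]
  · have h : 1 ≤ (1-ρ)*q*q := by nlinarith
    have := mul_nonneg (by linarith : 0 ≤ 1 + ρ) (by linarith : 0 ≤ (1-ρ)*q*q - 1)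
    linarith
  · nlinarith [mul_nonneg hr.le (by nlinarith : 0 ≤ q^2 - 1)]
  · nlinarith
  · nlinarith

lemma aa_le (ρ u : ℝ) (h0 : 0 ≤ ρ) (h1 : ρ < 1) : aa ρ u ≤ u^2 := by
  have hr : 0 < 1 - ρ := by linarith
  have hrr := mul_nonneg hr.le hr.le
  have hrρ := mul_nonneg hr.le h0
  rcases aa_cases ρ h0 h1 u with ⟨a1, e1⟩ | ⟨a1, b1, e1⟩ | ⟨a1, b1, e1⟩ | ⟨a1, b1, e1⟩ | ⟨a1, e1⟩ <;>
  rw [e1]
  · nlinarith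
  · nlinarith
  · nlinarith
  · nlinarith
end Pool.Agent.H402.Wl
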