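import Mathlib

set_option autoImplicit false

namespace Pool.Agent.H402.Wl

noncomputable def cl (u : ℝ) : ℝ := max (-1) (min 1 u)
noncomputable def bb (ρ u : ℝ) : ℝ := (cl u)^2 - 2*(1-ρ^2)*max 0 (-(cl u))
noncomputable def aa (ρ u : ℝ) : ℝ := (cl u)^2 - 2*(1-ρ)*max 0 (max (cl u) (-(cl u) - (1-ρ)))

lemma cl_cases (u : ℝ) : (1 ≤ u ∧ cl u = 1) ∨ (-1 ≤ u ∧ u ≤ 1 ∧ cl u = u) ∨ (u ≤ -1 ∧ cl u = -1) := by
  unfold cl
  rcases le_total 1 u with h | h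
  · left; refine ⟨h, ?_⟩; rw [min_eq_left h]; norm_num
  · rcases le_total (-1) u with h' | h'
    · right; left; refine ⟨h', h, ?_⟩; rw [min_eq_right h, max_eq_right h']
    · right; right; refine ⟨h', ?_⟩; rw [min_eq_right h, max_eq_left h']

lemma bb_cases (ρ u : ℝ) : (1 ≤ u ∧ bb ρ u = 1) ∨ (0 ≤ u ∧ u ≤ 1 ∧ bb ρ u = u^2) ∨
    (-1 ≤ u ∧ u ≤ 0 ∧ bb ρ u = u^2 + 2*(1-ρ^2)*u) ∨ (u ≤ -1 ∧ bb ρ u = 1 - 2*(1-ρ^2)) := by
  rcases cl_cases u with ⟨h, e⟩ | ⟨h, h', e⟩ | ⟨h, e⟩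
  · left; refine ⟨h, ?_⟩; unfold bb; rw [e]; norm_num
  · rcases le_total 0 u with h0 | h0
    · right; left; refine ⟨h0, h', ?_⟩; unfold bb; rw [e, max_eq_left (by linarith)]; ring
    · right; right; left; refine ⟨h, h0, ?_⟩; unfold bb; rw [e, max_eq_right (by linarith)]; ring
  · right; right; right; refine ⟨h, ?_⟩; unfold bb; rw [e]; norm_num

lemma aa_cases (ρ : ℝ) (h0 : 0 ≤ ρ) (h1 : ρ < 1) (u : ℝ) :
    (1 ≤ u ∧ aa ρ u = 1 - 2*(1-ρ)) ∨ (0 ≤ u ∧ u ≤ 1 ∧ aa ρ u = u^2 - 2*(1-ρ)*u) ∨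
    (-(1-ρ) ≤ u ∧ u ≤ 0 ∧ aa ρ u = u^2) ∨
    (-1 ≤ u ∧ u ≤ -(1-ρ) ∧ aa ρ u = u^2 + 2*(1-ρ)*(u + (1-ρ))) ∨
    (u ≤ -1 ∧ aa ρ u = 1 - 2*(1-ρ)*ρ) := by
  rcases cl_cases u with ⟨h, e⟩ | ⟨h, h', e⟩ | ⟨h, e⟩
  · left; refine ⟨h, ?_⟩; unfold aa
    rw [e, max_eq_left (by linarith : -1 - (1-ρ) ≤ (1:ℝ)), max_eq_right (by norm_num)]; ring
  · rcases le_total 0 u with h2 | h2
    · right; left; refine ⟨h2, h', ?_⟩; unfold aa
      rw [e, max_eq_left (by linarith : -u - (1-ρ) ≤ u), max_eq_right h2]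
    · rcases le_total (-(1-ρ)) u with h3 | h3
      · right; right; left; refine ⟨h3, h2, ?_⟩; unfold aa
        rw [e, max_eq_left (max_le h2 (by linarith))]; ring
      · right; right; right; left; refine ⟨h, h3, ?_⟩; unfold aa
        rw [e, max_eq_right (by linarith : u ≤ -u - (1-ρ)), max_eq_right (by linarith)]; ring
  · right; right; right; right; refine ⟨h, ?_⟩; unfold aa
    rw [e, max_eq_right (by linarith : (-1:ℝ) ≤ -(-1) - (1-ρ)), max_eq_right (by linarith)]; ring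

end Pool.Agent.H402.Wl
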