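import Pool.Agent.H402.WlUp

set_option autoImplicit false

namespace Pool.Agent.H402.Wl

open Real Finset MeasureTheory intervalIntegral Polynomial

lemma Bd_sum1 (a b d : ℝ) (hd : 0 ≤ d) : ∑ i ∈ range 2, ∑ j ∈ range 2, Bd a b d i j ≤ 2 * a + 2 * 0 * b + 100 * d := by
  simp [Finset.sum_range_succ, Bd]; linarith

lemma Bd_sum2 (a b d : ℝ) (hd : 0 ≤ d) : ∑ i ∈ range 4, ∑ j ∈ range 4, Bd a b d i j ≤ 4 * a + 2 * 1 * b + 100 * d := by
  simp [Finset.sum_range_succ, Bd]; linarith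

lemma Bd_sum3 (a b d : ℝ) (hd : 0 ≤ d) : ∑ i ∈ range 6, ∑ j ∈ range 6, Bd a b d i j ≤ 6 * a + 2 * 2 * b + 100 * d := by
  simp [Finset.sum_range_succ, Bd]; linarith

lemma Bd_sum4 (a b d : ℝ) (hd : 0 ≤ d) : ∑ i ∈ range 8, ∑ j ∈ range 8, Bd a b d i j ≤ 8 * a + 2 * 3 * b + 100 * d := by
  simp [Finset.sum_range_succ, Bd]; linarith

lemma Bd_sum5 (a b d : ℝ) (hd : 0 ≤ d) : ∑ i ∈ range 10, ∑ j ∈ range 10, Bd a b d i j ≤ 10 * a + 2 * 4 * b + 100 * d := by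
  simp [Finset.sum_range_succ, Bd]; linarith

/-- list-based positions -/
def pos (l : List ℕ) (i : ℕ) : ℕ := l.getD i 0

def pat1 (y : ℕ) : List ℕ := [0, y]
def pat2 (y : ℕ) : List ℕ := [0, y, y+1, 2*y+1]
def pat3 (y : ℕ) : List ℕ := [0, y, y+1, 3*y+1, 3*y+2, 4*y+2]
def pat4 (g e : ℕ) : List ℕ := [0, e, e+1, g+e+1, g+e+2, 2*g+e+2, 2*g+e+3, 2*g+2*e+3]
def pat5 (b e : ℕ) : List ℕ := [0, e, e+1, b+2*e+1, b+2*e+2, 3*b+2*e+2, 3*b+2*e+3, 4*b+3*e+3, 4*b+3*e+4, 4*b+4*e+4]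

lemma pat1_pat (y G : ℕ) (h : G ≤ y) : Pat 2 G (pos (pat1 y)) := by
  constructor
  · intro i hi hm; omega
  · intro i hi hm
    obtain rfl : i = 0 := by omega
    simp [pos, pat1]; omega

lemma pat2_pat (y G : ℕ) (h : G ≤ y) : Pat 4 G (pos (pat2 y)) := by
  constructor
  · intro i hi hm
    obtain rfl : i = 1 := by omega
    simp [pos, pat2]
  · intro i hi hm
    obtain rfl | rfl : i = 0 ∨ i = 2 := by omega
    all_goals simp [pos, pat2]; try omega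

lemma pat3_pat (y G : ℕ) (h : G ≤ y) : Pat 6 G (pos (pat3 y)) := by
  constructor
  · intro i hi hm
    obtain rfl | rfl : i = 1 ∨ i = 3 := by omega
    all_goals simp [pos, pat3]
  · intro i hi hm
    obtain rfl | rfl | rfl : i = 0 ∨ i = 2 ∨ i = 4 := by omega
    all_goals simp [pos, pat3]; try omega

lemma pat4_pat (g e G : ℕ) (h : G ≤ g) (h' : G ≤ e) : Pat 8 G (pos (pat4 g e)) := by
  constructor
  · intro i hi hm
    obtain rfl | rfl | rfl : i = 1 ∨ i = 3 ∨ i = 5 := by omega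
    all_goals simp [pos, pat4]
  · intro i hi hm
    obtain rfl | rfl | rfl | rfl : i = 0 ∨ i = 2 ∨ i = 4 ∨ i = 6 := by omega
    all_goals simp [pos, pat4]; try omega

lemma pat5_pat (b e G : ℕ) (h : G ≤ b) (h' : G ≤ e) : Pat 10 G (pos (pat5 b e)) := by
  constructor
  · intro i hi hm
    obtain rfl | rfl | rfl | rfl : i = 1 ∨ i = 3 ∨ i = 5 ∨ i = 7 := by omega
    all_goals simp [pos, pat5]
  · intro i hi hm
    obtain rfl | rfl | rfl | rfl | rfl : i = 0 ∨ i = 2 ∨ i = 4 ∨ i = 6 ∨ i = 8 := by omega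
    all_goals simp [pos, pat5]; try omega

lemma pat1_sum (y : ℕ) (l : ℕ) (hl : l < 1) : ∑ i ∈ range 2, sg i * (pos (pat1 y) i : ℤ)^l = 0 := by
  obtain rfl : l = 0 := by omega
  simp [Finset.sum_range_succ, sg]

lemma pat2_sum (y : ℕ) (l : ℕ) (hl : l < 2) : ∑ i ∈ range 4, sg i * (pos (pat2 y) i : ℤ)^l = 0 := by
  obtain rfl | rfl : l = 0 ∨ l = 1 := by omega
  all_goals simp [Finset.sum_range_succ, sg, pos, pat2]
  all_goals try ring

lemma pat3_sum (y : ℕ) (l : ℕ) (hl : l < 3) : ∑ i ∈ range 6, sg i * (pos (pat3 y) i : ℤ)^l = 0 := by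
  obtain rfl | rfl | rfl : l = 0 ∨ l = 1 ∨ l = 2 := by omega
  all_goals simp [Finset.sum_range_succ, sg, pos, pat3]
  all_goals try ring

lemma pat4_eqs (n : ℕ) : ∃ g e : ℕ, n ≤ g ∧ n ≤ e ∧ e^2 + 3*e + 2*g*e = g^2 + g := by
  induction n with
  | zero => exact ⟨0, 0, le_rfl, le_rfl, by norm_num⟩
  | succ n ih =>
    obtain ⟨g, e, h1, h2, h3⟩ := ih
    refine ⟨5*g+2*e+5, 2*g+2+e, by omega, by omega, ?_⟩
    nlinarith

lemma pat5_eqs (n : ℕ) : ∃ b e : ℕ, n ≤ b ∧ n ≤ e ∧ 2*e^2 + 3*e + 2*b*e = 2*b^2 + b := by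
  induction n with
  | zero => exact ⟨0, 0, le_rfl, le_rfl, by norm_num⟩
  | succ n ih =>
    obtain ⟨b, e, h1, h2, h3⟩ := ih
    refine ⟨13*b+8*e+10, 8*b+5*e+6, by omega, by omega, ?_⟩
    nlinarith

lemma pat4_sum (g e : ℕ) (h : e^2 + 3*e + 2*g*e = g^2 + g) (l : ℕ) (hl : l < 4) :
    ∑ i ∈ range 8, sg i * (pos (pat4 g e) i : ℤ)^l = 0 := by
  have h' : (e:ℤ)^2 + 3*e + 2*g*e = g^2 + g := by exact_mod_cast h
  obtain rfl | rfl | rfl | rfl : l = 0 ∨ l = 1 ∨ l = 2 ∨ l = 3 := by omega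
  · simp [Finset.sum_range_succ, sg]
  · simp [Finset.sum_range_succ, sg, pos, pat4]; ring
  · simp [Finset.sum_range_succ, sg, pos, pat4]; linear_combination 2*h'
  · simp [Finset.sum_range_succ, sg, pos, pat4]; linear_combination (3*(2*g+2*e+3))*h'

lemma pat5_sum (b e : ℕ) (h : 2*e^2 + 3*e + 2*b*e = 2*b^2 + b) (l : ℕ) (hl : l < 5) :
    ∑ i ∈ range 10, sg i * (pos (pat5 b e) i : ℤ)^l = 0 := by
  have h' : 2*(e:ℤ)^2 + 3*e + 2*b*e = 2*b^2 + b := by exact_mod_cast h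
  obtain rfl | rfl | rfl | rfl | rfl : l = 0 ∨ l = 1 ∨ l = 2 ∨ l = 3 ∨ l = 4 := by omega
  · simp [Finset.sum_range_succ, sg]
  · simp [Finset.sum_range_succ, sg, pos, pat5]; ring
  · simp [Finset.sum_range_succ, sg, pos, pat5]; ring
  · simp [Finset.sum_range_succ, sg, pos, pat5]; linear_combination (-6*((b:ℤ)+e+1))*h'
  · simp [Finset.sum_range_succ, sg, pos, pat5]; linear_combination (-48*((b:ℤ)+e+1)^2)*h'

end Pool.Agent.H402.Wl
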