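import Pool.Agent.H402.WlTrig

set_option autoImplicit false

namespace Pool.Agent.H402.Wl

open Real Finset MeasureTheory intervalIntegral

noncomputable def bi (a b : ℝ) : ℝ := ∫ x in (0:ℝ)..1, |x| ^ (a-1) * |1 - x| ^ (b-1)

lemma bi_eq (a b : ℝ) (ha : 0 < a) (hb : 0 < b) : bi a b = Real.Gamma a * Real.Gamma b / Real.Gamma (a + b) := by
  have h1 : Complex.betaIntegral (a:ℂ) (b:ℂ) = ((bi a b : ℝ) : ℂ) := by
    unfold Complex.betaIntegral bi
    rw [← intervalIntegral.integral_ofReal]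
    apply intervalIntegral.integral_congr
    intro x hx
    rw [Set.uIcc_of_le zero_le_one] at hx
    have hx0 := hx.1
    have hx1 : 0 ≤ 1 - x := by linarith [hx.2]
    show (x:ℂ) ^ ((a:ℂ) - 1) * (1 - (x:ℂ)) ^ ((b:ℂ) - 1) = ((|x| ^ (a-1) * |1 - x| ^ (b-1) : ℝ) : ℂ)
    rw [abs_of_nonneg hx0, abs_of_nonneg hx1]
    rw [Complex.ofReal_mul, Complex.ofReal_cpow hx0, Complex.ofReal_cpow hx1]
    push_cast; rfl
  have h2 := ProbabilityTheory.beta_eq_betaIntegralReal a b ha hb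
  rw [h1, Complex.ofReal_re] at h2
  rw [← h2]; rfl

lemma bi_int (a b : ℝ) (ha : 0 < a) (hb : 0 < b) :
    IntervalIntegrable (fun x => |x| ^ (a-1) * |1 - x| ^ (b-1)) volume 0 1 := by
  have h := (Complex.betaIntegral_convergent (u := (a : ℂ)) (v := (b : ℂ))
    (by simpa using ha) (by simpa using hb)).norm
  refine h.congr ?_
  intro x _
  show ‖(x:ℂ) ^ ((a : ℂ) - 1) * (1 - (x:ℂ)) ^ ((b : ℂ) - 1)‖ = _
  rw [norm_mul]
  have e1 : (a : ℂ) - 1 = ((a - 1 : ℝ) : ℂ) := by push_cast; ring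
  have e2 : (b : ℂ) - 1 = ((b - 1 : ℝ) : ℂ) := by push_cast; ring
  rw [e1, e2, Complex.norm_cpow_real, Complex.norm_cpow_real]
  have e3 : (1 - (x : ℂ)) = ((1 - x : ℝ) : ℂ) := by push_cast; ring
  rw [e3, Complex.norm_real, Complex.norm_real, Real.norm_eq_abs, Real.norm_eq_abs]

lemma pt_eq (s θ : ℝ) (h0 : 0 < θ) (h1 : θ < π) :
    (4:ℝ)^s * (|(1 - cos θ)/2| ^ (s + 1/2 - 1) * |1 - (1 - cos θ)/2| ^ ((1:ℝ)/2 - 1)) * (sin θ / 2) = w s θ := by
  have hc1 : cos θ < 1 := by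
    have := cos_lt_cos_of_nonneg_of_le_pi le_rfl h1.le h0
    rwa [cos_zero] at this
  have hc2 : -1 < cos θ := by
    have := cos_lt_cos_of_nonneg_of_le_pi h0.le le_rfl h1
    rwa [cos_pi] at this
  have hs : 0 < sin θ := sin_pos_of_pos_of_lt_pi h0 h1
  obtain ⟨x, hx⟩ : ∃ x, x = (1 - cos θ)/2 := ⟨_, rfl⟩
  have hx0 : 0 < x := by rw [hx]; linarith
  have hx1 : 0 < 1 - x := by rw [hx]; linarith
  rw [← hx, abs_of_pos hx0, abs_of_pos hx1]
  have hw : w s θ = 4^s * x^s := by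
    unfold w
    rw [← mul_rpow (by norm_num) hx0.le]; congr 1; rw [hx]; ring
  have hsin : sin θ / 2 = x^((1:ℝ)/2) * (1-x)^((1:ℝ)/2) := by
    rw [← mul_rpow hx0.le hx1.le, ← sqrt_eq_rpow]
    symm
    rw [sqrt_eq_iff_mul_self_eq (by positivity) (by positivity)]
    have := sin_sq_add_cos_sq θ
    rw [hx]; nlinarith
  rw [hw, hsin]
  have e1 : x ^ (s + 1/2 - 1) * x^((1:ℝ)/2) = x^s := by
    rw [← rpow_add hx0]; congr 1; ring
  have e2 : (1-x) ^ ((1:ℝ)/2 - 1) * (1-x)^((1:ℝ)/2) = 1 := by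
    rw [← rpow_add hx1]; norm_num
  calc (4:ℝ)^s * (x ^ (s + 1/2 - 1) * (1-x) ^ ((1:ℝ)/2 - 1)) * (x^((1:ℝ)/2) * (1-x)^((1:ℝ)/2))
      = (4:ℝ)^s * (x ^ (s + 1/2 - 1) * x^((1:ℝ)/2)) * ((1-x) ^ ((1:ℝ)/2 - 1) * (1-x)^((1:ℝ)/2)) := by ring
    _ = _ := by rw [e1, e2]; ring

lemma half_int (s : ℝ) (hs : 0 ≤ s) : ∫ θ in (0:ℝ)..π, w s θ = 4^s * bi (s+1/2) (1/2) := by
  have hw := w_cont s hs
  have hcong : ∀ θ ∈ Set.Ioo (0:ℝ) π, ((fun x => (4:ℝ)^s * (|x| ^ (s + 1/2 - 1) * |1 - x| ^ ((1:ℝ)/2 - 1))) ∘ (fun θ => (1 - cos θ)/2)) θ * (sin θ / 2) = w s θ := by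
    intro θ hθ
    exact pt_eq s θ hθ.1 hθ.2
  have himg : (fun θ : ℝ => (1 - cos θ)/2) '' Set.uIcc 0 π ⊆ Set.Icc 0 1 := by
    rintro x ⟨θ, -, rfl⟩
    constructor
    · have := cos_le_one θ; simp only; linarith
    · have := neg_one_le_cos θ; simp only; linarith
  have h1 := integral_comp_mul_deriv''' (a := 0) (b := π) (f := fun θ => (1 - cos θ)/2) (f' := fun θ => sin θ / 2)
    (g := fun x => (4:ℝ)^s * (|x| ^ (s + 1/2 - 1) * |1 - x| ^ ((1:ℝ)/2 - 1)))
    (by fun_prop)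
    (by
      intro x _
      have h0 := ((hasDerivAt_cos x).const_sub 1).div_const 2
      have h2 : HasDerivAt (fun θ => (1 - cos θ)/2) (sin x / 2) x := h0.congr_deriv (by ring)
      exact h2.hasDerivWithinAt)
    (by
      rintro x ⟨θ, hθ, rfl⟩
      rw [min_eq_left pi_pos.le, max_eq_right pi_pos.le] at hθ
      apply ContinuousAt.continuousWithinAt
      have hc1 : cos θ < 1 := by
        have := cos_lt_cos_of_nonneg_of_le_pi le_rfl hθ.2.le hθ.1
        rwa [cos_zero] at this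
      have hc2 : -1 < cos θ := by
        have := cos_lt_cos_of_nonneg_of_le_pi hθ.1.le le_rfl hθ.2
        rwa [cos_pi] at this
      have hx0 : (1 - cos θ)/2 ≠ 0 := by intro h; linarith
      have hx1 : 1 - (1 - cos θ)/2 ≠ 0 := by intro h; linarith
      apply ContinuousAt.mul continuousAt_const
      apply ContinuousAt.mul
      · exact (continuous_abs.continuousAt).rpow_const (Or.inl (by simpa using hx0))
      · exact ((continuous_abs.comp (continuous_const.sub continuous_id)).continuousAt).rpow_const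
          (Or.inl (by simpa using hx1)))
    (by
      have h2 := ((bi_int (s+1/2) (1/2) (by linarith) (by norm_num)).const_mul ((4:ℝ)^s))
      rw [intervalIntegrable_iff_integrableOn_Icc_of_le zero_le_one] at h2
      exact h2.mono_set himg)
    (by
      rw [Set.uIcc_of_le pi_pos.le, integrableOn_Icc_iff_integrableOn_Ioo]
      apply IntegrableOn.congr_fun _ (fun θ hθ => (hcong θ hθ).symm) measurableSet_Ioo
      exact (hw.integrableOn_Icc).mono_set Set.Ioo_subset_Icc_self)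
  rw [show (1 - cos π)/2 = 1 by rw [cos_pi]; norm_num, show (1 - cos 0)/2 = 0 by rw [cos_zero]; norm_num] at h1
  have h3 : ∫ u in (0:ℝ)..1, (4:ℝ)^s * (|u| ^ (s + 1/2 - 1) * |1 - u| ^ ((1:ℝ)/2 - 1)) = 4^s * bi (s+1/2) (1/2) := by
    rw [intervalIntegral.integral_const_mul]; rfl
  rw [h3] at h1
  rw [← h1, intervalIntegral.integral_of_le pi_pos.le, intervalIntegral.integral_of_le pi_pos.le,
    integral_Ioc_eq_integral_Ioo, integral_Ioc_eq_integral_Ioo]
  exact (setIntegral_congr_fun measurableSet_Ioo hcong).symm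

theorem J0_eq (s : ℝ) (hs : 0 ≤ s) : J s 0 = 2 * π * Real.Gamma (2*s+1) / Real.Gamma (s+1) ^ 2 := by
  have hw := w_cont s hs
  have h1 : J s 0 = 2 * ∫ θ in (0:ℝ)..π, w s θ := by
    rw [f_zero_eq, ← integral_add_adjacent_intervals (b := 0) (hw.intervalIntegrable _ _) (hw.intervalIntegrable _ _)]
    have h2 : ∫ θ in (-π)..0, w s θ = ∫ θ in (0:ℝ)..π, w s θ := by
      have h3 := intervalIntegral.integral_comp_neg (a := 0) (b := π) (w s)
      rw [neg_zero] at h3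
      rw [← h3]
      congr 1; ext θ; unfold w; rw [cos_neg]
    rw [h2]; ring
  have hG : 0 < Real.Gamma (s+1) := Real.Gamma_pos_of_pos (by linarith)
  rw [h1, half_int s hs, bi_eq (s+1/2) (1/2) (by linarith) (by norm_num), Real.Gamma_one_half_eq,
    show s + 1/2 + 1/2 = s + 1 by ring]
  have h2 := Real.Gamma_mul_Gamma_add_half (s + 1/2)
  rw [show s + 1/2 + 1/2 = s + 1 by ring, show 2 * (s + 1/2) = 2*s+1 by ring, show 1 - (2*s+1) = -(2*s) by ring] at h2
  have h3 : (4:ℝ)^s * 2^(-(2*s)) = 1 := by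
    rw [show (4:ℝ) = 2^(2:ℝ) by norm_num, ← rpow_mul (by norm_num), ← rpow_add (by norm_num)]; norm_num
  have h4 : √π * √π = π := mul_self_sqrt pi_pos.le
  generalize Real.Gamma (s + 1/2) = A at *
  generalize Real.Gamma (s + 1) = B at *
  generalize Real.Gamma (2*s+1) = D at *
  generalize (4:ℝ)^s = f at *
  generalize (2:ℝ)^(-(2*s)) = g at *
  generalize √π = r at *
  rw [eq_div_iff (by positivity)]
  have hB : B ≠ 0 := hG.ne'
  have e1 : 2 * (f * (A * r / B)) * B^2 = 2 * f * r * (A * B) := by field_simp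
  rw [e1, h2]
  calc 2 * f * r * (D * g * r) = 2 * (f * g) * (r * r) * D := by ring
    _ = _ := by rw [h3, h4]; ring

end Pool.Agent.H402.Wl
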