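import Pool.Agent.H402.WlFam
import Pool.Agent.H402.WlGam

set_option autoImplicit false

namespace Pool.Agent.H402.Wl

open Real Finset MeasureTheory intervalIntegral Polynomial

lemma E_succ (s : ℝ) (hs : 0 ≤ s) (P : ℤ[X]) : E (s + 1) P = E s ((X - 1) * P) := by
  unfold E
  congr 1; ext θ
  have h1 : w (s + 1) θ = w s θ * (2 - 2 * cos θ) := by
    unfold w
    rw [Real.rpow_add_one' (base_nonneg θ) (by linarith)]
  rw [h1, map_mul, norm_mul, mul_pow, map_sub, map_one, aeval_X, norm_sub_rev, norm_one_sub_exp]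
  ring

lemma E_add (s : ℝ) (hs : 0 ≤ s) (k : ℕ) (P : ℤ[X]) : E (k + s) P = E s ((X - 1)^k * P) := by
  induction k generalizing P with
  | zero => simp
  | succ k ih =>
    rw [show (((k+1 : ℕ) : ℝ) + s) = (k + s) + 1 by push_cast; ring, E_succ _ (by positivity), ih]
    congr 1; ring

lemma E_C_mul (s : ℝ) (c : ℤ) (hc : c * c = 1) (P : ℤ[X]) : E s (C c * P) = E s P := by
  unfold E
  congr 1; ext θ
  rw [map_mul, norm_mul, mul_pow]
  have h1 : ‖aeval (Complex.exp (θ * Complex.I)) (C c)‖ ^ 2 = 1 := by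
    rw [aeval_C]
    simp only [algebraMap_int_eq, eq_intCast]
    rw [← Complex.normSq_eq_norm_sq, Complex.normSq_apply]
    have : (c:ℝ) * c = 1 := by exact_mod_cast hc
    simp [this]
  rw [h1, one_mul]

lemma QP_lead (m : ℕ) (e : ℕ → ℤ) (x : ℕ → ℕ) (he : e m ≠ 0) (hx : ∀ i, i < m → x i < x m) :
    (QP (m+1) e x).leadingCoeff = e m := by
  have h1 : QP (m+1) e x = QP m e x + C (e m) * X ^ (x m) := by
    unfold QP; rw [Finset.sum_range_succ]
  have h2 : (QP m e x).degree < (C (e m) * X ^ (x m)).degree := by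
    rw [degree_C_mul_X_pow _ he, degree_lt_iff_coeff_zero]
    intro n hn
    unfold QP
    rw [finsetSum_coeff]
    apply Finset.sum_eq_zero
    intro i hi
    rw [Finset.mem_range] at hi
    rw [coeff_C_mul_X_pow, if_neg]
    have := hx i hi
    omega
  rw [h1, leadingCoeff_add_of_degree_lt h2, leadingCoeff_C_mul_X_pow]

/-- from a sign-pattern polynomial divisible by `(X-1)^k` to a monic polynomial -/
lemma exists_monic (s : ℝ) (hs : 0 ≤ s) (k m : ℕ) (e : ℕ → ℤ) (x : ℕ → ℕ) (he : e m * e m = 1)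
    (hx : ∀ i, i < m → x i < x m) (hsum : ∀ l, l < k → ∑ i ∈ range (m+1), e i * (x i : ℤ)^l = 0) :
    ∃ P : ℤ[X], P.Monic ∧ E (k + s) P = E s (QP (m+1) e x) := by
  obtain ⟨P0, hP0⟩ := QP_dvd (m+1) e x k hsum
  have hX : ((X - 1 : ℤ[X])^k).Monic := by
    have : (X - 1 : ℤ[X]).Monic := by simpa using monic_X_sub_C (1:ℤ)
    exact this.pow k
  have hl : P0.leadingCoeff = e m := by
    have h1 := QP_lead m e x (fun h => by rw [h] at he; norm_num at he) hx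
    rw [hP0, leadingCoeff_mul, hX.leadingCoeff, one_mul] at h1
    exact h1
  refine ⟨C (e m) * P0, ?_, ?_⟩
  · unfold Monic
    rw [leadingCoeff_mul, leadingCoeff_C, hl, he]
  · rw [E_add s hs, hP0, show (X - 1 : ℤ[X])^k * (C (e m) * P0) = C (e m) * ((X-1)^k * P0) by ring,
      E_C_mul s _ he]

/-- the sharp constant -/
noncomputable def Lk (k : ℕ) (s : ℝ) : ℝ := 2 * k * J s 0 + 2 * ((k:ℝ) - 1) * J s 1

lemma J1_eq (s : ℝ) (hs : 0 ≤ s) : (1 + s) * J s 1 = - s * J s 0 := by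
  have := J_rec s hs 0
  simp only [Nat.cast_zero, zero_add, zero_sub] at this
  exact this

lemma Lk_eq (k : ℕ) (s : ℝ) (hs : 0 ≤ s) : Lk k s = 2 * (k + s) / (1 + s) * J s 0 := by
  have h1 := J1_eq s hs
  have hp : (1 + s) ≠ 0 := by positivity
  have h2 : J s 1 = - s * J s 0 / (1 + s) := by rw [eq_div_iff hp]; linarith
  unfold Lk
  rw [h2]
  field_simp; ring

lemma lower (k : ℕ) (hk : 1 ≤ k) (s : ℝ) (h0 : 0 ≤ s) (h1 : s ≤ 1) (P : ℤ[X]) (hP : P ≠ 0) :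
    Lk k s ≤ E (k + s) P := by
  obtain ⟨j, rfl⟩ := Nat.exists_eq_succ_of_ne_zero (by omega : k ≠ 0)
  rw [E_add s h0]
  refine le_trans (le_of_eq ?_) (E_ge_pow s h0 h1 j P hP)
  rw [Lk_eq _ s h0]
  have hp : (1 + s) ≠ 0 := by positivity
  push_cast
  field_simp; ring

lemma upper_of_fam (k : ℕ) (hk : 1 ≤ k) (s : ℝ) (h0 : 0 ≤ s) (h1 : s ≤ 1)
    (hBd : ∀ a b d : ℝ, 0 ≤ d → ∑ i ∈ range (2*k-1+1), ∑ j ∈ range (2*k-1+1), Bd a b d i j ≤ 2*k * a + 2 * ((k:ℝ)-1) * b + 100 * d)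
    (hfam : ∀ G : ℕ, 1 ≤ G → ∃ x : ℕ → ℕ, Pat (2*k-1+1) G x ∧ ∀ l, l < k → ∑ i ∈ range (2*k-1+1), sg i * (x i : ℤ)^l = 0)
    (b : ℝ) (hb : ∀ P : ℤ[X], P.Monic → b ≤ E (k + s) P) : b ≤ Lk k s := by
  have key : ∀ n : ℕ, b ≤ Lk k s + 100 * (J s 0 * (1 / ((n:ℝ) + 1))) := by
    intro n
    obtain ⟨x, hpat, hsum⟩ := hfam (n+1) (by omega)
    have hlast : ∀ i, i < 2*k-1 → x i < x (2*k-1) := by
      intro i hi
      by_cases hne : (2*k-1 = i + 1 ∧ i % 2 = 1)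
      · omega
      · have := hpat.far i (2*k-1) hi (by omega) hne
        omega
    obtain ⟨P, hP, hE⟩ := exists_monic s h0 k (2*k-1) sg x (sg_sq _) hlast hsum
    have h2 := hb P hP
    have h3 := E_pat_le s h0 h1 (2*k-1+1) (n+1) (by omega) x hpat
    have h4 := hBd (J s 0) (J s 1) (J s 0 / ((n+1 : ℕ):ℝ)) (div_nonneg (J0_nonneg s) (Nat.cast_nonneg _))
    rw [hE] at h2
    have h5 : J s 0 * (1 / ((n:ℝ) + 1)) = J s 0 / ((n+1 : ℕ):ℝ) := by push_cast; ring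
    rw [h5]
    unfold Lk
    linarith
  have hlim : Filter.Tendsto (fun n : ℕ => Lk k s + 100 * (J s 0 * (1 / ((n : ℝ) + 1)))) Filter.atTop
      (nhds (Lk k s + 100 * (J s 0 * 0))) :=
    ((tendsto_one_div_add_atTop_nhds_zero_nat.const_mul _).const_mul _).const_add _
  have := ge_of_tendsto' hlim key
  simpa using this

lemma upper_five (k : ℕ) (hk : 1 ≤ k) (hk5 : k ≤ 5) (s : ℝ) (h0 : 0 ≤ s) (h1 : s ≤ 1)
    (b : ℝ) (hb : ∀ P : ℤ[X], P.Monic → b ≤ E (k + s) P) : b ≤ Lk k s := by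
  apply upper_of_fam k hk s h0 h1 _ _ b hb
  · intro a b d hd
    interval_cases k
    · refine le_trans (Bd_sum1 a b d hd) (le_of_eq ?_); norm_num
    · refine le_trans (Bd_sum2 a b d hd) (le_of_eq ?_); norm_num
    · refine le_trans (Bd_sum3 a b d hd) (le_of_eq ?_); norm_num
    · refine le_trans (Bd_sum4 a b d hd) (le_of_eq ?_); norm_num
    · refine le_trans (Bd_sum5 a b d hd) (le_of_eq ?_); norm_num
  · intro G hG
    interval_cases k
    · exact ⟨pos (pat1 G), pat1_pat G G le_rfl, pat1_sum G⟩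
    · exact ⟨pos (pat2 G), pat2_pat G G le_rfl, pat2_sum G⟩
    · exact ⟨pos (pat3 G), pat3_pat G G le_rfl, pat3_sum G⟩
    · obtain ⟨g, e, h2, h3, h4⟩ := pat4_eqs G
      exact ⟨pos (pat4 g e), pat4_pat g e G h2 h3, pat4_sum g e h4⟩
    · obtain ⟨g, e, h2, h3, h4⟩ := pat5_eqs G
      exact ⟨pos (pat5 g e), pat5_pat g e G h2 h3, pat5_sum g e h4⟩

/-- closed form of the constant -/
lemma Lk_closed (k : ℕ) (s : ℝ) (hs : 0 ≤ s) :
    Lk k s = 4 * π * (k + s) * Real.Gamma (2*s+1) / (Real.Gamma (s+1) * Real.Gamma (s+2)) := by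
  rw [Lk_eq k s hs, J0_eq s hs]
  have hG : 0 < Real.Gamma (s+1) := Real.Gamma_pos_of_pos (by linarith)
  have h2 : Real.Gamma (s+2) = (s+1) * Real.Gamma (s+1) := by
    rw [show s + 2 = (s+1) + 1 by ring, Real.Gamma_add_one (by linarith)]
  rw [h2]
  have hp : (1 + s) ≠ 0 := by positivity
  have hp' : (s + 1) ≠ 0 := by positivity
  field_simp
  ring

end Pool.Agent.H402.Wl
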