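import Pool.Agent.H402.WlB1
import Pool.Agent.H402.WlB3

set_option autoImplicit false

namespace Pool.Agent.H402.Wl

/-- number of sign changes in `L`, starting from the sign `s` -/
noncomputable def NS : SignType → List ℤ → ℕ
  | _, [] => 0
  | s, p :: L => if SignType.sign p = 0 ∨ SignType.sign p = s then NS s L else NS (SignType.sign p) L + 1

noncomputable def Gc (ρ : ℝ) : ℝ → ℤ → List ℤ → ℝ
  | u, p, [] => 2*(1-ρ)*((((0 - p : ℤ)) : ℝ)*(((0 - p : ℤ) : ℝ) - u))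
  | u, p, p' :: L => 2*(1-ρ)*((((p' - p : ℤ)) : ℝ)*(((p' - p : ℤ) : ℝ) - u)) + Gc ρ (ρ*u + (1-ρ)*((p' - p : ℤ) : ℝ)) p' L

lemma bb_nn_id (ρ u q : ℝ) : 2*(1-ρ)*(q*(q-u)) = (1-ρ^2)*(q-u)^2 + (ρ*u+(1-ρ)*q)^2 - u^2 := by ring

/-- The four invariants. -/
lemma main_ind (ρ : ℝ) (h0 : 0 ≤ ρ) (h1 : ρ < 1) (L : List ℤ) : ∀ u : ℝ,
    (∀ p : ℤ, 1 ≤ p → 2*(1-ρ^2)*(NS 1 L) + 2*(1-ρ) + bb ρ u ≤ u^2 + Gc ρ u p L) ∧
    (2*(1-ρ^2)*(NS 1 L) + aa ρ u ≤ u^2 + Gc ρ u 0 L) ∧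
    (∀ p : ℤ, p ≤ -1 → 2*(1-ρ^2)*(NS (-1) L) + 2*(1-ρ) + bb ρ (-u) ≤ u^2 + Gc ρ u p L) ∧
    (2*(1-ρ^2)*(NS (-1) L) + aa ρ (-u) ≤ u^2 + Gc ρ u 0 L) := by
  induction L with
  | nil =>
    intro u
    refine ⟨fun p hp => ?_, ?_, fun p hp => ?_, ?_⟩
    · unfold Gc NS
      have hq : (((0 - p : ℤ)) : ℝ) ≤ -1 := by exact_mod_cast (by omega : 0 - p ≤ -1)
      generalize (((0 - p : ℤ)) : ℝ) = q at *
      have := bell2 ρ u q h0 h1 hq
      have := aa_le ρ (ρ*u+(1-ρ)*q) h0 h1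
      rw [bb_nn_id]; push_cast; linarith
    · unfold Gc NS
      have := aa_le ρ u h0 h1
      push_cast; linarith
    · unfold Gc NS
      have hq : -(((0 - p : ℤ)) : ℝ) ≤ -1 := by
        have : (1 : ℝ) ≤ (((0 - p : ℤ)) : ℝ) := by exact_mod_cast (by omega : 1 ≤ 0 - p)
        linarith
      generalize (((0 - p : ℤ)) : ℝ) = q at *
      have h2 := bell2 ρ (-u) (-q) h0 h1 hq
      have h3 := aa_le ρ (ρ*(-u)+(1-ρ)*(-q)) h0 h1
      rw [bb_nn_id]; push_cast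
      have e1 : (-q - -u)^2 = (q-u)^2 := by ring
      have e2 : (ρ*(-u)+(1-ρ)*(-q))^2 = (ρ*u+(1-ρ)*q)^2 := by ring
      rw [e1] at h2; rw [e2] at h3
      linarith
    · unfold Gc NS
      have := aa_le ρ (-u) h0 h1
      push_cast; linarith
  | cons p' L ih =>
    intro u
    refine ⟨fun p hp => ?_, ?_, fun p hp => ?_, ?_⟩
    · unfold Gc NS
      rcases lt_trichotomy p' 0 with h | h | h
      · have hs : SignType.sign p' = -1 := sign_neg h
        rw [hs, if_neg (by decide)]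
        have hq : (((p' - p : ℤ)) : ℝ) ≤ -2 := by exact_mod_cast (by omega : p' - p ≤ -2)
        generalize (((p' - p : ℤ)) : ℝ) = q at *
        obtain ⟨-, -, i3, -⟩ := ih (ρ*u+(1-ρ)*q)
        have i3 := i3 p' (by omega)
        have b3 := bell3 ρ u q h0 h1 hq
        rw [bb_nn_id]; push_cast; linarith
      · subst h
        rw [sign_zero, if_pos (Or.inl rfl)]
        have hq : (((0 - p : ℤ)) : ℝ) ≤ -1 := by exact_mod_cast (by omega : 0 - p ≤ -1)
        generalize (((0 - p : ℤ)) : ℝ) = q at *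
        obtain ⟨-, i2, -, -⟩ := ih (ρ*u+(1-ρ)*q)
        have b2 := bell2 ρ u q h0 h1 hq
        rw [bb_nn_id]; linarith
      · have hs : SignType.sign p' = 1 := sign_pos h
        rw [hs, if_pos (Or.inr rfl)]
        have b1 := bell1 ρ u (p' - p) h0 h1
        generalize (((p' - p : ℤ)) : ℝ) = q at *
        obtain ⟨i1, -, -, -⟩ := ih (ρ*u+(1-ρ)*q)
        have i1 := i1 p' (by omega)
        rw [bb_nn_id]; linarith
    · unfold Gc NS
      rcases lt_trichotomy p' 0 with h | h | h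
      · have hs : SignType.sign p' = -1 := sign_neg h
        rw [hs, if_neg (by decide)]
        have hq : (((p' - 0 : ℤ)) : ℝ) ≤ -1 := by exact_mod_cast (by omega : p' - 0 ≤ -1)
        generalize (((p' - 0 : ℤ)) : ℝ) = q at *
        obtain ⟨-, -, i3, -⟩ := ih (ρ*u+(1-ρ)*q)
        have i3 := i3 p' (by omega)
        have b5 := bell5 ρ u q h0 h1 hq
        rw [bb_nn_id]; push_cast; linarith
      · subst h
        rw [sign_zero, if_pos (Or.inl rfl)]
        obtain ⟨-, i2, -, -⟩ := ih (ρ*u+(1-ρ)*((0-0:ℤ) : ℝ))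
        have b6 := bell6 ρ u h0 h1
        have e1 : ρ*u+(1-ρ)*((0-0:ℤ) : ℝ) = ρ*u := by push_cast; ring
        rw [e1] at i2 ⊢
        have e2 : ((0-0:ℤ) : ℝ) = 0 := by norm_num
        rw [e2]
        have e3 : (1-ρ^2)*u^2 + (ρ*u)^2 = u^2 := by ring
        linarith
      · have hs : SignType.sign p' = 1 := sign_pos h
        rw [hs, if_pos (Or.inr rfl)]
        have hq : 1 ≤ (((p' - 0 : ℤ)) : ℝ) := by exact_mod_cast (by omega : 1 ≤ p' - 0)
        generalize (((p' - 0 : ℤ)) : ℝ) = q at *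
        obtain ⟨i1, -, -, -⟩ := ih (ρ*u+(1-ρ)*q)
        have i1 := i1 p' (by omega)
        have b4 := bell4 ρ u q h0 h1 hq
        rw [bb_nn_id]; linarith
    · unfold Gc NS
      rcases lt_trichotomy p' 0 with h | h | h
      · have hs : SignType.sign p' = -1 := sign_neg h
        rw [hs, if_pos (Or.inr rfl)]
        have b1 := bell1 ρ (-u) (-(p' - p)) h0 h1
        have e0 : (((-(p' - p) : ℤ)) : ℝ) = - (((p' - p : ℤ)) : ℝ) := by push_cast; ring
        rw [e0] at b1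
        generalize (((p' - p : ℤ)) : ℝ) = q at *
        obtain ⟨-, -, i3, -⟩ := ih (ρ*u+(1-ρ)*q)
        have i3 := i3 p' (by omega)
        have e1 : (-q - -u)^2 = (q-u)^2 := by ring
        have e2 : ρ*(-u)+(1-ρ)*(-q) = -(ρ*u+(1-ρ)*q) := by ring
        rw [e1, e2] at b1
        rw [bb_nn_id]; linarith
      · subst h
        rw [sign_zero, if_pos (Or.inl rfl)]
        have hq : -(((0 - p : ℤ)) : ℝ) ≤ -1 := by
          have : (1 : ℝ) ≤ (((0 - p : ℤ)) : ℝ) := by exact_mod_cast (by omega : 1 ≤ 0 - p)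
          linarith
        generalize (((0 - p : ℤ)) : ℝ) = q at *
        obtain ⟨-, -, -, i4⟩ := ih (ρ*u+(1-ρ)*q)
        have b2 := bell2 ρ (-u) (-q) h0 h1 hq
        have e1 : (-q - -u)^2 = (q-u)^2 := by ring
        have e2 : ρ*(-u)+(1-ρ)*(-q) = -(ρ*u+(1-ρ)*q) := by ring
        rw [e1, e2] at b2
        rw [bb_nn_id]; linarith
      · have hs : SignType.sign p' = 1 := sign_pos h
        rw [hs, if_neg (by decide)]
        have hq : -(((p' - p : ℤ)) : ℝ) ≤ -2 := by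
          have : (2 : ℝ) ≤ (((p' - p : ℤ)) : ℝ) := by exact_mod_cast (by omega : 2 ≤ p' - p)
          linarith
        generalize (((p' - p : ℤ)) : ℝ) = q at *
        obtain ⟨i1, -, -, -⟩ := ih (ρ*u+(1-ρ)*q)
        have i1 := i1 p' (by omega)
        have b3 := bell3 ρ (-u) (-q) h0 h1 hq
        have e1 : (-q - -u)^2 = (q-u)^2 := by ring
        have e2 : -(ρ*(-u)+(1-ρ)*(-q)) = (ρ*u+(1-ρ)*q) := by ring
        rw [e1, e2] at b3
        rw [bb_nn_id]; push_cast; linarith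
    · unfold Gc NS
      rcases lt_trichotomy p' 0 with h | h | h
      · have hs : SignType.sign p' = -1 := sign_neg h
        rw [hs, if_pos (Or.inr rfl)]
        have hq : 1 ≤ -(((p' - 0 : ℤ)) : ℝ) := by
          have : (((p' - 0 : ℤ)) : ℝ) ≤ -1 := by exact_mod_cast (by omega : p' - 0 ≤ -1)
          linarith
        generalize (((p' - 0 : ℤ)) : ℝ) = q at *
        obtain ⟨-, -, i3, -⟩ := ih (ρ*u+(1-ρ)*q)
        have i3 := i3 p' (by omega)
        have b4 := bell4 ρ (-u) (-q) h0 h1 hq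
        have e1 : (-q - -u)^2 = (q-u)^2 := by ring
        have e2 : ρ*(-u)+(1-ρ)*(-q) = -(ρ*u+(1-ρ)*q) := by ring
        rw [e1, e2] at b4
        rw [bb_nn_id]; linarith
      · subst h
        rw [sign_zero, if_pos (Or.inl rfl)]
        obtain ⟨-, -, -, i4⟩ := ih (ρ*u+(1-ρ)*((0-0:ℤ) : ℝ))
        have b6 := bell6 ρ (-u) h0 h1
        have e1 : ρ*u+(1-ρ)*((0-0:ℤ) : ℝ) = ρ*u := by push_cast; ring
        rw [e1] at i4 ⊢
        have e2 : ((0-0:ℤ) : ℝ) = 0 := by norm_num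
        rw [e2]
        have e3 : (1-ρ^2)*u^2 + (ρ*u)^2 = u^2 := by ring
        have e4 : ρ * (-u) = -(ρ*u) := by ring
        have e5 : (-u)^2 = u^2 := by ring
        rw [e4, e5] at b6
        linarith
      · have hs : SignType.sign p' = 1 := sign_pos h
        rw [hs, if_neg (by decide)]
        have hq : -(((p' - 0 : ℤ)) : ℝ) ≤ -1 := by
          have : (1 : ℝ) ≤ (((p' - 0 : ℤ)) : ℝ) := by exact_mod_cast (by omega : 1 ≤ p' - 0)
          linarith
        generalize (((p' - 0 : ℤ)) : ℝ) = q at *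
        obtain ⟨i1, -, -, -⟩ := ih (ρ*u+(1-ρ)*q)
        have i1 := i1 p' (by omega)
        have b5 := bell5 ρ (-u) (-q) h0 h1 hq
        have e1 : (-q - -u)^2 = (q-u)^2 := by ring
        have e2 : -(ρ*(-u)+(1-ρ)*(-q)) = (ρ*u+(1-ρ)*q) := by ring
        rw [e1, e2] at b5
        rw [bb_nn_id]; push_cast; linarith

/-- from the start, for a list with nonzero head -/
lemma Gc_start (ρ : ℝ) (h0 : 0 ≤ ρ) (h1 : ρ < 1) (p : ℤ) (hp : p ≠ 0) (L : List ℤ) :
    4*(1-ρ) + 2*(1-ρ^2)*(NS (SignType.sign p) L) ≤ Gc ρ 0 0 (p :: L) := by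
  unfold Gc
  have e1 : ρ*0+(1-ρ)*((p-0:ℤ) : ℝ) = (1-ρ)*p := by push_cast; ring
  rw [e1]
  have e2 : ((p-0:ℤ) : ℝ) = p := by push_cast; ring
  rw [e2]
  obtain ⟨i1, -, i3, -⟩ := main_ind ρ h0 h1 L ((1-ρ)*p)
  rcases lt_or_gt_of_ne hp with h | h
  · rw [sign_neg h]
    have i3 := i3 p (by omega)
    have b7 := bell7 ρ (-(p:ℝ)) h0 h1 (by
      have : (p : ℝ) ≤ -1 := by exact_mod_cast (by omega : p ≤ -1)
      linarith)
    have e3 : (1-ρ) * (-(p:ℝ)) = -((1-ρ)*p) := by ring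
    rw [e3] at b7
    linarith
  · rw [sign_pos h]
    have i1 := i1 p (by omega)
    have b7 := bell7 ρ (p:ℝ) h0 h1 (by exact_mod_cast (by omega : 1 ≤ p))
    linarith

end Pool.Agent.H402.Wl
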