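import Pool.Agent.H402.WlMom

set_option autoImplicit false

namespace Pool.Agent.H402.Wl

open Real Finset MeasureTheory intervalIntegral Polynomial

lemma cl_neg (u : ℝ) : cl (-u) = - cl u := by
  rcases cl_cases u with ⟨h, e⟩ | ⟨h, h', e⟩ | ⟨h, e⟩ <;>
  rcases cl_cases (-u) with ⟨h1, e1⟩ | ⟨h1, h1', e1⟩ | ⟨h1, e1⟩ <;>
  rw [e, e1] <;> linarith

lemma cl_sq_le (u : ℝ) : (cl u)^2 ≤ u^2 := by
  rcases cl_cases u with ⟨h, e⟩ | ⟨h, h', e⟩ | ⟨h, e⟩ <;> rw [e] <;> nlinarith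

lemma cl_sq_le_one (u : ℝ) : (cl u)^2 ≤ 1 := by
  rcases cl_cases u with ⟨h, e⟩ | ⟨h, h', e⟩ | ⟨h, e⟩ <;> rw [e] <;> nlinarith

lemma cl_sq_cases (u : ℝ) : (cl u)^2 = 1 ∨ (cl u)^2 = u^2 := by
  rcases cl_cases u with ⟨h, e⟩ | ⟨h, h', e⟩ | ⟨h, e⟩
  · left; rw [e]; norm_num
  · right; rw [e]
  · left; rw [e]; norm_num

lemma bell0_ge (ρ u q : ℝ) (h0 : 0 ≤ ρ) (h1 : ρ < 1) (hq : 1 ≤ q) :
    (cl u)^2 ≤ (1-ρ^2)*(q-u)^2 + (cl (ρ*u+(1-ρ)*q))^2 := by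
  have hr : 0 < 1 - ρ := by linarith
  have hs : 0 ≤ 1 - ρ^2 := by nlinarith
  have hsq := mul_nonneg hs (sq_nonneg (q-u))
  have hc := cl_sq_le_one u
  rcases cl_sq_cases (ρ*u+(1-ρ)*q) with e | e
  · rw [e]; linarith
  · rw [e, key_id']
    rcases le_total u 1 with h | h
    · have := cl_sq_le u
      have h2 := mul_nonneg hr.le (mul_nonneg (by linarith : 0 ≤ q) (by linarith : 0 ≤ q - u))
      linarith
    · have h2 : 1 ≤ ρ*u+(1-ρ)*q := by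
        nlinarith [mul_nonneg h0 (by linarith : 0 ≤ u - 1), mul_nonneg hr.le (by linarith : 0 ≤ q - 1)]
      rw [← key_id']
      nlinarith

lemma bell0_zero (ρ u : ℝ) (h0 : 0 ≤ ρ) (h1 : ρ < 1) :
    (cl u)^2 ≤ (1-ρ^2)*u^2 + (cl (ρ*u))^2 := by
  have hs : 0 ≤ 1 - ρ^2 := by nlinarith
  have hsq := mul_nonneg hs (sq_nonneg u)
  have hc := cl_sq_le_one u
  rcases cl_sq_cases (ρ*u) with e | e
  · rw [e]; linarith
  · rw [e]
    have := cl_sq_le u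
    nlinarith

lemma bell0 (ρ u : ℝ) (q : ℤ) (h0 : 0 ≤ ρ) (h1 : ρ < 1) :
    (cl u)^2 ≤ (1-ρ^2)*(q-u)^2 + (cl (ρ*u+(1-ρ)*q))^2 := by
  rcases lt_trichotomy q 0 with h | h | h
  · have := bell0_ge ρ (-u) (-q) h0 h1 (by
      have : (q:ℝ) ≤ -1 := by exact_mod_cast (by omega : q ≤ -1)
      linarith)
    rw [cl_neg, show ρ * -u + (1-ρ) * -(q:ℝ) = -(ρ*u+(1-ρ)*q) by ring, cl_neg] at this
    nlinarith
  · subst h; simpa using bell0_zero ρ u h0 h1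
  · exact bell0_ge ρ u q h0 h1 (by exact_mod_cast (by omega : 1 ≤ q))

lemma bell0_start (ρ q : ℝ) (h0 : 0 ≤ ρ) (h1 : ρ < 1) (hq : 1 ≤ q) :
    2*(1-ρ) ≤ (1-ρ^2)*q^2 + (cl ((1-ρ)*q))^2 := by
  have hr : 0 < 1 - ρ := by linarith
  have hs : 0 ≤ 1 - ρ^2 := by nlinarith
  rcases cl_cases ((1-ρ)*q) with ⟨h, e⟩ | ⟨h, h', e⟩ | ⟨h, e⟩ <;> rw [e]
  · have h : 1 ≤ (1-ρ)*q*q := by nlinarith
    have := mul_nonneg (by linarith : 0 ≤ 1 + ρ) (by linarith : 0 ≤ (1-ρ)*q*q - 1)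
    linarith
  · nlinarith [mul_nonneg hr.le (by nlinarith : 0 ≤ q^2 - 1)]
  · nlinarith [mul_nonneg hr.le (by linarith : 0 ≤ q)]

lemma Dl_ind (ρ : ℝ) (h0 : 0 ≤ ρ) (h1 : ρ < 1) (l : List ℤ) : ∀ u : ℝ,
    (cl u)^2 ≤ u^2 + (2*(1-ρ)*Dl ρ l - 2*(1-ρ)*u*Sl ρ l) := by
  induction l with
  | nil => intro u; simp only [Dl, Sl]; have := cl_sq_le u; linarith
  | cons q l ih =>
    intro u
    have h2 := ih (ρ*u+(1-ρ)*q)
    have h3 := bell0 ρ u q h0 h1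
    simp only [Dl, Sl]
    have := key_id' ρ u q
    nlinarith

lemma Dl_start (ρ : ℝ) (h0 : 0 ≤ ρ) (h1 : ρ < 1) (q : ℤ) (hq : q ≠ 0) (l : List ℤ) :
    1 ≤ Dl ρ (q :: l) := by
  have hr : 0 < 1 - ρ := by linarith
  have h2 := Dl_ind ρ h0 h1 l ((1-ρ)*q)
  have h3 : 2*(1-ρ) ≤ (1-ρ^2)*(q:ℝ)^2 + (cl ((1-ρ)*q))^2 := by
    rcases lt_or_gt_of_ne hq with h | h
    · have := bell0_start ρ (-q) h0 h1 (by
        have : (q:ℝ) ≤ -1 := by exact_mod_cast (by omega : q ≤ -1)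
        linarith)
      rw [show (1-ρ) * -(q:ℝ) = -((1-ρ)*q) by ring, cl_neg] at this
      nlinarith
    · exact bell0_start ρ q h0 h1 (by exact_mod_cast (by omega : 1 ≤ q))
  have h4 : (1-ρ) * 1 ≤ (1-ρ) * Dl ρ (q :: l) := by
    simp only [Dl]
    nlinarith
  exact le_of_mul_le_mul_left h4 hr

lemma F_gk_ge_one (ρ : ℝ) (h0 : 0 ≤ ρ) (h1 : ρ < 1) (P : ℤ[X]) (hP : P ≠ 0) :
    1 ≤ F (gk ρ) (P.natDegree + 1) P.coeff := by
  rw [F_gk, List.range_succ, List.reverse_append, List.reverse_singleton, List.singleton_append,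
    List.map_cons]
  exact Dl_start ρ h0 h1 _ (leadingCoeff_ne_zero.2 hP) _

lemma J_zero (n : ℕ) : J 0 n = J 0 0 * gk 1 n := by
  cases n with
  | zero => simp [gk]
  | succ n =>
    have := J_S 0 le_rfl n
    have hp : ((n:ℝ) + 1 + 0) ≠ 0 := by positivity
    have h2 : J 0 (n+1) = 0 := by
      have h3 : ((n:ℝ) + 1 + 0) * J 0 (n+1) = 0 := by rw [this]; ring
      exact (mul_eq_zero.1 h3).resolve_left hp
    rw [h2]; simp [gk]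

lemma J_one (n : ℕ) : J 1 n = J 1 0 * gk 0 n := by
  have h1 : J 1 1 = - J 1 0 / 2 := by
    have := J_rec 1 zero_le_one 0
    simp only [Nat.cast_zero, zero_add] at this
    linarith
  have h2 : ∀ m : ℕ, J 1 (m+2) = 0 := by
    intro m
    induction m with
    | zero =>
      have := J_rec 1 zero_le_one 1
      norm_num at this
      simpa using this
    | succ m ih =>
      have := J_rec 1 zero_le_one (m+2)
      rw [ih, mul_zero] at this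
      have hp : (((m+2:ℕ):ℝ) + 1 + 1) ≠ 0 := by positivity
      exact (mul_eq_zero.1 this).resolve_left hp
  match n with
  | 0 => simp [gk]
  | 1 => rw [h1]; simp [gk]; ring
  | m+2 => rw [h2]; simp [gk]

lemma F_smul (c : ℝ) (f g : ℕ → ℝ) (h : ∀ n, f n = c * g n) (N : ℕ) (a : ℕ → ℤ) : F f N a = c * F g N a := by
  unfold F
  rw [Finset.mul_sum]
  apply Finset.sum_congr rfl; intro j _
  rw [Finset.mul_sum]
  apply Finset.sum_congr rfl; intro k _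
  rw [h]; ring

lemma F_J_ge (μ : ℝ) (h0 : 0 ≤ μ) (h1 : μ ≤ 1) (N : ℕ) (a : ℕ → ℤ) (c d : ℝ)
    (h : ∀ ρ : ℝ, 0 ≤ ρ → ρ < 1 → c + d * (1 + ρ) ≤ F (gk ρ) N a) :
    J μ 0 * (c + 2 * d / (1 + μ)) ≤ F (J μ) N a := by
  rcases eq_or_lt_of_le h0 with e | h0'
  · subst e
    rw [F_smul (J 0 0) (J 0) (gk 1) J_zero]
    apply mul_le_mul_of_nonneg_left _ (J0_nonneg 0)
    have hc := (F_cont N a).tendsto 1
    have h2 : Filter.Tendsto (fun ρ : ℝ => c + d*(1+ρ)) (nhdsWithin 1 (Set.Iio 1)) (nhds (c + d * (1+1))) := by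
      have : Continuous (fun ρ : ℝ => c + d*(1+ρ)) := by fun_prop
      exact (this.tendsto 1).mono_left nhdsWithin_le_nhds
    have h3 := le_of_tendsto_of_tendsto h2 (hc.mono_left (nhdsWithin_le_nhds (s := Set.Iio 1))) (by
      have : Set.Ioo (0:ℝ) 1 ∈ nhdsWithin (1:ℝ) (Set.Iio 1) := Ioo_mem_nhdsLT one_pos
      filter_upwards [this] with ρ hρ
      exact h ρ hρ.1.le hρ.2)
    refine le_trans (le_of_eq ?_) h3
    ring
  · rcases eq_or_lt_of_le h1 with e | h1'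
    · subst e
      rw [F_smul (J 1 0) (J 1) (gk 0) J_one]
      apply mul_le_mul_of_nonneg_left _ (J0_nonneg 1)
      refine le_trans (le_of_eq ?_) (h 0 le_rfl one_pos)
      ring
    · exact F_mix_ge μ h0' h1' N a c d h

theorem E_ge_zero' (μ : ℝ) (h0 : 0 ≤ μ) (h1 : μ ≤ 1) (P : ℤ[X]) (hP : P ≠ 0) :
    J μ 0 ≤ E μ P := by
  rw [E_eq μ h0 P (P.natDegree + 1) (Nat.lt_succ_self _)]
  have := F_J_ge μ h0 h1 (P.natDegree + 1) P.coeff 1 0 (fun ρ hρ0 hρ1 => by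
    have := F_gk_ge_one ρ hρ0 hρ1 P hP; linarith)
  simpa using this

theorem E_ge_pow (μ : ℝ) (h0 : 0 ≤ μ) (h1 : μ ≤ 1) (k : ℕ) (P : ℤ[X]) (hP : P ≠ 0) :
    J μ 0 * (2 + 2 * k / (1 + μ)) ≤ E μ ((X - 1)^(k+1) * P) := by
  rw [E_eq μ h0 _ (((X - 1)^(k+1) * P).natDegree + 1) (Nat.lt_succ_self _)]
  exact F_J_ge μ h0 h1 _ _ 2 k (fun ρ hρ0 hρ1 => 
    F_gk_ge ρ hρ0 hρ1 k P hP _ (Nat.lt_succ_self _))

end Pool.Agent.H402.Wl
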