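import Pool.Agent.H402.WlTrig

set_option autoImplicit false

namespace Pool.Agent.H402.Wl

open Real Finset MeasureTheory intervalIntegral

noncomputable def wt (μ x : ℝ) : ℝ := |x| ^ (-μ) * |1 - x| ^ (2*μ-1)

lemma wt_nonneg (μ x : ℝ) : 0 ≤ wt μ x := mul_nonneg (rpow_nonneg (abs_nonneg _) _) (rpow_nonneg (abs_nonneg _) _)

lemma wt_int (μ : ℝ) (h0 : 0 < μ) (h1 : μ < 1) : IntervalIntegrable (wt μ) volume 0 1 := by
  have h := (Complex.betaIntegral_convergent (u := ((1 - μ : ℝ) : ℂ)) (v := ((2*μ : ℝ) : ℂ))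
    (by simpa using h1) (by simpa using h0)).norm
  refine h.congr ?_
  intro x _
  unfold wt
  show ‖(x:ℂ) ^ (((1 - μ : ℝ) : ℂ) - 1) * (1 - (x:ℂ)) ^ (((2 * μ : ℝ) : ℂ) - 1)‖ = _
  rw [norm_mul]
  have e1 : ((1 - μ : ℝ) : ℂ) - 1 = ((-μ : ℝ) : ℂ) := by push_cast; ring
  have e2 : ((2*μ : ℝ) : ℂ) - 1 = ((2*μ - 1 : ℝ) : ℂ) := by push_cast; ring
  rw [e1, e2, Complex.norm_cpow_real, Complex.norm_cpow_real]
  have e3 : (1 - (x : ℂ)) = ((1 - x : ℝ) : ℂ) := by push_cast; ring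
  rw [e3, Complex.norm_real, Complex.norm_real, Real.norm_eq_abs, Real.norm_eq_abs]

lemma wt_mul_int (μ : ℝ) (h0 : 0 < μ) (h1 : μ < 1) (g : ℝ → ℝ) (hg : Continuous g) :
    IntervalIntegrable (fun x => wt μ x * g x) volume 0 1 :=
  (wt_int μ h0 h1).mul_continuousOn hg.continuousOn

noncomputable def Im (μ : ℝ) (n : ℕ) : ℝ := ∫ x in (0:ℝ)..1, wt μ x * x ^ n

lemma h_deriv (μ x : ℝ) (hx0 : 0 < x) (hx1 : x < 1) (n : ℕ) :
    HasDerivAt (fun x : ℝ => x ^ ((n:ℝ) + 1 - μ) * (1 - x) ^ (2*μ))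
      (wt μ x * (((n:ℝ) + 1 - μ) * x^n - ((n:ℝ) + 1 + μ) * x^(n+1))) x := by
  have h1 : HasDerivAt (fun x : ℝ => x ^ ((n:ℝ) + 1 - μ)) (((n:ℝ) + 1 - μ) * x ^ ((n:ℝ) + 1 - μ - 1)) x :=
    Real.hasDerivAt_rpow_const (Or.inl hx0.ne')
  have h2 : HasDerivAt (fun x : ℝ => (1 - x) ^ (2*μ)) (-1 * (2*μ) * (1-x)^(2*μ - 1)) x := by
    have h3 : HasDerivAt (fun x : ℝ => 1 - x) (-1) x := by
      simpa using (hasDerivAt_id x).const_sub 1
    exact h3.rpow_const (Or.inl (by linarith : (1:ℝ) - x ≠ 0))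
  refine (h1.mul h2).congr_deriv ?_
  have hx1' : 0 < 1 - x := by linarith
  unfold wt
  rw [abs_of_pos hx0, abs_of_pos hx1']
  have e1 : x ^ ((n:ℝ) + 1 - μ - 1) = x ^ (-μ) * x ^ n := by
    rw [← rpow_add_natCast hx0.ne']; congr 1; ring
  have e2 : x ^ ((n:ℝ) + 1 - μ) = x ^ (-μ) * x ^ (n+1) := by
    rw [← rpow_add_natCast hx0.ne']; congr 1; push_cast; ring
  have e3 : (1-x) ^ (2*μ) = (1-x)^(2*μ-1) * (1-x) := by
    rw [← rpow_add_one hx1'.ne']; congr 1; ring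
  rw [e1, e2, e3]; ring

lemma Im_rec (μ : ℝ) (h0 : 0 < μ) (h1 : μ < 1) (n : ℕ) :
    ((n:ℝ) + 1 + μ) * Im μ (n+1) = ((n:ℝ) + 1 - μ) * Im μ n := by
  have hn : (0:ℝ) ≤ n := Nat.cast_nonneg n
  have hc : ContinuousOn (fun x : ℝ => x ^ ((n:ℝ) + 1 - μ) * (1 - x) ^ (2*μ)) (Set.Icc 0 1) := by
    apply ContinuousOn.mul
    · exact (continuous_id.rpow_const (fun x => Or.inr (by linarith))).continuousOn
    · exact ((continuous_const.sub continuous_id).rpow_const (fun x => Or.inr (by linarith))).continuousOn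
  have hint := wt_mul_int μ h0 h1 (fun x => (((n:ℝ) + 1 - μ) * x^n - ((n:ℝ) + 1 + μ) * x^(n+1))) (by fun_prop)
  have h2 := integral_eq_sub_of_hasDerivAt_of_le (a := 0) (b := 1) zero_le_one hc
    (fun x hx => h_deriv μ x hx.1 hx.2 n) hint
  rw [zero_rpow (by linarith), sub_self, zero_rpow (by linarith)] at h2
  have h3 : ∫ x in (0:ℝ)..1, wt μ x * (((n:ℝ) + 1 - μ) * x^n - ((n:ℝ) + 1 + μ) * x^(n+1))
      = ((n:ℝ) + 1 - μ) * Im μ n - ((n:ℝ) + 1 + μ) * Im μ (n+1) := by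
    unfold Im
    rw [← intervalIntegral.integral_const_mul, ← intervalIntegral.integral_const_mul,
      ← intervalIntegral.integral_sub]
    · congr 1; ext x; ring
    · exact (wt_mul_int μ h0 h1 (fun x => x^n) (by fun_prop)).const_mul _
    · exact (wt_mul_int μ h0 h1 (fun x => x^(n+1)) (by fun_prop)).const_mul _
  rw [h3] at h2
  linarith

lemma Im0_pos (μ : ℝ) (h0 : 0 < μ) (h1 : μ < 1) : 0 < Im μ 0 := by
  unfold Im
  simp only [pow_zero, mul_one]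
  apply intervalIntegral.intervalIntegral_pos_of_pos_on (wt_int μ h0 h1) _ zero_lt_one
  intro x hx
  unfold wt
  have : 0 < |x| := abs_pos.2 hx.1.ne'
  have : 0 < |1 - x| := abs_pos.2 (by linarith [hx.2] : (1:ℝ) - x ≠ 0)
  positivity

lemma S_Im (μ : ℝ) (h0 : 0 < μ) (h1 : μ < 1) (n : ℕ) : S μ n * Im μ 0 = J μ 0 * Im μ n := by
  induction n with
  | zero => simp [S]
  | succ n ih =>
    have hn : (0:ℝ) ≤ n := Nat.cast_nonneg n
    have h2 := Im_rec μ h0 h1 n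
    have h3 := J_S μ h0.le n
    have h4 := S_succ μ n
    have hp : ((n:ℝ) + 1 + μ) ≠ 0 := by positivity
    have h5 : ((n:ℝ) + 1 + μ) * S μ (n+1) = ((n:ℝ) + 1 - μ) * S μ n := by
      rw [h4]; linear_combination 2 * h3
    apply mul_left_cancel₀ hp
    calc ((n:ℝ) + 1 + μ) * (S μ (n+1) * Im μ 0) = (((n:ℝ) + 1 + μ) * S μ (n+1)) * Im μ 0 := by ring
      _ = ((n:ℝ) + 1 - μ) * (S μ n * Im μ 0) := by rw [h5]; ring
      _ = J μ 0 * (((n:ℝ) + 1 - μ) * Im μ n) := by rw [ih]; ring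
      _ = _ := by rw [← h2]; ring

lemma gk_cont (n : ℕ) : Continuous (fun ρ => gk ρ n) := by
  cases n with
  | zero => simp only [gk]; fun_prop
  | succ n => simp only [gk]; fun_prop

lemma J_mix (μ : ℝ) (h0 : 0 < μ) (h1 : μ < 1) (n : ℕ) :
    J μ n * Im μ 0 = J μ 0 * ∫ ρ in (0:ℝ)..1, wt μ ρ * gk ρ n := by
  cases n with
  | zero => simp [gk, Im]
  | succ n =>
    have h2 : ∫ ρ in (0:ℝ)..1, wt μ ρ * gk ρ (n+1) = (Im μ (n+1) - Im μ n) / 2 := by
      unfold Im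
      rw [← intervalIntegral.integral_sub, ← intervalIntegral.integral_div]
      · congr 1; ext x; simp only [gk]; ring
      · exact (wt_mul_int μ h0 h1 (fun x => x^(n+1)) (by fun_prop))
      · exact (wt_mul_int μ h0 h1 (fun x => x^n) (by fun_prop))
    have h3 := S_succ μ n
    have h4 := S_Im μ h0 h1 n
    have h5 := S_Im μ h0 h1 (n+1)
    rw [h2]
    have h6 : J μ (n+1) = (S μ (n+1) - S μ n)/2 := by linarith
    rw [h6]; linear_combination (h5 - h4)/2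

lemma F_cont (N : ℕ) (a : ℕ → ℤ) : Continuous (fun ρ => F (gk ρ) N a) := by
  unfold F
  apply continuous_finsetSum; intro j _
  apply continuous_finsetSum; intro k _
  exact continuous_const.mul (gk_cont _)

lemma F_mix (μ : ℝ) (h0 : 0 < μ) (h1 : μ < 1) (N : ℕ) (a : ℕ → ℤ) :
    F (J μ) N a * Im μ 0 = J μ 0 * ∫ ρ in (0:ℝ)..1, wt μ ρ * F (gk ρ) N a := by
  have h2 : ∀ ρ : ℝ, wt μ ρ * F (gk ρ) N a = ∑ j ∈ range N, ∑ k ∈ range N, ((a j : ℝ) * (a k : ℝ)) * (wt μ ρ * gk ρ (dst j k)) := by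
    intro ρ; unfold F; rw [Finset.mul_sum]
    apply Finset.sum_congr rfl; intro j _
    rw [Finset.mul_sum]
    apply Finset.sum_congr rfl; intro k _
    ring
  simp_rw [h2]
  rw [intervalIntegral.integral_finsetSum, Finset.mul_sum]
  · unfold F
    rw [Finset.sum_mul]
    apply Finset.sum_congr rfl; intro j _
    rw [intervalIntegral.integral_finsetSum, Finset.mul_sum, Finset.sum_mul]
    · apply Finset.sum_congr rfl; intro k _
      rw [intervalIntegral.integral_const_mul]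
      have := J_mix μ h0 h1 (dst j k)
      linear_combination (a j : ℝ) * (a k : ℝ) * this
    · intro k _
      exact (wt_mul_int μ h0 h1 _ (gk_cont _)).const_mul _
  · intro j _
    have h3 : (fun ρ => ∑ k ∈ range N, ((a j : ℝ) * (a k : ℝ)) * (wt μ ρ * gk ρ (dst j k)))
        = fun ρ => wt μ ρ * ∑ k ∈ range N, ((a j : ℝ) * (a k : ℝ)) * gk ρ (dst j k) := by
      ext ρ; rw [Finset.mul_sum]
      apply Finset.sum_congr rfl; intro k _; ring
    rw [h3]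
    apply wt_mul_int μ h0 h1
    apply continuous_finsetSum; intro k _
    exact continuous_const.mul (gk_cont _)

lemma F_mix_ge (μ : ℝ) (h0 : 0 < μ) (h1 : μ < 1) (N : ℕ) (a : ℕ → ℤ) (c d : ℝ)
    (h : ∀ ρ : ℝ, 0 ≤ ρ → ρ < 1 → c + d * (1 + ρ) ≤ F (gk ρ) N a) :
    J μ 0 * (c + 2 * d / (1 + μ)) ≤ F (J μ) N a := by
  have h2 := F_mix μ h0 h1 N a
  have h3 : ∫ ρ in (0:ℝ)..1, wt μ ρ * (c + d * (1 + ρ)) ≤ ∫ ρ in (0:ℝ)..1, wt μ ρ * F (gk ρ) N a := by
    apply intervalIntegral.integral_mono_on_of_le_Ioo zero_le_one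
    · exact wt_mul_int μ h0 h1 (fun ρ => c + d*(1+ρ)) (by fun_prop)
    · exact wt_mul_int μ h0 h1 _ (F_cont N a)
    · intro ρ hρ
      exact mul_le_mul_of_nonneg_left (h ρ hρ.1.le hρ.2) (wt_nonneg μ ρ)
  have h4 : ∫ ρ in (0:ℝ)..1, wt μ ρ * (c + d * (1 + ρ)) = (c + d) * Im μ 0 + d * Im μ 1 := by
    unfold Im
    rw [← intervalIntegral.integral_const_mul, ← intervalIntegral.integral_const_mul,
      ← intervalIntegral.integral_add]
    · congr 1; ext x; ring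
    · exact (wt_mul_int μ h0 h1 (fun x => x^0) (by fun_prop)).const_mul _
    · exact (wt_mul_int μ h0 h1 (fun x => x^1) (by fun_prop)).const_mul _
  have h5 := Im_rec μ h0 h1 0
  have h6 := Im0_pos μ h0 h1
  have h7 := J0_nonneg μ
  rw [h4] at h3
  have h8 := mul_le_mul_of_nonneg_left h3 h7
  rw [← h2] at h8
  have hp : (1 + μ) ≠ 0 := by positivity
  have h9 : Im μ 1 = (1 - μ) * Im μ 0 / (1 + μ) := by
    rw [eq_div_iff hp]; simp only [Nat.cast_zero, zero_add] at h5; linarith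
  rw [h9] at h8
  have h10 : J μ 0 * (c + 2 * d / (1 + μ)) * Im μ 0 ≤ F (J μ) N a * Im μ 0 := by
    refine le_trans (le_of_eq ?_) h8
    field_simp; ring
  exact le_of_mul_le_mul_right h10 h6

end Pool.Agent.H402.Wl
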