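import Pool.Agent.H402.WlList

set_option autoImplicit false

namespace Pool.Agent.H402.Wl

open Polynomial Finset

/-- distance -/
def dst (j k : ℕ) : ℕ := ((j : ℤ) - (k : ℤ)).natAbs

lemma dst_comm (j k : ℕ) : dst j k = dst k j := by unfold dst; omega

/-- quadratic form -/
noncomputable def F (f : ℕ → ℝ) (N : ℕ) (a : ℕ → ℤ) : ℝ :=
  ∑ j ∈ range N, ∑ k ∈ range N, (a j : ℝ) * (a k : ℝ) * f (dst j k)

/-- geometric kernel -/
noncomputable def gk (ρ : ℝ) : ℕ → ℝ
  | 0 => 1
  | n + 1 => -((1-ρ)/2) * ρ^n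

noncomputable def Sl (ρ : ℝ) : List ℤ → ℝ
  | [] => 0
  | q :: l => q + ρ * Sl ρ l

noncomputable def Dl (ρ : ℝ) : List ℤ → ℝ
  | [] => 0
  | q :: l => (q:ℝ)^2 + Dl ρ l - (1-ρ)*q*Sl ρ l

def dl : ℤ → List ℤ → List ℤ
  | p, [] => [0 - p]
  | p, p' :: L => (p' - p) :: dl p' L

lemma Gc_eq (ρ : ℝ) (L : List ℤ) : ∀ (u : ℝ) (p : ℤ),
    Gc ρ u p L = 2*(1-ρ)*Dl ρ (dl p L) - 2*(1-ρ)*u*Sl ρ (dl p L) := by
  induction L with
  | nil => intro u p; simp only [Gc, dl, Dl, Sl]; ring
  | cons p' L ih => intro u p; simp only [Gc, dl, Dl, Sl, ih]; ring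

lemma Sl_sum (ρ : ℝ) (a : ℕ → ℤ) (N : ℕ) :
    Sl ρ ((List.range N).reverse.map a) = ∑ j ∈ range N, (a j : ℝ) * ρ^(N-1-j) := by
  induction N with
  | zero => simp [Sl]
  | succ N ih =>
    rw [List.range_succ, List.reverse_append, List.reverse_singleton, List.singleton_append,
      List.map_cons, Sl, ih, Finset.sum_range_succ]
    simp only [Nat.add_sub_cancel, Nat.sub_self, pow_zero, mul_one]
    rw [add_comm, Finset.mul_sum]
    congr 1
    apply Finset.sum_congr rfl
    intro j hj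
    rw [Finset.mem_range] at hj
    rw [show N - j = (N - 1 - j) + 1 by omega, pow_succ]
    ring

lemma F_succ (f : ℕ → ℝ) (N : ℕ) (a : ℕ → ℤ) :
    F f (N+1) a = F f N a + (a N : ℝ)^2 * f 0 + 2 * (a N : ℝ) * ∑ j ∈ range N, (a j : ℝ) * f (N - j) := by
  unfold F
  rw [Finset.sum_range_succ, Finset.sum_range_succ]
  simp_rw [Finset.sum_range_succ (fun k => _ * f (dst _ k))]
  rw [Finset.sum_add_distrib]
  have h1 : dst N N = 0 := by unfold dst; simp
  have h2 : ∑ j ∈ range N, (a j : ℝ) * (a N : ℝ) * f (dst j N) = (a N : ℝ) * ∑ j ∈ range N, (a j : ℝ) * f (N - j) := by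
    rw [Finset.mul_sum]
    apply Finset.sum_congr rfl
    intro j hj
    rw [Finset.mem_range] at hj
    have : dst j N = N - j := by unfold dst; omega
    rw [this]; ring
  have h3 : ∑ j ∈ range N, (a N : ℝ) * (a j : ℝ) * f (dst N j) = (a N : ℝ) * ∑ j ∈ range N, (a j : ℝ) * f (N - j) := by
    rw [Finset.mul_sum]
    apply Finset.sum_congr rfl
    intro j hj
    rw [Finset.mem_range] at hj
    have : dst N j = N - j := by unfold dst; omega
    rw [this]; ring
  rw [h1, h2, h3]; ring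

lemma F_gk (ρ : ℝ) (a : ℕ → ℤ) (N : ℕ) :
    F (gk ρ) N a = Dl ρ ((List.range N).reverse.map a) := by
  induction N with
  | zero => simp [F, Dl]
  | succ N ih =>
    rw [F_succ, ih, List.range_succ, List.reverse_append, List.reverse_singleton, List.singleton_append,
      List.map_cons, Dl, Sl_sum]
    have h1 : ∑ j ∈ range N, (a j : ℝ) * gk ρ (N - j) = -((1-ρ)/2) * ∑ j ∈ range N, (a j : ℝ) * ρ^(N-1-j) := by
      rw [Finset.mul_sum]
      apply Finset.sum_congr rfl
      intro j hj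
      rw [Finset.mem_range] at hj
      rw [show N - j = (N - 1 - j) + 1 by omega, gk]; ring
    rw [h1]
    simp only [gk]; ring

lemma dl_coeff (P : ℤ[X]) (M : ℕ) :
    (List.range (M+1)).reverse.map (((X - 1) * P).coeff) = 
      dl (P.coeff M) ((List.range M).reverse.map P.coeff) := by
  induction M with
  | zero =>
    simp [dl, sub_mul]
  | succ M ih =>
    rw [List.range_succ, List.reverse_append, List.reverse_singleton, List.singleton_append,
      List.map_cons, ih, List.range_succ, List.reverse_append, List.reverse_singleton,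
      List.singleton_append, List.map_cons, dl]
    congr 1
    rw [sub_mul, one_mul, coeff_sub, coeff_X_mul]

lemma NS_destutter (s : SignType) (hs : s ≠ 0) (L : List ℤ) :
    (List.destutter' (· ≠ ·) s ((L.map SignType.sign).filter (· ≠ 0))).length = NS s L + 1 := by
  induction L generalizing s with
  | nil => simp [NS]
  | cons p L ih =>
    rw [List.map_cons, NS]
    by_cases hp : SignType.sign p = 0
    · rw [List.filter_cons_of_neg (by simp [hp]), if_pos (Or.inl hp), ih s hs]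
    · rw [List.filter_cons_of_pos (by simpa using hp), List.destutter']
      by_cases hps : SignType.sign p = s
      · rw [if_neg (by simp [hps]), if_pos (Or.inr hps), ih s hs]
      · rw [if_pos (fun h => hps h.symm), if_neg (by simp [hp, hps]), List.length_cons, ih _ hp]

lemma signVar_eq (P : ℤ[X]) (hP : P ≠ 0) :
    ∃ L : List ℤ, coeffList P = P.leadingCoeff :: L ∧ 
      signVariations P = NS (SignType.sign P.leadingCoeff) L := by
  obtain ⟨L, hL⟩ := coeffList_eq_cons_leadingCoeff hP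
  refine ⟨L, hL, ?_⟩
  have hl : SignType.sign P.leadingCoeff ≠ 0 := by
    simpa using hP
  unfold signVariations
  rw [hL, List.map_cons, List.filter_cons_of_pos (by simpa using hl), List.destutter,
    NS_destutter _ hl]
  simp

lemma signVar_pow (k : ℕ) (P : ℤ[X]) (hP : P ≠ 0) : k ≤ signVariations ((X - 1)^k * P) := by
  induction k with
  | zero => exact Nat.zero_le _
  | succ k ih =>
    have h1 : (X - 1 : ℤ[X])^k * P ≠ 0 := mul_ne_zero (pow_ne_zero _ (X_sub_C_ne_zero (1:ℤ))) hP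
    have h2 := succ_signVariations_le_X_sub_C_mul (η := (1:ℤ)) one_pos h1
    rw [pow_succ', mul_assoc]
    simp only [map_one] at h2
    omega

/-- The key inequality for the geometric kernels. -/
theorem F_gk_ge (ρ : ℝ) (h0 : 0 ≤ ρ) (h1 : ρ < 1) (k : ℕ) (P : ℤ[X]) (hP : P ≠ 0) (N : ℕ)
    (hN : ((X - 1)^(k+1) * P).natDegree < N) :
    2 + k * (1 + ρ) ≤ F (gk ρ) N ((X - 1)^(k+1) * P).coeff := by
  have hne : ((X - 1 : ℤ[X])^k * P) ≠ 0 := mul_ne_zero (pow_ne_zero _ (X_sub_C_ne_zero (1:ℤ))) hP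
  obtain ⟨R, hR⟩ : ∃ R, R = (X - 1 : ℤ[X])^k * P := ⟨_, rfl⟩
  have hRne : R ≠ 0 := hR ▸ hne
  have hQ : (X - 1 : ℤ[X])^(k+1) * P = (X - 1) * R := by rw [hR, pow_succ', mul_assoc]
  have hsv : k ≤ signVariations R := hR ▸ signVar_pow k P hP
  have hdeg : ((X - 1) * R).natDegree = R.natDegree + 1 := by
    have hX : (X - 1 : ℤ[X]).Monic := by simpa using monic_X_sub_C (1:ℤ)
    have hX1 : (X - 1 : ℤ[X]).natDegree = 1 := by simpa using natDegree_X_sub_C (1:ℤ)
    rw [hX.natDegree_mul' hRne, hX1, add_comm]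
  rw [hQ] at hN ⊢
  rw [hdeg] at hN
  obtain ⟨L, hL, hsL⟩ := signVar_eq R hRne
  -- reduce to N = natDegree R + 2
  have hred : ∀ M, R.natDegree + 2 ≤ M → F (gk ρ) M ((X-1)*R).coeff = F (gk ρ) (R.natDegree + 2) ((X-1)*R).coeff := by
    intro M hM
    induction M, hM using Nat.le_induction with
    | base => rfl
    | succ M hM ih =>
      rw [F_succ, ih]
      have : ((X-1)*R).coeff M = 0 := coeff_eq_zero_of_natDegree_lt (by rw [hdeg]; omega)
      rw [this]; simp
  rw [hred N (by omega), F_gk, dl_coeff]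
  have hc : R.coeff (R.natDegree + 1) = 0 := coeff_eq_zero_of_natDegree_lt (by omega)
  have hlist : (List.range (R.natDegree+1)).reverse.map R.coeff = R.leadingCoeff :: L := by
    rw [← hL, coeffList]
    rw [Polynomial.degree_eq_natDegree hRne]
    rfl
  rw [hc, hlist]
  have hG := Gc_eq ρ (R.leadingCoeff :: L) 0 0
  have hst := Gc_start ρ h0 h1 R.leadingCoeff (leadingCoeff_ne_zero.2 hRne) L
  rw [hG, ← hsL] at hst
  have hr : 0 < 1 - ρ := by linarith
  have hk : (k : ℝ) ≤ signVariations R := by exact_mod_cast hsv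
  have h3 : (1-ρ) * (2 + k*(1+ρ)) ≤ (1-ρ) * Dl ρ (dl 0 (R.leadingCoeff :: L)) := by
    have h4 : 0 ≤ (1-ρ^2) * ((signVariations R : ℝ) - k) := mul_nonneg (by nlinarith) (by linarith)
    linarith
  exact le_of_mul_le_mul_left h3 hr

end Pool.Agent.H402.Wl
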