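import Pool.Agent.H402.WlFin

set_option autoImplicit false

namespace Pool.Agent.H402.Wl

open Real Finset MeasureTheory intervalIntegral Polynomial

/-- total variation -/
def TV : ℤ → List ℤ → ℤ
  | p, [] => |0 - p|
  | p, p' :: L => |p' - p| + TV p' L

lemma TV_ind (L : List ℤ) : ∀ p : ℤ, (0 ≤ p → 2 * (NS 1 L : ℤ) + p ≤ TV p L) ∧
    (p ≤ 0 → 2 * (NS (-1) L : ℤ) - p ≤ TV p L) := by
  induction L with
  | nil =>
    intro p
    simp only [NS, TV]
    constructor
    · intro hp; rw [abs_of_nonpos (by omega)]; push_cast; omega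
    · intro hp; rw [abs_of_nonneg (by omega)]; push_cast; omega
  | cons p' L ih =>
    intro p
    obtain ⟨i1, i2⟩ := ih p'
    simp only [NS, TV]
    constructor
    · intro hp
      rcases lt_trichotomy p' 0 with h | h | h
      · rw [sign_neg h, if_neg (by decide)]
        have := i2 h.le
        have := abs_of_nonpos (by omega : p' - p ≤ 0)
        push_cast; omega
      · subst h
        rw [_root_.sign_zero, if_pos (Or.inl rfl)]
        have := i1 le_rfl
        have := le_abs_self (p - 0)
        have := abs_sub_comm p 0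
        omega
      · rw [sign_pos h, if_pos (Or.inr rfl)]
        have := i1 h.le
        have := le_abs_self (p - p')
        have := abs_sub_comm p p'
        omega
    · intro hp
      rcases lt_trichotomy p' 0 with h | h | h
      · rw [sign_neg h, if_pos (Or.inr rfl)]
        have := i2 h.le
        have := le_abs_self (p' - p)
        omega
      · subst h
        rw [_root_.sign_zero, if_pos (Or.inl rfl)]
        have := i2 le_rfl
        have := le_abs_self (0 - p)
        omega
      · rw [sign_pos h, if_neg (by decide)]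
        have := i1 h.le
        have := abs_of_nonneg (by omega : 0 ≤ p' - p)
        push_cast; omega

lemma TV_start (p : ℤ) (hp : p ≠ 0) (L : List ℤ) : 2 * (NS (SignType.sign p) L : ℤ) + 2 ≤ TV 0 (p :: L) := by
  simp only [TV]
  obtain ⟨i1, i2⟩ := TV_ind L p
  rcases lt_or_gt_of_ne hp with h | h
  · rw [sign_neg h]
    have := i2 h.le
    have := abs_of_nonpos (by omega : p - 0 ≤ 0)
    omega
  · rw [sign_pos h]
    have := i1 h.le
    have := abs_of_nonneg (by omega : 0 ≤ p - 0)
    omega

lemma TV_dl (L : List ℤ) : ∀ p : ℤ, TV p L = ((dl p L).map (fun x => |x|)).sum := by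
  induction L with
  | nil => intro p; simp [TV, dl]
  | cons p' L ih => intro p; simp [TV, dl, ih]

lemma list_sum_range (a : ℕ → ℤ) (N : ℕ) : (((List.range N).reverse.map a).map (fun x => |x|)).sum = ∑ j ∈ range N, |a j| := by
  induction N with
  | zero => simp
  | succ N ih =>
    rw [List.range_succ, List.reverse_append, List.reverse_singleton, List.singleton_append,
      List.map_cons, List.map_cons, List.sum_cons, ih, Finset.sum_range_succ, add_comm]

/-- `ℓ¹` bound: a nonzero integer polynomial divisible by `(X-1)^(k+1)` has length `≥ 2(k+1)`. -/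
lemma length_ge (k : ℕ) (P : ℤ[X]) (hP : P ≠ 0) (N : ℕ)
    (hN : ((X - 1)^(k+1) * P).natDegree < N) :
    2 * (k + 1 : ℤ) ≤ ∑ j ∈ range N, |((X - 1)^(k+1) * P).coeff j| := by
  have hne : ((X - 1 : ℤ[X])^k * P) ≠ 0 := mul_ne_zero (pow_ne_zero _ (X_sub_C_ne_zero (1:ℤ))) hP
  obtain ⟨R, hR⟩ : ∃ R, R = (X - 1 : ℤ[X])^k * P := ⟨_, rfl⟩
  have hRne : R ≠ 0 := hR ▸ hne
  have hQ : (X - 1 : ℤ[X])^(k+1) * P = (X - 1) * R := by rw [hR, pow_succ', mul_assoc]
  have hsv : k ≤ signVariations R := hR ▸ signVar_pow k P hP
  have hdeg : ((X - 1) * R).natDegree = R.natDegree + 1 := by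
    have hX : (X - 1 : ℤ[X]).Monic := by simpa using monic_X_sub_C (1:ℤ)
    have hX1 : (X - 1 : ℤ[X]).natDegree = 1 := by simpa using natDegree_X_sub_C (1:ℤ)
    rw [hX.natDegree_mul' hRne, hX1, add_comm]
  rw [hQ] at hN ⊢
  rw [hdeg] at hN
  obtain ⟨L, hL, hsL⟩ := signVar_eq R hRne
  have hred : ∑ j ∈ range (R.natDegree + 2), |((X - 1) * R).coeff j| ≤ ∑ j ∈ range N, |((X - 1) * R).coeff j| := by
    apply Finset.sum_le_sum_of_subset_of_nonneg
    · intro j hj; rw [Finset.mem_range] at hj ⊢; omega
    · intro j _ _; exact abs_nonneg _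
  refine le_trans ?_ hred
  rw [← list_sum_range, dl_coeff]
  have hc : R.coeff (R.natDegree + 1) = 0 := coeff_eq_zero_of_natDegree_lt (by omega)
  have hlist : (List.range (R.natDegree+1)).reverse.map R.coeff = R.leadingCoeff :: L := by
    rw [← hL, coeffList]
    rw [Polynomial.degree_eq_natDegree hRne]
    rfl
  rw [hc, hlist, ← TV_dl]
  have := TV_start R.leadingCoeff (leadingCoeff_ne_zero.2 hRne) L
  rw [← hsL] at this
  omega

lemma F_J_zero (N : ℕ) (a : ℕ → ℤ) : F (J 0) N a = 2 * π * ∑ j ∈ range N, (a j : ℝ)^2 := by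
  have h0 : J 0 0 = 2 * π := by
    rw [J0_eq 0 le_rfl]; simp
  rw [F_smul (J 0 0) (J 0) (gk 1) J_zero, h0]
  congr 1
  unfold F
  apply Finset.sum_congr rfl
  intro j hj
  rw [Finset.sum_eq_single j]
  · have : dst j j = 0 := by unfold dst; simp
    rw [this]; simp only [gk]; ring
  · intro k _ hk
    have : dst j k ≠ 0 := by unfold dst; omega
    obtain ⟨m, hm⟩ := Nat.exists_eq_succ_of_ne_zero this
    rw [hm]; simp [gk]
  · intro h; exact absurd hj h

lemma E_zero (Q : ℤ[X]) (N : ℕ) (hN : Q.natDegree < N) : E 0 Q = 2 * π * ((∑ j ∈ range N, (Q.coeff j)^2 : ℤ) : ℝ) := by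
  rw [E_eq 0 le_rfl Q N hN, F_J_zero]
  push_cast; rfl

/-- moments vanish for polynomials divisible by `(X-1)^n` -/
lemma moments (n : ℕ) : ∀ (Q : ℤ[X]), (X - 1)^n ∣ Q → ∀ l, l < n → ∀ N, Q.natDegree < N →
    ∑ j ∈ range N, Q.coeff j * (j:ℤ)^l = 0 := by
  induction n with
  | zero => intro Q _ l hl; omega
  | succ n ih =>
    intro Q hQ l hl N hN
    cases l with
    | zero =>
      have h1 : Q.eval 1 = 0 := by
        obtain ⟨R, rfl⟩ := hQ
        simp
      rw [Polynomial.eval_eq_sum_range' hN] at h1
      simpa using h1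
    | succ l =>
      have h2 : (X - 1)^n ∣ X * derivative Q := by
        obtain ⟨R, rfl⟩ := hQ
        have h3 : X * derivative ((X - 1)^(n+1) * R) = (X-1)^n * (X * (C ((n:ℤ)+1) * R + (X - 1) * derivative R)) := by
          rw [derivative_mul, derivative_pow]
          simp only [derivative_sub, derivative_X, derivative_one, sub_zero, mul_one, Nat.add_sub_cancel]
          push_cast
          simp only [map_add, map_one, map_natCast]
          ring
        rw [h3]; exact dvd_mul_right _ _
      have h4 : ∀ j, (X * derivative Q).coeff j = Q.coeff j * j := by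
        intro j
        cases j with
        | zero => simp
        | succ j => rw [coeff_X_mul, coeff_derivative]; push_cast; ring
      have h5 : (X * derivative Q).natDegree < N := by
        rcases Nat.eq_zero_or_pos Q.natDegree with h | h
        · rw [natDegree_eq_zero] at h
          obtain ⟨c, rfl⟩ := h
          simp; omega
        · refine lt_of_le_of_lt ?_ hN
          refine natDegree_mul_le.trans ?_
          have := natDegree_derivative_lt (p := Q) (by omega)
          rw [natDegree_X]; omega
      have h6 := ih _ h2 l (by omega) N h5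
      rw [← h6]
      apply Finset.sum_congr rfl
      intro j _
      rw [h4, pow_succ]; ring

end Pool.Agent.H402.Wl
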