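import Pool.Agent.H402.WlPte

set_option autoImplicit false

namespace Pool.Agent.H402.Wl

open Real Finset MeasureTheory intervalIntegral Polynomial

/-- `A`, `B` form an ideal Prouhet-Tarry-Escott solution of size `n` (with `2n` distinct integers). -/
def IdealPTE (n : ℕ) (A B : Finset ℤ) : Prop :=
  A.card = n ∧ B.card = n ∧ Disjoint A B ∧ ∀ l : ℕ, l < n → ∑ a ∈ A, a ^ l = ∑ b ∈ B, b ^ l

lemma int_sq_ge (x : ℤ) : |x| ≤ x ^ 2 := by
  rcases eq_or_ne x 0 with h | h
  · subst h; simp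
  · have : 1 ≤ |x| := Int.one_le_abs h
    rw [← sq_abs]; nlinarith

lemma pte_of_attained (n : ℕ) (hn : 1 ≤ n) (P : ℤ[X]) (hP : P.Monic) (hE : E (n + 0) P = 4 * π * n) :
    ∃ A B : Finset ℤ, IdealPTE n A B := by
  obtain ⟨k, rfl⟩ := Nat.exists_eq_succ_of_ne_zero (by omega : n ≠ 0)
  obtain ⟨Q, hQ⟩ : ∃ Q, Q = (X - 1 : ℤ[X])^(k+1) * P := ⟨_, rfl⟩
  obtain ⟨N, hN⟩ : ∃ N, N = Q.natDegree + 1 := ⟨_, rfl⟩
  have hNd : Q.natDegree < N := by omega
  rw [E_add 0 le_rfl, show (k.succ) = k+1 from rfl, ← hQ, E_zero Q N hNd] at hE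
  have h2 : ∑ j ∈ range N, (Q.coeff j)^2 = 2 * ((k:ℤ)+1) := by
    have hpi : (2 * π) ≠ 0 := by positivity
    have h3 : ((∑ j ∈ range N, (Q.coeff j)^2 : ℤ) : ℝ) = ((2 * ((k:ℤ)+1) : ℤ) : ℝ) := by
      apply mul_left_cancel₀ hpi
      rw [hE]; push_cast; ring
    exact_mod_cast h3
  have h3 : 2 * (k + 1 : ℤ) ≤ ∑ j ∈ range N, |Q.coeff j| := by
    rw [hQ] at hNd ⊢
    exact length_ge k P hP.ne_zero N hNd
  have h4 : ∀ j, |Q.coeff j| ≤ (Q.coeff j)^2 := fun j => int_sq_ge _
  have h5 : ∀ j ∈ range N, (Q.coeff j)^2 - |Q.coeff j| = 0 := by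
    apply (Finset.sum_eq_zero_iff_of_nonneg (fun j _ => by have := h4 j; linarith)).1
    apply le_antisymm
    · rw [Finset.sum_sub_distrib]; linarith
    · exact Finset.sum_nonneg (fun j _ => by have := h4 j; linarith)
  have h6 : ∀ j ∈ range N, Q.coeff j = 0 ∨ Q.coeff j = 1 ∨ Q.coeff j = -1 := by
    intro j hj
    have h := h5 j hj
    by_cases hz : Q.coeff j = 0
    · left; exact hz
    · right
      have h7 : |Q.coeff j| * (|Q.coeff j| - 1) = 0 := by
        have := sq_abs (Q.coeff j)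
        nlinarith
      rcases mul_eq_zero.1 h7 with h8 | h8
      · exact absurd (abs_eq_zero.1 h8) hz
      · have h9 : |Q.coeff j| = 1 := by linarith
        rcases abs_eq (zero_le_one) |>.1 h9 with h | h
        · left; exact h
        · right; exact h
  have hdvd : (X - 1 : ℤ[X])^(k+1) ∣ Q := ⟨P, hQ⟩
  have hmom := moments (k+1) Q hdvd
  classical
  obtain ⟨A', hA'⟩ : ∃ A', A' = (range N).filter (fun j => Q.coeff j = 1) := ⟨_, rfl⟩
  obtain ⟨B', hB'⟩ : ∃ B', B' = (range N).filter (fun j => Q.coeff j = -1) := ⟨_, rfl⟩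
  have hsplit : ∀ f : ℕ → ℤ, ∑ j ∈ range N, Q.coeff j * f j = ∑ a ∈ A', f a - ∑ b ∈ B', f b := by
    intro f
    rw [hA', hB', Finset.sum_filter, Finset.sum_filter, ← Finset.sum_sub_distrib]
    apply Finset.sum_congr rfl
    intro j hj
    rcases h6 j hj with h | h | h <;> rw [h] <;> norm_num
  have hsq : ∑ j ∈ range N, (Q.coeff j)^2 = A'.card + B'.card := by
    rw [hA', hB', Finset.card_filter, Finset.card_filter]
    push_cast
    rw [← Finset.sum_add_distrib]
    apply Finset.sum_congr rfl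
    intro j hj
    rcases h6 j hj with h | h | h <;> rw [h] <;> norm_num
  have h0 := hmom 0 (by omega) N hNd
  simp only [pow_zero] at h0
  rw [hsplit] at h0
  simp only [Finset.sum_const, mul_one, nsmul_eq_mul] at h0
  have hcA : A'.card = k + 1 := by omega
  have hcB : B'.card = k + 1 := by omega
  refine ⟨A'.map Nat.castEmbedding, B'.map Nat.castEmbedding, ?_, ?_, ?_, ?_⟩
  · rw [card_map]; exact hcA
  · rw [card_map]; exact hcB
  · rw [disjoint_map, hA', hB']
    rw [Finset.disjoint_left]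
    intro j h1 h2
    rw [Finset.mem_filter] at h1 h2
    omega
  · intro l hl
    rw [Finset.sum_map, Finset.sum_map]
    have := hmom l hl N hNd
    rw [hsplit (fun j => (j:ℤ)^l)] at this
    simp only [Nat.castEmbedding_apply]
    linarith

lemma attained_of_pte (n : ℕ) (hn : 1 ≤ n) (A B : Finset ℤ) (h : IdealPTE n A B) :
    ∃ P : ℤ[X], P.Monic ∧ E (n + 0) P = 4 * π * n := by
  classical
  obtain ⟨hA, hB, hdisj, hpow⟩ := h
  obtain ⟨c, hc⟩ : ∃ c : ℤ, ∀ a ∈ A ∪ B, c ≤ a := by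
    obtain ⟨c, hc⟩ := (A ∪ B).bddBelow
    exact ⟨c, fun a ha => hc ha⟩
  have hcA : ∀ a ∈ A, c ≤ a := fun a ha => hc a (Finset.mem_union_left _ ha)
  have hcB : ∀ a ∈ B, c ≤ a := fun a ha => hc a (Finset.mem_union_right _ ha)
  obtain ⟨Q, hQ⟩ : ∃ Q : ℤ[X], Q = ∑ a ∈ A, X^((a-c).toNat) - ∑ b ∈ B, X^((b-c).toNat) := ⟨_, rfl⟩
  have hcoefS : ∀ S : Finset ℤ, (∀ a ∈ S, c ≤ a) → ∀ j : ℕ, 
      (∑ a ∈ S, X^((a-c).toNat) : ℤ[X]).coeff j = if (j:ℤ) + c ∈ S then 1 else 0 := by
    intro S hS j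
    rw [finsetSum_coeff]
    simp only [coeff_X_pow]
    rw [← Finset.sum_ite_eq S ((j:ℤ)+c) (fun _ => (1:ℤ))]
    apply Finset.sum_congr rfl
    intro a ha
    have := hS a ha
    by_cases h1 : j = (a-c).toNat
    · rw [if_pos h1, if_pos (by omega)]
    · rw [if_neg h1, if_neg (by omega)]
  have hcoef : ∀ j : ℕ, Q.coeff j = (if (j:ℤ) + c ∈ A then 1 else 0) - (if (j:ℤ) + c ∈ B then 1 else 0) := by
    intro j
    rw [hQ, coeff_sub, hcoefS A hcA, hcoefS B hcB]
  have hnot : ∀ j : ℕ, ¬ ((j:ℤ) + c ∈ A ∧ (j:ℤ) + c ∈ B) := by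
    intro j hj
    exact (Finset.disjoint_left.1 hdisj hj.1) hj.2
  have hcard : ∀ S : Finset ℤ, (∀ a ∈ S, c ≤ a) → ∃ M : ℕ, ∀ N, M ≤ N →
      ∑ j ∈ range N, (if (j:ℤ) + c ∈ S then (1:ℤ) else 0) = S.card := by
    intro S hS
    obtain ⟨M, hM⟩ := (S.image (fun a => (a-c).toNat)).bddAbove
    refine ⟨M+1, fun N hN => ?_⟩
    have h1 : ∑ j ∈ range N, (if (j:ℤ) + c ∈ S then (1:ℤ) else 0) = ∑ j ∈ range N, ∑ a ∈ S, (if j = (a-c).toNat then (1:ℤ) else 0) := by
      apply Finset.sum_congr rfl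
      intro j _
      rw [← hcoefS S hS j, finsetSum_coeff]
      simp only [coeff_X_pow]
    rw [h1, Finset.sum_comm]
    have h2 : ∀ a ∈ S, ∑ j ∈ range N, (if j = (a-c).toNat then (1:ℤ) else 0) = 1 := by
      intro a ha
      rw [Finset.sum_ite_eq' (range N) ((a-c).toNat) (fun _ => (1:ℤ)), if_pos]
      rw [Finset.mem_range]
      have : (a-c).toNat ≤ M := hM (by
        simp only [coe_image, Set.mem_image, mem_coe]
        exact ⟨a, ha, rfl⟩)
      omega
    rw [Finset.sum_congr rfl h2]; simp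
  obtain ⟨MA, hMA⟩ := hcard A hcA
  obtain ⟨MB, hMB⟩ := hcard B hcB
  obtain ⟨N, hN⟩ : ∃ N, N = max (Q.natDegree + 1) (max MA MB) := ⟨_, rfl⟩
  have hNd : Q.natDegree < N := by omega
  have hE0 : E 0 Q = 4 * π * n := by
    rw [E_zero Q N hNd]
    have : ∑ j ∈ range N, (Q.coeff j)^2 = 2 * (n:ℤ) := by
      have h1 := hMA N (by omega)
      have h2 := hMB N (by omega)
      rw [hA] at h1; rw [hB] at h2
      rw [two_mul]
      nth_rewrite 1 [← h1]
      rw [← h2, ← Finset.sum_add_distrib]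
      apply Finset.sum_congr rfl
      intro j _
      rw [hcoef j]
      have := hnot j
      by_cases h3 : (j:ℤ) + c ∈ A <;> by_cases h4 : (j:ℤ) + c ∈ B
      · exact absurd ⟨h3, h4⟩ this
      · rw [if_pos h3, if_neg h4]; norm_num
      · rw [if_neg h3, if_pos h4]; norm_num
      · rw [if_neg h3, if_neg h4]; norm_num
    rw [this]; push_cast; ring
  have hQne : Q ≠ 0 := by
    intro h0
    rw [h0] at hE0
    have : E 0 (0 : ℤ[X]) = 0 := by unfold E; simp
    rw [this] at hE0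
    have : 0 < 4 * π * n := by
      have : (0:ℝ) < n := by exact_mod_cast hn
      positivity
    linarith
  have hdvd : (X - 1 : ℤ[X])^n ∣ Q := by
    obtain ⟨k, rfl⟩ := Nat.exists_eq_succ_of_ne_zero (by omega : n ≠ 0)
    have h2 : k < Q.rootMultiplicity 1 := by
      apply lt_rootMultiplicity_of_isRoot_iterate_derivative_of_mem_nonZeroDivisors hQne
      · intro d hd
        have h3 : ∀ S : Finset ℤ, (∀ a ∈ S, c ≤ a) → 
            (derivative^[d] (∑ a ∈ S, X^((a-c).toNat) : ℤ[X])).eval 1 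
              = ∑ l ∈ range (d+1), ((descPochhammer ℤ d).comp (X - C c)).coeff l * ∑ a ∈ S, a^l := by
          intro S hS
          rw [iterate_derivative_sum, eval_finsetSum]
          have h4 : ∀ a ∈ S, eval 1 (derivative^[d] (X^((a-c).toNat) : ℤ[X])) = 
              ∑ l ∈ range (d+1), ((descPochhammer ℤ d).comp (X - C c)).coeff l * a^l := by
            intro a ha
            rw [iterate_derivative_X_pow_eq_C_mul]
            simp only [eval_mul, eval_C, eval_pow, eval_X, one_pow, mul_one]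
            rw [← descPochhammer_eval_eq_descFactorial ℤ]
            have h5 : ((((a-c).toNat : ℕ) : ℤ)) = a - c := by
              have := hS a ha; omega
            rw [h5]
            have h6 : (descPochhammer ℤ d).eval (a-c) = ((descPochhammer ℤ d).comp (X - C c)).eval a := by
              rw [eval_comp]; simp
            rw [h6, Polynomial.eval_eq_sum_range']
            rw [natDegree_comp, descPochhammer_natDegree, natDegree_X_sub_C, mul_one]
            exact Nat.lt_succ_self _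
          rw [Finset.sum_congr rfl h4, Finset.sum_comm]
          apply Finset.sum_congr rfl
          intro l _
          rw [Finset.mul_sum]
        rw [IsRoot, hQ, iterate_derivative_sub, eval_sub, h3 A hcA, h3 B hcB, sub_eq_zero]
        apply Finset.sum_congr rfl
        intro l hl
        rw [Finset.mem_range] at hl
        rw [hpow l (by omega)]
      · exact mem_nonZeroDivisors_of_ne_zero (by exact_mod_cast Nat.factorial_ne_zero k)
    have h4 := (le_rootMultiplicity_iff hQne).1 (Nat.succ_le_of_lt h2)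
    simpa using h4
  obtain ⟨P0, hP0⟩ := hdvd
  have hX : ((X - 1 : ℤ[X])^n).Monic := by
    have : (X - 1 : ℤ[X]).Monic := by simpa using monic_X_sub_C (1:ℤ)
    exact this.pow n
  have hl : P0.leadingCoeff = Q.leadingCoeff := by
    rw [hP0, leadingCoeff_mul, hX.leadingCoeff, one_mul]
  have hl2 : Q.leadingCoeff * Q.leadingCoeff = 1 := by
    have h1 : Q.leadingCoeff ≠ 0 := leadingCoeff_ne_zero.2 hQne
    unfold leadingCoeff at h1 ⊢
    rw [hcoef] at h1 ⊢
    by_cases h3 : (Q.natDegree:ℤ) + c ∈ A <;> by_cases h4 : (Q.natDegree:ℤ) + c ∈ B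
    · exact absurd ⟨h3, h4⟩ (hnot _)
    · rw [if_pos h3, if_neg h4]; norm_num
    · rw [if_neg h3, if_pos h4]; norm_num
    · rw [if_neg h3, if_neg h4] at h1; norm_num at h1
  refine ⟨C Q.leadingCoeff * P0, ?_, ?_⟩
  · unfold Monic
    rw [leadingCoeff_mul, leadingCoeff_C, hl, hl2]
  · rw [E_add 0 le_rfl, show (X - 1 : ℤ[X])^n * (C Q.leadingCoeff * P0) = C Q.leadingCoeff * ((X-1)^n * P0) by ring,
      E_C_mul 0 _ hl2, ← hP0, hE0]

end Pool.Agent.H402.Wl
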