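import Pool.Agent.H402.WlPte2

set_option autoImplicit false

namespace Pool.Agent.H402.Wl

open Real Finset MeasureTheory intervalIntegral Polynomial

noncomputable def hk (ρ : ℝ) : ℕ → ℝ
  | 0 => 0
  | n + 1 => ρ^n

lemma hk_cont (n : ℕ) : Continuous (fun ρ => hk ρ n) := by
  cases n with
  | zero => simp only [hk]; fun_prop
  | succ n => simp only [hk]; fun_prop

lemma Fh_cont (N : ℕ) (a : ℕ → ℤ) : Continuous (fun ρ => F (hk ρ) N a) := by
  unfold F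
  apply continuous_finsetSum; intro j _
  apply continuous_finsetSum; intro k _
  exact continuous_const.mul (hk_cont _)

lemma F_split (ρ : ℝ) (N : ℕ) (a : ℕ → ℤ) : F (gk ρ) N a = F (gk 1) N a - (1-ρ)/2 * F (hk ρ) N a := by
  unfold F
  rw [Finset.mul_sum, ← Finset.sum_sub_distrib]
  apply Finset.sum_congr rfl; intro j _
  rw [Finset.mul_sum, ← Finset.sum_sub_distrib]
  apply Finset.sum_congr rfl; intro k _
  have : gk ρ (dst j k) = gk 1 (dst j k) - (1-ρ)/2 * hk ρ (dst j k) := by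
    cases (dst j k) with
    | zero => simp [gk, hk]
    | succ n => simp only [gk, hk]; ring
  rw [this]; ring

lemma F_h1 (N : ℕ) (a : ℕ → ℤ) (hs : ∑ j ∈ range N, a j = 0) : F (hk 1) N a = - F (gk 1) N a := by
  have h1 : F (hk 1) N a + F (gk 1) N a = (∑ j ∈ range N, (a j : ℝ)) * ∑ k ∈ range N, (a k : ℝ) := by
    unfold F
    rw [← Finset.sum_add_distrib, Finset.sum_mul_sum]
    apply Finset.sum_congr rfl; intro j _
    rw [← Finset.sum_add_distrib]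
    apply Finset.sum_congr rfl; intro k _
    cases (dst j k) with
    | zero => simp [gk, hk]
    | succ n => simp [gk, hk]
  have h2 : ∑ j ∈ range N, (a j : ℝ) = 0 := by exact_mod_cast hs
  rw [h2] at h1; linarith

lemma F_g1 (N : ℕ) (a : ℕ → ℤ) : F (gk 1) N a = ((∑ j ∈ range N, (a j)^2 : ℤ) : ℝ) := by
  unfold F
  push_cast
  apply Finset.sum_congr rfl
  intro j hj
  rw [Finset.sum_eq_single j]
  · have : dst j j = 0 := by unfold dst; simp
    rw [this]; simp only [gk]; ring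
  · intro k _ hk
    have : dst j k ≠ 0 := by unfold dst; omega
    obtain ⟨m, hm⟩ := Nat.exists_eq_succ_of_ne_zero this
    rw [hm]; simp [gk]
  · intro h; exact absurd hj h

lemma F_gk_gt (k : ℕ) (P : ℤ[X]) (hP : P ≠ 0) (N : ℕ)
    (hN : ((X - 1)^(k+1) * P).natDegree < N) :
    ∃ ρ0 : ℝ, 0 < ρ0 ∧ ρ0 < 1 ∧ ∀ ρ, ρ0 < ρ → ρ < 1 → 
      2 + k * (1 + ρ) < F (gk ρ) N ((X - 1)^(k+1) * P).coeff := by
  have hsum : ∑ j ∈ range N, ((X - 1)^(k+1) * P).coeff j = 0 := by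
    have := moments (k+1) _ (dvd_mul_right ((X - 1 : ℤ[X])^(k+1)) P) 0 (by omega) N hN
    simpa using this
  have hlen := length_ge k P hP N hN
  have hge : 2 * (k + 1 : ℝ) ≤ F (gk 1) N ((X - 1)^(k+1) * P).coeff := by
    rw [F_g1]
    have h1 : 2 * (k + 1 : ℤ) ≤ ∑ j ∈ range N, (((X - 1)^(k+1) * P).coeff j)^2 :=
      le_trans hlen (Finset.sum_le_sum (fun j _ => int_sq_ge _))
    exact_mod_cast h1
  have h1 := F_h1 N _ hsum
  have hc := (Fh_cont N ((X - 1)^(k+1) * P).coeff).tendsto 1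
  rw [h1] at hc
  have hneg : - F (gk 1) N ((X - 1)^(k+1) * P).coeff < 0 := by
    have : (0:ℝ) ≤ k := Nat.cast_nonneg k
    linarith
  have hev := hc.eventually (gt_mem_nhds hneg)
  rw [Metric.eventually_nhds_iff] at hev
  obtain ⟨ε, hε, hball⟩ := hev
  refine ⟨max (1/2) (1 - ε), lt_of_lt_of_le (by norm_num) (le_max_left _ _), max_lt (by norm_num) (by linarith), ?_⟩
  intro ρ h2 h3
  have h4 : 1 - ε < ρ := lt_of_le_of_lt (le_max_right _ _) h2
  have h5 : F (hk ρ) N ((X - 1)^(k+1) * P).coeff < 0 := by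
    apply hball
    rw [Real.dist_eq, abs_lt]
    constructor <;> linarith
  rw [F_split]
  have h6 : 0 < (1-ρ)/2 * (- F (hk ρ) N ((X - 1)^(k+1) * P).coeff) := mul_pos (by linarith) (by linarith)
  have h7 : (k:ℝ) * (1+ρ) ≤ k * 2 := mul_le_mul_of_nonneg_left (by linarith) (Nat.cast_nonneg k)
  linarith

lemma F_mix_gt (μ : ℝ) (h0 : 0 < μ) (h1 : μ < 1) (N : ℕ) (a : ℕ → ℤ) (c d : ℝ)
    (h : ∀ ρ : ℝ, 0 ≤ ρ → ρ < 1 → c + d * (1 + ρ) ≤ F (gk ρ) N a)
    (ρ0 : ℝ) (hρ0 : 0 < ρ0) (hρ1 : ρ0 < 1) (h' : ∀ ρ : ℝ, ρ0 < ρ → ρ < 1 → c + d * (1 + ρ) < F (gk ρ) N a) 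
    (hJ : 0 < J μ 0) :
    J μ 0 * (c + 2 * d / (1 + μ)) < F (J μ) N a := by
  have h2 := F_mix μ h0 h1 N a
  have hint1 := wt_mul_int μ h0 h1 (fun ρ => F (gk ρ) N a - (c + d*(1+ρ))) ((F_cont N a).sub (by fun_prop))
  have hsub1 : IntervalIntegrable (fun ρ => wt μ ρ * (F (gk ρ) N a - (c + d*(1+ρ)))) volume 0 ρ0 :=
    hint1.mono_set (by rw [Set.uIcc_of_le hρ0.le, Set.uIcc_of_le zero_le_one]; exact Set.Icc_subset_Icc_right hρ1.le)
  have hsub2 : IntervalIntegrable (fun ρ => wt μ ρ * (F (gk ρ) N a - (c + d*(1+ρ)))) volume ρ0 1 :=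
    hint1.mono_set (by rw [Set.uIcc_of_le hρ1.le, Set.uIcc_of_le zero_le_one]; exact Set.Icc_subset_Icc_left hρ0.le)
  have hpos : 0 < ∫ ρ in (0:ℝ)..1, wt μ ρ * (F (gk ρ) N a - (c + d*(1+ρ))) := by
    rw [← integral_add_adjacent_intervals hsub1 hsub2]
    apply add_pos_of_nonneg_of_pos
    · have hnn : ∫ ρ in (0:ℝ)..ρ0, (0:ℝ) ≤ ∫ ρ in (0:ℝ)..ρ0, wt μ ρ * (F (gk ρ) N a - (c + d*(1+ρ))) := by
        apply intervalIntegral.integral_mono_on_of_le_Ioo hρ0.le (by simp) hsub1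
        intro ρ hρ
        exact mul_nonneg (wt_nonneg μ ρ) (sub_nonneg.2 (h ρ hρ.1.le (hρ.2.trans hρ1)))
      simpa using hnn
    · apply intervalIntegral.intervalIntegral_pos_of_pos_on hsub2 _ hρ1
      intro ρ hρ
      apply mul_pos
      · unfold wt
        have : 0 < |ρ| := abs_pos.2 (hρ0.trans hρ.1).ne'
        have : 0 < |1 - ρ| := abs_pos.2 (by linarith [hρ.2] : (1:ℝ) - ρ ≠ 0)
        positivity
      · exact sub_pos.2 (h' ρ hρ.1 hρ.2)
  have h3 : ∫ ρ in (0:ℝ)..1, wt μ ρ * (F (gk ρ) N a - (c + d*(1+ρ))) = 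
      (∫ ρ in (0:ℝ)..1, wt μ ρ * F (gk ρ) N a) - ((c + d) * Im μ 0 + d * Im μ 1) := by
    have h4 : ∫ ρ in (0:ℝ)..1, wt μ ρ * (c + d * (1 + ρ)) = (c + d) * Im μ 0 + d * Im μ 1 := by
      unfold Im
      rw [← intervalIntegral.integral_const_mul, ← intervalIntegral.integral_const_mul,
        ← intervalIntegral.integral_add]
      · congr 1; ext x; ring
      · exact (wt_mul_int μ h0 h1 (fun x => x^0) (by fun_prop)).const_mul _
      · exact (wt_mul_int μ h0 h1 (fun x => x^1) (by fun_prop)).const_mul _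
    rw [← h4, ← intervalIntegral.integral_sub]
    · congr 1; ext x; ring
    · exact wt_mul_int μ h0 h1 _ (F_cont N a)
    · exact wt_mul_int μ h0 h1 (fun ρ => c + d*(1+ρ)) (by fun_prop)
  rw [h3] at hpos
  have h5 := Im_rec μ h0 h1 0
  have h6 := Im0_pos μ h0 h1
  have h8 : J μ 0 * ((c + d) * Im μ 0 + d * Im μ 1) < J μ 0 * ∫ ρ in (0:ℝ)..1, wt μ ρ * F (gk ρ) N a :=
    mul_lt_mul_of_pos_left (by linarith) hJ
  rw [← h2] at h8
  have hp : (1 + μ) ≠ 0 := by positivity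
  have h9 : Im μ 1 = (1 - μ) * Im μ 0 / (1 + μ) := by
    rw [eq_div_iff hp]; simp only [Nat.cast_zero, zero_add] at h5; linarith
  rw [h9] at h8
  have h10 : J μ 0 * (c + 2 * d / (1 + μ)) * Im μ 0 < F (J μ) N a * Im μ 0 := by
    refine lt_of_eq_of_lt ?_ h8
    field_simp; ring
  exact lt_of_mul_lt_mul_right h10 h6.le

lemma J0_pos (s : ℝ) (hs : 0 ≤ s) : 0 < J s 0 := by
  rw [J0_eq s hs]
  have h1 : 0 < Real.Gamma (2*s+1) := Real.Gamma_pos_of_pos (by linarith)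
  have h2 : 0 < Real.Gamma (s+1) := Real.Gamma_pos_of_pos (by linarith)
  positivity

lemma lower_strict (k : ℕ) (hk : 1 ≤ k) (s : ℝ) (h0 : 0 < s) (h1 : s < 1) (P : ℤ[X]) (hP : P ≠ 0) :
    Lk k s < E (k + s) P := by
  obtain ⟨j, rfl⟩ := Nat.exists_eq_succ_of_ne_zero (by omega : k ≠ 0)
  rw [E_add s h0.le]
  have hN := Nat.lt_succ_self ((X - 1)^(j+1) * P).natDegree
  obtain ⟨ρ0, h2, h3, h4⟩ := F_gk_gt j P hP _ hN
  have h5 := F_mix_gt s h0 h1 _ _ 2 j (fun ρ hρ0 hρ1 => F_gk_ge ρ hρ0 hρ1 j P hP _ hN) ρ0 h2 h3 h4 (J0_pos s h0.le)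
  rw [← E_eq s h0.le _ _ hN] at h5
  refine lt_of_eq_of_lt ?_ h5
  rw [Lk_eq _ s h0.le]
  have hp : (1 + s) ≠ 0 := by positivity
  push_cast
  field_simp; ring

end Pool.Agent.H402.Wl
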