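import Pool.Agent.H402.WlPoly

/-! Trigonometric part; most of this file is taken from helper978's hand-in
`Pool/Agent/Results/MP_658dbf_an/ExactUpToTwo.lean`. -/

set_option autoImplicit false
set_option linter.unusedSectionVars false

namespace Pool.Agent.H402.Wl

open Real Finset MeasureTheory intervalIntegral

/-- weight -/
noncomputable def w (s θ : ℝ) : ℝ := (2 - 2 * cos θ) ^ s

noncomputable def J (s : ℝ) (n : ℕ) : ℝ := ∫ θ in (-π)..π, w s θ * cos (n * θ)

lemma base_nonneg (θ : ℝ) : 0 ≤ 2 - 2 * cos θ := by nlinarith [cos_le_one θ]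

lemma w_nonneg (s θ : ℝ) : 0 ≤ w s θ := rpow_nonneg (base_nonneg θ) s

lemma w_cont (s : ℝ) (hs : 0 ≤ s) : Continuous (w s) := by
  unfold w
  apply Continuous.rpow_const
  · fun_prop
  · intro x; right; exact hs

lemma w_deriv (s θ : ℝ) (h : 2 - 2 * cos θ ≠ 0) :
    HasDerivAt (w s) (s * (2 - 2 * cos θ) ^ (s - 1) * (2 * sin θ)) θ := by
  unfold w
  have h1 : HasDerivAt (fun θ : ℝ => 2 - 2 * cos θ) (2 * sin θ) θ := by
    have h0 := ((hasDerivAt_cos θ).const_mul 2).const_sub 2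
    exact h0.congr_deriv (by ring)
  have h2 := h1.rpow_const (p := s) (Or.inl h)
  exact h2.congr_deriv (by ring)

lemma G_deriv (s θ : ℝ) (n : ℕ) (h : 2 - 2 * cos θ ≠ 0) :
    HasDerivAt (fun θ => w s θ * (sin ((n + 1 : ℕ) * θ) - sin (n * θ)))
      (w s θ * (((n : ℝ) + 1 + s) * cos ((n + 1 : ℕ) * θ) - ((n : ℝ) - s) * cos (n * θ))) θ := by
  have h1 := w_deriv s θ h
  have h2 : HasDerivAt (fun θ : ℝ => sin ((n + 1 : ℕ) * θ) - sin (n * θ))
      (((n + 1 : ℕ) : ℝ) * cos ((n + 1 : ℕ) * θ) - (n : ℝ) * cos (n * θ)) θ := by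
    have a1 : HasDerivAt (fun θ : ℝ => ((n + 1 : ℕ) : ℝ) * θ) ((n + 1 : ℕ) : ℝ) θ := by
      simpa using (hasDerivAt_id θ).const_mul ((n + 1 : ℕ) : ℝ)
    have a2 : HasDerivAt (fun θ : ℝ => (n : ℝ) * θ) (n : ℝ) θ := by
      simpa using (hasDerivAt_id θ).const_mul (n : ℝ)
    have h0 := (a1.sin).sub (a2.sin)
    exact h0.congr_deriv (by ring)
  have h3 := h1.mul h2
  refine h3.congr_deriv ?_
  have hb : 0 < 2 - 2 * cos θ := lt_of_le_of_ne (base_nonneg θ) (Ne.symm h)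
  have hw : w s θ = (2 - 2 * cos θ) ^ (s - 1) * (2 - 2 * cos θ) := by
    unfold w
    rw [← rpow_add_one h]; congr 1; ring
  have e1 : sin ((n + 1 : ℕ) * θ) = sin (n * θ) * cos θ + cos (n * θ) * sin θ := by
    rw [← sin_add]; congr 1; push_cast; ring
  have e2 : cos ((n + 1 : ℕ) * θ) = cos (n * θ) * cos θ - sin (n * θ) * sin θ := by
    rw [← cos_add]; congr 1; push_cast; ring
  rw [hw, e1, e2]
  push_cast
  have hs2 : sin θ ^ 2 = 1 - cos θ ^ 2 := by rw [sin_sq]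
  have hs3 : sin θ * sin θ = 1 - cos θ * cos θ := by nlinarith
  generalize (2 - 2 * cos θ) ^ (s - 1) = W
  linear_combination (2 * s * W * cos (n * θ)) * hs3

lemma int_zero (s : ℝ) (hs : 0 ≤ s) (n : ℕ) (a b : ℝ) (hab : a ≤ b)
    (hne : ∀ θ ∈ Set.Ioo a b, 2 - 2 * cos θ ≠ 0) (ha : sin ((n + 1 : ℕ) * a) - sin (n * a) = 0)
    (hb : sin ((n + 1 : ℕ) * b) - sin (n * b) = 0) :
    ∫ θ in a..b, w s θ * (((n : ℝ) + 1 + s) * cos ((n + 1 : ℕ) * θ) - ((n : ℝ) - s) * cos (n * θ)) = 0 := by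
  have hw := w_cont s hs
  rw [integral_eq_sub_of_hasDerivAt_of_le hab (f := fun θ => w s θ * (sin ((n + 1 : ℕ) * θ) - sin (n * θ)))]
  · simp only [ha, hb]; ring
  · apply Continuous.continuousOn; fun_prop
  · intro x hx; exact G_deriv s x n (hne x hx)
  · apply Continuous.intervalIntegrable; fun_prop

lemma cos_ne_one_Ioo {θ : ℝ} (h : (0 < θ ∧ θ < π) ∨ (-π < θ ∧ θ < 0)) : 2 - 2 * cos θ ≠ 0 := by
  have : cos θ ≠ 1 := by
    intro hc
    have h1 := (cos_eq_one_iff_of_lt_of_lt (x := θ) (by rcases h with h|h <;> linarith [pi_pos]) (by rcases h with h|h <;> linarith [pi_pos])).1 hc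
    rcases h with h|h <;> linarith
  intro h2; apply this; linarith

lemma J_int (s : ℝ) (hs : 0 ≤ s) (n : ℕ) (a b : ℝ) : IntervalIntegrable (fun θ => w s θ * cos (n * θ)) volume a b := by
  have hw := w_cont s hs
  apply Continuous.intervalIntegrable; fun_prop

lemma sin_nat_neg_pi (n : ℕ) : sin (n * (-π)) = 0 := by
  rw [mul_neg, sin_neg, sin_nat_mul_pi, neg_zero]

lemma J_rec (s : ℝ) (hs : 0 ≤ s) (n : ℕ) :
    ((n : ℝ) + 1 + s) * J s (n + 1) = ((n : ℝ) - s) * J s n := by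
  have h1 := int_zero s hs n (-π) 0 (by linarith [pi_pos])
    (fun θ hθ => cos_ne_one_Ioo (Or.inr hθ)) (by rw [sin_nat_neg_pi, sin_nat_neg_pi]; ring) (by simp)
  have h2 := int_zero s hs n 0 π (by linarith [pi_pos])
    (fun θ hθ => cos_ne_one_Ioo (Or.inl hθ)) (by simp) (by rw [sin_nat_mul_pi, sin_nat_mul_pi]; ring)
  have hw := w_cont s hs
  have h3 : ∫ θ in (-π)..π, w s θ * (((n : ℝ) + 1 + s) * cos ((n + 1 : ℕ) * θ) - ((n : ℝ) - s) * cos (n * θ)) = 0 := by
    rw [← integral_add_adjacent_intervals (b := 0), h1, h2, add_zero]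
    · apply Continuous.intervalIntegrable; fun_prop
    · apply Continuous.intervalIntegrable; fun_prop
  have h4 : ∫ θ in (-π)..π, w s θ * (((n : ℝ) + 1 + s) * cos ((n + 1 : ℕ) * θ) - ((n : ℝ) - s) * cos (n * θ))
      = ((n : ℝ) + 1 + s) * J s (n + 1) - ((n : ℝ) - s) * J s n := by
    unfold J
    rw [← intervalIntegral.integral_const_mul, ← intervalIntegral.integral_const_mul,
      ← intervalIntegral.integral_sub ((J_int s hs (n+1) _ _).const_mul _) ((J_int s hs n _ _).const_mul _)]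
    congr 1; ext θ; ring
  rw [h4] at h3; linarith

lemma J0_nonneg (s : ℝ) : 0 ≤ J s 0 := by
  unfold J
  apply intervalIntegral.integral_nonneg (by linarith [pi_pos])
  intro u _; simp [w_nonneg]

/-- partial sums -/
noncomputable def S (s : ℝ) (n : ℕ) : ℝ := J s 0 + 2 * ∑ k ∈ range n, J s (k + 1)

lemma S_succ (s : ℝ) (n : ℕ) : S s (n + 1) = S s n + 2 * J s (n + 1) := by
  unfold S; rw [sum_range_succ]; ring

lemma J_S (s : ℝ) (hs : 0 ≤ s) (n : ℕ) : ((n : ℝ) + 1 + s) * J s (n + 1) = - s * S s n := by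
  induction n with
  | zero => rw [J_rec s hs 0]; simp [S]
  | succ n ih =>
    rw [J_rec s hs (n + 1), S_succ]
    push_cast
    linarith

lemma S_nonneg (s : ℝ) (hs : 0 ≤ s) (hs1 : s ≤ 1) (n : ℕ) : 0 ≤ S s n := by
  induction n with
  | zero => simp [S]; exact J0_nonneg s
  | succ n ih =>
    have h := J_S s hs n
    rw [S_succ]
    have hp : 0 < (n : ℝ) + 1 + s := by positivity
    have h2 : ((n : ℝ) + 1 + s) * (S s n + 2 * J s (n + 1)) = ((n : ℝ) + 1 - s) * S s n := by linarith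
    have h3 : 0 ≤ ((n : ℝ) + 1 - s) * S s n := mul_nonneg (by have : (0:ℝ) ≤ n := Nat.cast_nonneg n; linarith) ih
    rw [← h2] at h3
    exact nonneg_of_mul_nonneg_right h3 hp

lemma J_nonpos (s : ℝ) (hs : 0 ≤ s) (hs1 : s ≤ 1) (n : ℕ) : J s (n + 1) ≤ 0 := by
  have h := J_S s hs n
  have h2 := S_nonneg s hs hs1 n
  have hp : 0 < (n : ℝ) + 1 + s := by positivity
  have h3 : ((n : ℝ) + 1 + s) * J s (n + 1) ≤ 0 := by rw [h]; nlinarith
  by_contra hc
  push Not at hc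
  have := mul_pos hp hc
  linarith

lemma S_le (s : ℝ) (hs : 0 ≤ s) (hs1 : s ≤ 1) (n : ℕ) : S s n ≤ J s 0 := by
  unfold S
  have : ∑ k ∈ range n, J s (k + 1) ≤ 0 := Finset.sum_nonpos (fun k _ => J_nonpos s hs hs1 k)
  linarith

lemma J_lower (s : ℝ) (hs : 0 ≤ s) (hs1 : s ≤ 1) (n : ℕ) : - J s (n + 1) ≤ J s 0 / ((n : ℝ) + 1) := by
  have h := J_S s hs n
  have h2 := S_le s hs hs1 n
  have h2' := S_nonneg s hs hs1 n
  have h0 := J0_nonneg s
  have hp : 0 < (n : ℝ) + 1 := by positivity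
  rw [le_div_iff₀ hp]
  have h3 : J s (n+1) ≤ 0 := J_nonpos s hs hs1 n
  nlinarith


open Polynomial

lemma f_zero_eq (s : ℝ) : J s 0 = ∫ θ in (-π)..π, w s θ := by
  unfold J; simp


lemma norm_one_sub_exp (θ : ℝ) : ‖(1 : ℂ) - Complex.exp (θ * Complex.I)‖ ^ 2 = 2 - 2 * cos θ := by
  rw [← Complex.normSq_eq_norm_sq, Complex.normSq_apply]
  have h1 : (1 - Complex.exp (θ * Complex.I)).re = 1 - cos θ := by
    simp [Complex.exp_ofReal_mul_I_re]
  have h2 : (1 - Complex.exp (θ * Complex.I)).im = - sin θ := by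
    simp [Complex.exp_ofReal_mul_I_im]
  rw [h1, h2]
  nlinarith [sin_sq_add_cos_sq θ]

lemma norm_rpow (s θ : ℝ) : ‖(1 : ℂ) - Complex.exp (θ * Complex.I)‖ ^ (2 * s) = w s θ := by
  unfold w
  rw [← norm_one_sub_exp, ← Real.rpow_natCast, ← Real.rpow_mul (norm_nonneg _)]
  norm_num

lemma normSq_poly (Q : Polynomial ℤ) (N : ℕ) (hN : Q.natDegree < N) (θ : ℝ) :
    ‖aeval (Complex.exp (θ * Complex.I)) Q‖ ^ 2
      = ∑ j ∈ Finset.range N, ∑ k ∈ Finset.range N, (Q.coeff j : ℝ) * (Q.coeff k : ℝ) * cos ((dst j k : ℕ) * θ) := by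
  rw [← Complex.normSq_eq_norm_sq, Complex.normSq_apply]
  have h0 : aeval (Complex.exp (θ * Complex.I)) Q
      = ∑ j ∈ Finset.range N, (Q.coeff j : ℂ) * Complex.exp (((j : ℝ) * θ : ℝ) * Complex.I) := by
    rw [Polynomial.aeval_eq_sum_range' hN]
    apply Finset.sum_congr rfl
    intro j _
    rw [zsmul_eq_mul, ← Complex.exp_nat_mul]
    congr 2; push_cast; ring
  have hre : (aeval (Complex.exp (θ * Complex.I)) Q).re = ∑ j ∈ Finset.range N, (Q.coeff j : ℝ) * cos (j * θ) := by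
    rw [h0, Complex.re_sum]
    apply Finset.sum_congr rfl
    intro j _
    rw [show ((Q.coeff j : ℤ) : ℂ) = (((Q.coeff j : ℤ) : ℝ) : ℂ) by push_cast; rfl, Complex.re_ofReal_mul, Complex.exp_ofReal_mul_I_re]
  have him : (aeval (Complex.exp (θ * Complex.I)) Q).im = ∑ j ∈ Finset.range N, (Q.coeff j : ℝ) * sin (j * θ) := by
    rw [h0, Complex.im_sum]
    apply Finset.sum_congr rfl
    intro j _
    rw [show ((Q.coeff j : ℤ) : ℂ) = (((Q.coeff j : ℤ) : ℝ) : ℂ) by push_cast; rfl, Complex.im_ofReal_mul, Complex.exp_ofReal_mul_I_im]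
  rw [hre, him, Finset.sum_mul_sum, Finset.sum_mul_sum, ← Finset.sum_add_distrib]
  apply Finset.sum_congr rfl; intro j _
  rw [← Finset.sum_add_distrib]
  apply Finset.sum_congr rfl; intro k _
  have : cos ((dst j k : ℕ) * θ) = cos (j * θ) * cos (k * θ) + sin (j * θ) * sin (k * θ) := by
    rw [← cos_sub]
    unfold dst
    rcases le_total j k with h | h
    · have : (((j : ℤ) - (k : ℤ)).natAbs : ℝ) = (k : ℝ) - j := by
        have h1 : (((j : ℤ) - (k : ℤ)).natAbs) = k - j := by omega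
        rw [h1, Nat.cast_sub h]
      rw [this, ← cos_neg]; congr 1; ring
    · have : (((j : ℤ) - (k : ℤ)).natAbs : ℝ) = (j : ℝ) - k := by
        have h1 : (((j : ℤ) - (k : ℤ)).natAbs) = j - k := by omega
        rw [h1, Nat.cast_sub h]
      rw [this]; congr 1; ring
  rw [this]; ring

/-- the weighted integral -/
noncomputable def E (s : ℝ) (Q : Polynomial ℤ) : ℝ :=
  ∫ θ in (-π)..π, w s θ * ‖aeval (Complex.exp (θ * Complex.I)) Q‖ ^ 2

lemma E_eq (s : ℝ) (hs : 0 ≤ s) (Q : Polynomial ℤ) (N : ℕ) (hN : Q.natDegree < N) :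
    E s Q = F (J s) N Q.coeff := by
  unfold E F
  have hw := w_cont s hs
  have h1 : ∀ θ : ℝ, w s θ * ‖aeval (Complex.exp (θ * Complex.I)) Q‖ ^ 2
      = ∑ j ∈ Finset.range N, ∑ k ∈ Finset.range N, ((Q.coeff j : ℝ) * (Q.coeff k : ℝ)) * (w s θ * cos ((dst j k : ℕ) * θ)) := by
    intro θ
    rw [normSq_poly Q N hN, Finset.mul_sum]
    apply Finset.sum_congr rfl; intro j _
    rw [Finset.mul_sum]
    apply Finset.sum_congr rfl; intro k _
    ring
  simp_rw [h1]
  rw [intervalIntegral.integral_finsetSum]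
  · apply Finset.sum_congr rfl; intro j _
    rw [intervalIntegral.integral_finsetSum]
    · apply Finset.sum_congr rfl; intro k _
      rw [intervalIntegral.integral_const_mul]; rfl
    · intro k _
      apply Continuous.intervalIntegrable; fun_prop
  · intro j _
    apply Continuous.intervalIntegrable; fun_prop

end Pool.Agent.H402.Wl
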