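import Pool.Agent.H402.WlLow

set_option autoImplicit false

namespace Pool.Agent.H402.Wl

open Real Finset MeasureTheory intervalIntegral Polynomial

noncomputable def QP (m : ℕ) (e : ℕ → ℤ) (x : ℕ → ℕ) : ℤ[X] := ∑ i ∈ range m, C (e i) * X ^ (x i)

lemma QP_deriv_eval (m : ℕ) (e : ℕ → ℤ) (x : ℕ → ℕ) (n : ℕ) :
    (derivative^[n] (QP m e x)).eval 1 = ∑ i ∈ range m, e i * ((x i).descFactorial n : ℤ) := by
  unfold QP
  rw [iterate_derivative_sum, eval_finsetSum]
  apply Finset.sum_congr rfl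
  intro i _
  rw [iterate_derivative_C_mul, iterate_derivative_X_pow_eq_C_mul]
  simp

lemma QP_dvd (m : ℕ) (e : ℕ → ℤ) (x : ℕ → ℕ) (k : ℕ)
    (h : ∀ l, l < k → ∑ i ∈ range m, e i * (x i : ℤ)^l = 0) : (X - 1)^k ∣ QP m e x := by
  by_cases hQ : QP m e x = 0
  · rw [hQ]; exact dvd_zero _
  cases k with
  | zero => simp
  | succ n =>
    have h2 : n < (QP m e x).rootMultiplicity 1 := by
      apply lt_rootMultiplicity_of_isRoot_iterate_derivative_of_mem_nonZeroDivisors hQ
      · intro d hd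
        rw [IsRoot, QP_deriv_eval]
        have h3 : ∀ i, ((x i).descFactorial d : ℤ) = ∑ l ∈ range (d+1), (descPochhammer ℤ d).coeff l * (x i : ℤ)^l := by
          intro i
          rw [← descPochhammer_eval_eq_descFactorial ℤ (x i) d,
            Polynomial.eval_eq_sum_range' (by rw [descPochhammer_natDegree]; exact Nat.lt_succ_self _)]
        simp_rw [h3, Finset.mul_sum]
        rw [Finset.sum_comm]
        apply Finset.sum_eq_zero
        intro l hl
        rw [Finset.mem_range] at hl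
        have := h l (by omega)
        calc ∑ i ∈ range m, e i * ((descPochhammer ℤ d).coeff l * (x i : ℤ)^l)
            = (descPochhammer ℤ d).coeff l * ∑ i ∈ range m, e i * (x i : ℤ)^l := by
              rw [Finset.mul_sum]; apply Finset.sum_congr rfl; intro i _; ring
          _ = 0 := by rw [this, mul_zero]
      · exact mem_nonZeroDivisors_of_ne_zero (by exact_mod_cast Nat.factorial_ne_zero n)
    have h4 := (le_rootMultiplicity_iff hQ).1 (Nat.succ_le_of_lt h2)
    simpa using h4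

lemma cos_dst (j k : ℕ) (θ : ℝ) : cos ((dst j k : ℕ) * θ) = cos (j * θ) * cos (k * θ) + sin (j * θ) * sin (k * θ) := by
  rw [← cos_sub]
  unfold dst
  rcases le_total j k with h | h
  · have : (((j : ℤ) - (k : ℤ)).natAbs : ℝ) = (k : ℝ) - j := by
      have h1 : (((j : ℤ) - (k : ℤ)).natAbs) = k - j := by omega
      rw [h1, Nat.cast_sub h]
    rw [this, ← cos_neg]; congr 1; ring
  · have : (((j : ℤ) - (k : ℤ)).natAbs : ℝ) = (j : ℝ) - k := by
      have h1 : (((j : ℤ) - (k : ℤ)).natAbs) = j - k := by omega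
      rw [h1, Nat.cast_sub h]
    rw [this]; congr 1; ring

lemma normSq_QP (m : ℕ) (e : ℕ → ℤ) (x : ℕ → ℕ) (θ : ℝ) :
    ‖aeval (Complex.exp (θ * Complex.I)) (QP m e x)‖ ^ 2
      = ∑ i ∈ range m, ∑ j ∈ range m, (e i : ℝ) * (e j : ℝ) * cos ((dst (x i) (x j) : ℕ) * θ) := by
  rw [← Complex.normSq_eq_norm_sq, Complex.normSq_apply]
  have h0 : aeval (Complex.exp (θ * Complex.I)) (QP m e x)
      = ∑ j ∈ Finset.range m, (e j : ℂ) * Complex.exp (((x j : ℝ) * θ : ℝ) * Complex.I) := by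
    unfold QP
    rw [map_sum]
    apply Finset.sum_congr rfl
    intro j _
    rw [map_mul, map_pow, aeval_X, aeval_C, ← Complex.exp_nat_mul]
    simp only [algebraMap_int_eq, eq_intCast]
    congr 2; push_cast; ring
  have hre : (aeval (Complex.exp (θ * Complex.I)) (QP m e x)).re = ∑ j ∈ Finset.range m, (e j : ℝ) * cos (x j * θ) := by
    rw [h0, Complex.re_sum]
    apply Finset.sum_congr rfl
    intro j _
    rw [show ((e j : ℤ) : ℂ) = (((e j : ℤ) : ℝ) : ℂ) by push_cast; rfl, Complex.re_ofReal_mul, Complex.exp_ofReal_mul_I_re]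
  have him : (aeval (Complex.exp (θ * Complex.I)) (QP m e x)).im = ∑ j ∈ Finset.range m, (e j : ℝ) * sin (x j * θ) := by
    rw [h0, Complex.im_sum]
    apply Finset.sum_congr rfl
    intro j _
    rw [show ((e j : ℤ) : ℂ) = (((e j : ℤ) : ℝ) : ℂ) by push_cast; rfl, Complex.im_ofReal_mul, Complex.exp_ofReal_mul_I_im]
  rw [hre, him, Finset.sum_mul_sum, Finset.sum_mul_sum, ← Finset.sum_add_distrib]
  apply Finset.sum_congr rfl; intro j _
  rw [← Finset.sum_add_distrib]
  apply Finset.sum_congr rfl; intro k _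
  rw [cos_dst]; ring

lemma E_QP (s : ℝ) (hs : 0 ≤ s) (m : ℕ) (e : ℕ → ℤ) (x : ℕ → ℕ) :
    E s (QP m e x) = ∑ i ∈ range m, ∑ j ∈ range m, (e i : ℝ) * (e j : ℝ) * J s (dst (x i) (x j)) := by
  unfold E
  have hw := w_cont s hs
  have h1 : ∀ θ : ℝ, w s θ * ‖aeval (Complex.exp (θ * Complex.I)) (QP m e x)‖ ^ 2
      = ∑ j ∈ Finset.range m, ∑ k ∈ Finset.range m, ((e j : ℝ) * (e k : ℝ)) * (w s θ * cos ((dst (x j) (x k) : ℕ) * θ)) := by
    intro θ
    rw [normSq_QP, Finset.mul_sum]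
    apply Finset.sum_congr rfl; intro j _
    rw [Finset.mul_sum]
    apply Finset.sum_congr rfl; intro k _
    ring
  simp_rw [h1]
  rw [intervalIntegral.integral_finsetSum]
  · apply Finset.sum_congr rfl; intro j _
    rw [intervalIntegral.integral_finsetSum]
    · apply Finset.sum_congr rfl; intro k _
      rw [intervalIntegral.integral_const_mul]; rfl
    · intro k _
      apply Continuous.intervalIntegrable; fun_prop
  · intro j _
    apply Continuous.intervalIntegrable; fun_prop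

/-- sign pattern + -- ++ -- ... -/
def sg (i : ℕ) : ℤ := if (i+1)/2 % 2 = 0 then 1 else -1

/-- entrywise upper bound -/
noncomputable def Bd (J0 J1 δ : ℝ) (i j : ℕ) : ℝ :=
  if i = j then J0 else if (i = j + 1 ∧ j % 2 = 1) ∨ (j = i + 1 ∧ i % 2 = 1) then J1 else δ

lemma sg_sq (i : ℕ) : sg i * sg i = 1 := by unfold sg; split_ifs <;> norm_num

lemma sg_abs (i j : ℕ) : sg i * sg j = 1 ∨ sg i * sg j = -1 := by unfold sg; split_ifs <;> norm_num

lemma sg_pair (i : ℕ) (hi : i % 2 = 1) : sg i * sg (i+1) = 1 := by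
  have : (i+1)/2 = (i+1+1)/2 := by omega
  unfold sg; rw [this]; split_ifs <;> norm_num

lemma J_abs (s : ℝ) (hs : 0 ≤ s) (hs1 : s ≤ 1) (n G : ℕ) (hG : 1 ≤ G) (hn : G ≤ n) :
    - J s n ≤ J s 0 / G ∧ J s n ≤ 0 := by
  obtain ⟨m, rfl⟩ := Nat.exists_eq_succ_of_ne_zero (by omega : n ≠ 0)
  refine ⟨le_trans (J_lower s hs hs1 m) ?_, J_nonpos s hs hs1 m⟩
  have hG' : (0:ℝ) < G := by exact_mod_cast hG
  apply div_le_div_of_nonneg_left (J0_nonneg s) hG'
  exact_mod_cast hn

/-- positions with gaps large, 1, large, 1, ..., large -/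
structure Pat (m G : ℕ) (x : ℕ → ℕ) : Prop where
  odd : ∀ i, i % 2 = 1 → i + 1 < m → x (i+1) = x i + 1
  even : ∀ i, i % 2 = 0 → i + 1 < m → x i + G ≤ x (i+1)

lemma Pat.mono {m G : ℕ} {x : ℕ → ℕ} (h : Pat m G x) (i j : ℕ) (hij : i ≤ j) (hj : j < m) : x i ≤ x j := by
  induction j, hij using Nat.le_induction with
  | base => exact le_rfl
  | succ j hij ih =>
    have := ih (by omega)
    rcases Nat.mod_two_eq_zero_or_one j with h2 | h2
    · have := h.even j h2 hj; omega
    · have := h.odd j h2 hj; omega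

lemma Pat.far {m G : ℕ} {x : ℕ → ℕ} (h : Pat m G x) (i j : ℕ) (hij : i < j) (hj : j < m)
    (hne : ¬ (j = i + 1 ∧ i % 2 = 1)) : x i + G ≤ x j := by
  rcases Nat.mod_two_eq_zero_or_one i with h2 | h2
  · have h3 := h.even i h2 (by omega)
    have h4 := h.mono (i+1) j (by omega) hj
    omega
  · have h3 : i + 2 ≤ j := by omega
    have h5 := h.odd i h2 (by omega)
    have h6 : x (i+1) + G ≤ x (i+2) := h.even (i+1) (by omega) (by omega)
    have h4 := h.mono (i+2) j (by omega) hj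
    omega

lemma E_pat_le (s : ℝ) (hs : 0 ≤ s) (hs1 : s ≤ 1) (m G : ℕ) (hG : 1 ≤ G) (x : ℕ → ℕ) (h : Pat m G x) :
    E s (QP m sg x) ≤ ∑ i ∈ range m, ∑ j ∈ range m, Bd (J s 0) (J s 1) (J s 0 / G) i j := by
  rw [E_QP s hs]
  have key : ∀ i j, i < j → j < m → (sg i : ℝ) * (sg j : ℝ) * J s (dst (x i) (x j)) ≤ 
      if (j = i + 1 ∧ i % 2 = 1) then J s 1 else J s 0 / G := by
    intro i j hij hj
    by_cases hp : (j = i + 1 ∧ i % 2 = 1)
    · rw [if_pos hp]
      obtain ⟨rfl, hi⟩ := hp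
      have h1 := h.odd i hi hj
      have h2 : dst (x i) (x (i+1)) = 1 := by unfold dst; omega
      have h3 : (sg i : ℝ) * (sg (i+1) : ℝ) = 1 := by exact_mod_cast sg_pair i hi
      rw [h2, h3]; linarith
    · rw [if_neg hp]
      have h1 := h.far i j hij hj hp
      have h2 : G ≤ dst (x i) (x j) := by unfold dst; omega
      obtain ⟨h3, h4⟩ := J_abs s hs hs1 _ G hG h2
      rcases sg_abs i j with h5 | h5
      · have h6 : (sg i : ℝ) * (sg j : ℝ) = 1 := by exact_mod_cast h5
        rw [h6]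
        have : 0 ≤ J s 0 / G := div_nonneg (J0_nonneg s) (Nat.cast_nonneg G)
        linarith
      · have h6 : (sg i : ℝ) * (sg j : ℝ) = -1 := by exact_mod_cast h5
        rw [h6]; linarith
  apply Finset.sum_le_sum; intro i hi
  apply Finset.sum_le_sum; intro j hj
  rw [Finset.mem_range] at hi hj
  unfold Bd
  rcases lt_trichotomy i j with hij | hij | hij
  · rw [if_neg (by omega)]
    refine le_trans (key i j hij hj) (le_of_eq ?_)
    by_cases hp : (j = i + 1 ∧ i % 2 = 1)
    · rw [if_pos hp, if_pos (Or.inr hp)]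
    · rw [if_neg hp, if_neg (by omega)]
  · subst hij
    rw [if_pos rfl]
    have h1 : dst (x i) (x i) = 0 := by unfold dst; simp
    have h2 : (sg i : ℝ) * (sg i : ℝ) = 1 := by exact_mod_cast sg_sq i
    rw [h1, h2, one_mul]
  · rw [if_neg (by omega)]
    rw [dst_comm, mul_comm (sg i : ℝ)]
    refine le_trans (key j i hij hi) (le_of_eq ?_)
    by_cases hp : (i = j + 1 ∧ j % 2 = 1)
    · rw [if_pos hp, if_pos (Or.inl hp)]
    · rw [if_neg hp, if_neg (by omega)]

end Pool.Agent.H402.Wl
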